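import Mathlib
import Pool.Agent.Lib.H98.ProdIndep

/-!
Percolation on a finite vertex set: clusters, the product Bernoulli law and its independence
properties.
-/

set_option linter.unusedSectionVars false

open MeasureTheory Set
open scoped unitInterval

namespace Pool.Agent.Lib.Pc53cb9

open Pool.Agent.Lib.H98

variable {V : Type*}

/-! ## Clusters (deterministic part) -/

/-- Adjacency in the configuration `b`. -/
def Op (b : Sym2 V → Bool) (x y : V) : Prop := x ≠ y ∧ b s(x, y) = true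

lemma Op.symm {b : Sym2 V → Bool} {x y : V} (h : Op b x y) : Op b y x :=
  ⟨h.1.symm, by rw [Sym2.eq_swap]; exact h.2⟩

/-- Edges inside `U`. -/
def inE (U : Finset V) : Set (Sym2 V) := {e | ∀ v ∈ e, v ∈ U}

/-- Edges touching `S`. -/
def touchE (S : Finset V) : Set (Sym2 V) := {e | ∃ v ∈ e, v ∈ S}

lemma mem_inE {U : Finset V} {x y : V} : s(x, y) ∈ inE U ↔ x ∈ U ∧ y ∈ U := by
  simp [inE, Sym2.mem_iff]

lemma mem_touchE {S : Finset V} {x y : V} : s(x, y) ∈ touchE S ↔ x ∈ S ∨ y ∈ S := by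
  simp [touchE, Sym2.mem_iff]

variable [Fintype V] [DecidableEq V]

open Classical in
/-- The set of vertices reachable inside `U` from the vertices of `B ∩ U`. -/
noncomputable def Cl (U B : Finset V) (b : Sym2 V → Bool) : Finset V :=
  Finset.univ.filter fun y => ∃ c ∈ B, c ∈ U ∧
    Relation.ReflTransGen (fun x z => Op b x z ∧ z ∈ U) c y

lemma mem_Cl {U B : Finset V} {b : Sym2 V → Bool} {y : V} :
    y ∈ Cl U B b ↔ ∃ c ∈ B, c ∈ U ∧ Relation.ReflTransGen (fun x z => Op b x z ∧ z ∈ U) c y := by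
  simp [Cl]

lemma Cl_start {U B : Finset V} {b : Sym2 V → Bool} {c : V} (hB : c ∈ B) (hU : c ∈ U) :
    c ∈ Cl U B b := mem_Cl.2 ⟨c, hB, hU, Relation.ReflTransGen.refl⟩

lemma Cl_step {U B : Finset V} {b : Sym2 V → Bool} {x y : V} (hx : x ∈ Cl U B b) (h : Op b x y)
    (hy : y ∈ U) : y ∈ Cl U B b := by
  obtain ⟨c, hc, hcU, hcx⟩ := mem_Cl.1 hx
  exact mem_Cl.2 ⟨c, hc, hcU, hcx.tail ⟨h, hy⟩⟩

lemma Cl_subset_of {U B S : Finset V} {b : Sym2 V → Bool} (h0 : ∀ c ∈ B, c ∈ U → c ∈ S)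
    (h1 : ∀ x ∈ S, ∀ y, Op b x y → y ∈ U → y ∈ S) : Cl U B b ⊆ S := by
  intro y hy
  obtain ⟨c, hc, hcU, hcy⟩ := mem_Cl.1 hy
  induction hcy with
  | refl => exact h0 c hc hcU
  | tail h1' h2 ih => exact h1 _ (ih (mem_Cl.2 ⟨c, hc, hcU, h1'⟩)) _ h2.1 h2.2

lemma Cl_subset (U B : Finset V) (b : Sym2 V → Bool) : Cl U B b ⊆ U :=
  Cl_subset_of (fun _ _ h => h) fun _ _ _ _ h => h

lemma Cl_mono {U U' B B' : Finset V} {b : Sym2 V → Bool} (hU : U ⊆ U') (hB : B ⊆ B') :
    Cl U B b ⊆ Cl U' B' b :=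
  Cl_subset_of (fun _ h1 h2 => Cl_start (hB h1) (hU h2)) fun _ h1 _ h2 h3 => Cl_step h1 h2 (hU h3)

lemma Cl_mono_config {U B : Finset V} {b b' : Sym2 V → Bool}
    (h : ∀ e, b e = true → b' e = true) : Cl U B b ⊆ Cl U B b' :=
  Cl_subset_of (fun _ h1 h2 => Cl_start h1 h2) fun _ h1 _ h2 h3 =>
    Cl_step h1 ⟨h2.1, h _ h2.2⟩ h3

lemma Cl_congr {U B S : Finset V} {b b' : Sym2 V → Bool}
    (h : ∀ e ∈ inE U ∩ touchE S, b e = b' e) (hS : Cl U B b = S) : Cl U B b' = S := by
  have hSU : S ⊆ U := hS ▸ Cl_subset U B b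
  refine Finset.Subset.antisymm ?_ ?_
  · refine Cl_subset_of (fun c h1 h2 => hS ▸ Cl_start h1 h2) fun x hx y hxy hy => ?_
    rw [← hS] at hx ⊢
    refine Cl_step hx ⟨hxy.1, ?_⟩ hy
    rw [h s(x, y) ⟨mem_inE.2 ⟨Cl_subset _ _ _ hx, hy⟩, mem_touchE.2 (Or.inl (hS ▸ hx))⟩]
    exact hxy.2
  · have h1 : Cl U B b ⊆ (Cl U B b').filter fun y => y ∈ S := by
      refine Cl_subset_of (fun c h1 h2 => ?_) fun x hx y hxy hy => ?_
      · exact Finset.mem_filter.2 ⟨Cl_start h1 h2, hS ▸ Cl_start h1 h2⟩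
      · rw [Finset.mem_filter] at hx ⊢
        have hy' : y ∈ S := by
          rw [← hS]; exact Cl_step (hS ▸ hx.2) hxy hy
        refine ⟨Cl_step hx.1 ⟨hxy.1, ?_⟩ hy, hy'⟩
        rw [← h s(x, y) ⟨mem_inE.2 ⟨hSU hx.2, hy⟩, mem_touchE.2 (Or.inl hx.2)⟩]
        exact hxy.2
    intro y hy
    rw [← hS] at hy
    exact (Finset.mem_filter.1 (h1 hy)).1

lemma Cl_union (U B B' : Finset V) (b : Sym2 V → Bool) :
    Cl U (B ∪ B') b = Cl U B b ∪ Cl (U \ Cl U B b) B' b := by
  refine Finset.Subset.antisymm ?_ ?_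
  · refine Cl_subset_of (fun c h1 h2 => ?_) fun x hx y hxy hy => ?_
    · by_cases hc : c ∈ Cl U B b
      · exact Finset.mem_union_left _ hc
      · rcases Finset.mem_union.1 h1 with h | h
        · exact absurd (Cl_start h h2) hc
        · exact Finset.mem_union_right _ (Cl_start h (Finset.mem_sdiff.2 ⟨h2, hc⟩))
    · by_cases hyc : y ∈ Cl U B b
      · exact Finset.mem_union_left _ hyc
      · rcases Finset.mem_union.1 hx with h | h
        · exact absurd (Cl_step h hxy hy) hyc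
        · exact Finset.mem_union_right _ (Cl_step h hxy (Finset.mem_sdiff.2 ⟨hy, hyc⟩))
  · exact Finset.union_subset (Cl_mono (Finset.Subset.refl _) Finset.subset_union_left)
      (Cl_mono Finset.sdiff_subset Finset.subset_union_right)

lemma Cl_disjoint (U B B' : Finset V) (b : Sym2 V → Bool) :
    Disjoint (Cl U B b) (Cl (U \ Cl U B b) B' b) :=
  Finset.disjoint_left.2 fun _ hx hx' => (Finset.mem_sdiff.1 (Cl_subset _ _ _ hx')).2 hx

open Classical in
/-- Neighbours of `x`. -/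
noncomputable def nbr (x : V) (b : Sym2 V → Bool) : Finset V := Finset.univ.filter fun y => Op b x y

lemma mem_nbr {x y : V} {b : Sym2 V → Bool} : y ∈ nbr x b ↔ Op b x y := by simp [nbr]

lemma Cl_singleton {U : Finset V} {x : V} (hx : x ∈ U) (b : Sym2 V → Bool) :
    Cl U {x} b = insert x (Cl (U.erase x) (nbr x b) b) := by
  refine Finset.Subset.antisymm ?_ ?_
  · refine Cl_subset_of (fun c h1 _ => ?_) fun a ha y hay hy => ?_
    · rw [Finset.mem_singleton.1 h1]; exact Finset.mem_insert_self _ _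
    · by_cases hyx : y = x
      · rw [hyx]; exact Finset.mem_insert_self _ _
      · refine Finset.mem_insert_of_mem ?_
        rcases Finset.mem_insert.1 ha with rfl | h
        · exact Cl_start (mem_nbr.2 hay) (Finset.mem_erase.2 ⟨hyx, hy⟩)
        · exact Cl_step h hay (Finset.mem_erase.2 ⟨hyx, hy⟩)
  · refine Finset.insert_subset (Cl_start (Finset.mem_singleton_self _) hx) ?_
    refine Cl_subset_of (fun c h1 h2 => ?_) fun a ha y hay hy => ?_
    · exact Cl_step (Cl_start (Finset.mem_singleton_self _) hx) (mem_nbr.1 h1)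
        (Finset.mem_of_mem_erase h2)
    · exact Cl_step ha hay (Finset.mem_of_mem_erase hy)

lemma Cl_singleton_card {U : Finset V} {x : V} (hx : x ∈ U) (b : Sym2 V → Bool) :
    (Cl U {x} b).card = (Cl (U.erase x) (nbr x b) b).card + 1 := by
  rw [Cl_singleton hx, Finset.card_insert_of_notMem]
  intro h
  exact absurd rfl (Finset.mem_erase.1 (Cl_subset _ _ _ h)).1

lemma Cl_empty (U : Finset V) (b : Sym2 V → Bool) : Cl U ∅ b = ∅ :=
  Finset.subset_empty.1 (Cl_subset_of (by simp) (by simp))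

lemma Cl_not_mem {U : Finset V} {a : V} (h : a ∉ U) (b : Sym2 V → Bool) : Cl U {a} b = ∅ :=
  Finset.subset_empty.1 (Cl_subset_of (by
    intro c hc hcU
    rw [Finset.mem_singleton.1 hc] at hcU
    exact absurd hcU h) (by simp))

/-- Reachability is symmetric. -/
lemma Cl_symm {U : Finset V} {x y : V} {b : Sym2 V → Bool} (h : y ∈ Cl U {x} b) :
    x ∈ Cl U {y} b := by
  have hxU : x ∈ U := by
    by_contra hx
    rw [Cl_not_mem hx] at h
    exact absurd h (Finset.notMem_empty _)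
  have h1 : Cl U {x} b ⊆ U.filter fun z => x ∈ Cl U {z} b := by
    refine Cl_subset_of (fun c hc hcU => ?_) fun a ha z haz hz => ?_
    · rw [Finset.mem_singleton.1 hc]
      exact Finset.mem_filter.2 ⟨hxU, Cl_start (Finset.mem_singleton_self _) hxU⟩
    · rw [Finset.mem_filter] at ha ⊢
      refine ⟨hz, ?_⟩
      have h2 : Cl U {a} b ⊆ Cl U {z} b := by
        refine Cl_subset_of (fun c hc hcU => ?_) fun w hw w' hww' hw' => Cl_step hw hww' hw'
        rw [Finset.mem_singleton.1 hc]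
        exact Cl_step (Cl_start (Finset.mem_singleton_self _) hz) haz.symm ha.1
      exact h2 ha.2
  exact (Finset.mem_filter.1 (h1 h)).2

/-- The cluster of a vertex of a cluster is the same cluster. -/
lemma Cl_eq_of_mem {U : Finset V} {x y : V} {b : Sym2 V → Bool} (h : y ∈ Cl U {x} b) :
    Cl U {y} b = Cl U {x} b := by
  have key : ∀ x y : V, y ∈ Cl U {x} b → Cl U {y} b ⊆ Cl U {x} b := by
    intro x y h
    refine Cl_subset_of (fun c hc hcU => ?_) fun w hw w' hww' hw' => Cl_step hw hww' hw'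
    rw [Finset.mem_singleton.1 hc]; exact h
  exact Finset.Subset.antisymm (key x y h) (key y x (Cl_symm h))

lemma Cl_subset_biUnion (U B : Finset V) (b : Sym2 V → Bool) :
    Cl U B b ⊆ B.biUnion fun a => Cl U {a} b := by
  refine Cl_subset_of (fun c hc hcU => ?_) fun x hx y hxy hy => ?_
  · exact Finset.mem_biUnion.2 ⟨c, hc, Cl_start (Finset.mem_singleton_self _) hcU⟩
  · obtain ⟨a, ha, hxa⟩ := Finset.mem_biUnion.1 hx
    exact Finset.mem_biUnion.2 ⟨a, ha, Cl_step hxa hxy hy⟩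

/-- Comparison of the cluster of `a` in the whole graph with the cluster `T` of `a` in `U`. -/
lemma Cl_univ_subset (U : Finset V) (a : V) (b : Sym2 V → Bool) (ha : a ∈ U) :
    Cl Finset.univ {a} b ⊆ Cl U {a} b ∪
      (Finset.univ.filter fun r => r ∉ U ∧ ∃ t ∈ Cl U {a} b, b s(t, r) = true).biUnion
        fun r => Cl (Cl U {a} b)ᶜ {r} b := by
  classical
  refine Cl_subset_of (fun c hc _ => ?_) fun x hx y hxy _ => ?_
  · rw [Finset.mem_singleton.1 hc]
    exact Finset.mem_union_left _ (Cl_start (Finset.mem_singleton_self _) ha)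
  · by_cases hyT : y ∈ Cl U {a} b
    · exact Finset.mem_union_left _ hyT
    · refine Finset.mem_union_right _ ?_
      rcases Finset.mem_union.1 hx with h | h
      · have hyU : y ∉ U := fun hyU => hyT (Cl_step h hxy hyU)
        refine Finset.mem_biUnion.2 ⟨y, ?_, Cl_start (Finset.mem_singleton_self _)
          (Finset.mem_compl.2 hyT)⟩
        exact Finset.mem_filter.2 ⟨Finset.mem_univ _, hyU, x, h, hxy.2⟩
      · obtain ⟨r, hr, hxr⟩ := Finset.mem_biUnion.1 h
        exact Finset.mem_biUnion.2 ⟨r, hr, Cl_step hxr hxy (Finset.mem_compl.2 hyT)⟩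

/-! ## Dependence on edges -/

lemma depOn_Cl_eq (U B S : Finset V) :
    DepOn {b : Sym2 V → Bool | Cl U B b = S} (inE U ∩ touchE S) :=
  fun _ _ h hS => Cl_congr h hS

lemma Cl_congr' {U : Finset V} (B : Finset V) {b b' : Sym2 V → Bool} (h : ∀ e ∈ inE U, b e = b' e) :
    Cl U B b = Cl U B b' :=
  (Cl_congr (fun e he => (h e he.1)) rfl).symm

lemma depOn_Cl (U B : Finset V) (Q : Finset V → Prop) :
    DepOn {b : Sym2 V → Bool | Q (Cl U B b)} (inE U) := by
  intro b b' h hb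
  simp only [mem_ofPred_eq] at hb ⊢
  rwa [← Cl_congr' B h]

end Pool.Agent.Lib.Pc53cb9
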