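import Mathlib
import Pool.Agent.Lib.H98.ProdIndep
import Pool.Agent.Lib.Pc53cb9.Perc

/-!
The product Bernoulli law on edge configurations.
-/

set_option linter.unusedSectionVars false

open MeasureTheory Set
open scoped unitInterval

namespace Pool.Agent.Lib.Pc53cb9

open Pool.Agent.Lib.H98

/-- The Bernoulli law of parameter `t`, as the law of the truth value of `U < t` with `U` uniform
on `[0,1]`. -/
noncomputable def bern (t : ℝ) : Measure Bool :=
  (volume : Measure I).map fun s : I => decide ((s : ℝ) < t)

lemma measurable_dec (t : ℝ) : Measurable fun s : I => decide ((s : ℝ) < t) := by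
  refine measurable_to_bool ?_
  have : (fun s : I => decide ((s : ℝ) < t)) ⁻¹' {true} = {s : I | (s : ℝ) < t} := by
    ext s; simp
  rw [this]
  exact measurableSet_lt measurable_subtype_coe measurable_const

instance (t : ℝ) : IsProbabilityMeasure (bern t) :=
  Measure.isProbabilityMeasure_map (measurable_dec t).aemeasurable

lemma bern_true {t : ℝ} (h0 : 0 ≤ t) (h1 : t ≤ 1) : (bern t).real {true} = t := by
  unfold bern Measure.real
  rw [Measure.map_apply (measurable_dec t) (measurableSet_singleton _)]
  have h3 : (fun s : I => decide ((s : ℝ) < t)) ⁻¹' {true} = {s : I | (s : ℝ) < t} := by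
    ext s; simp
  have h2 : (volume : Measure I) {x : I | (x : ℝ) < t} = ENNReal.ofReal t := by
    rw [unitInterval.volume_apply]
    have : Subtype.val '' {x : I | (x : ℝ) < t} = Ico 0 t := by
      ext y
      constructor
      · rintro ⟨x, hx, rfl⟩
        exact ⟨x.2.1, hx⟩
      · rintro ⟨h0, h1'⟩
        exact ⟨⟨y, h0, h1'.le.trans h1⟩, h1', rfl⟩
    rw [this, Real.volume_Ico, sub_zero]
  rw [h3, h2, ENNReal.toReal_ofReal h0]

variable {V : Type*}

/-- The law of a random configuration with independent edges, `e` being open with probability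
`p e`. -/
noncomputable def law (p : Sym2 V → ℝ) : Measure (Sym2 V → Bool) :=
  Measure.infinitePi fun e => bern (p e)

instance (p : Sym2 V → ℝ) : IsProbabilityMeasure (law p) := by unfold law; infer_instance

/-- The law of i.i.d. uniform labels. -/
noncomputable def labels (V : Type*) : Measure (Sym2 V → I) := Measure.infinitePi fun _ => volume

instance : IsProbabilityMeasure (labels V) := by unfold labels; infer_instance

/-- The configuration obtained from the labels `ω` with thresholds `p`. -/
noncomputable def conf (p : Sym2 V → ℝ) (ω : Sym2 V → I) : Sym2 V → Bool :=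
  fun e => decide ((ω e : ℝ) < p e)

lemma measurable_conf (p : Sym2 V → ℝ) : Measurable (conf p) :=
  measurable_pi_iff.2 fun e => (measurable_dec (p e)).comp (measurable_pi_apply e)

lemma map_conf (p : Sym2 V → ℝ) : (labels V).map (conf p) = law p := by
  unfold labels law conf bern
  exact Measure.infinitePi_map_pi _ fun e => measurable_dec (p e)

lemma law_inter (p : Sym2 V → ℝ) {A B : Set (Sym2 V → Bool)} (hA : MeasurableSet A)
    (hB : MeasurableSet B) {S T : Set (Sym2 V)} (hAS : DepOn A S) (hBT : DepOn B T)
    (hST : Disjoint S T) : (law p).real (A ∩ B) = (law p).real A * (law p).real B :=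
  measureReal_inter_of_depOn (μ := fun e : Sym2 V => bern (p e)) hA hB hAS hBT hST

lemma law_open {p : Sym2 V → ℝ} {e : Sym2 V} (h0 : 0 ≤ p e) (h1 : p e ≤ 1) :
    (law p).real {b | b e = true} = p e := by
  have h := (measurePreserving_eval_infinitePi (fun e : Sym2 V => bern (p e)) e).measure_preimage
    (s := ({true} : Set Bool)) (measurableSet_singleton _).nullMeasurableSet
  have h2 : {b : Sym2 V → Bool | b e = true} =
      Function.eval (β := fun _ => Bool) e ⁻¹' ({true} : Set Bool) := rfl
  unfold law Measure.real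
  rw [h2, h]
  exact bern_true h0 h1

lemma depOn_open (e : Sym2 V) (c : Bool) : DepOn {b : Sym2 V → Bool | b e = c} {e} := by
  intro b b' h hb
  simp only [mem_ofPred_eq] at hb ⊢
  rw [← h e rfl, hb]

variable [Fintype V] [DecidableEq V]

section Fiber

variable {β : Type*} [Fintype β] [DecidableEq β]

lemma law_real_eq_sum (p : Sym2 V → ℝ) (A : Set (Sym2 V → Bool)) [DecidablePred (· ∈ A)] :
    (law p).real A = ∑ b ∈ Finset.univ.filter (· ∈ A), (law p).real {b} := by
  rw [sum_measureReal_singleton]
  congr 1
  ext b; simp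

lemma sum_fiber_inter (p : Sym2 V → ℝ) (X : (Sym2 V → Bool) → β) (A : Set (Sym2 V → Bool)) :
    ∑ s, (law p).real ({b | X b = s} ∩ A) = (law p).real A := by
  classical
  rw [law_real_eq_sum p A]
  simp_rw [law_real_eq_sum p (_ ∩ A)]
  rw [← Finset.sum_fiberwise (Finset.univ.filter (· ∈ A)) X]
  refine Finset.sum_congr rfl fun s _ => ?_
  congr 1
  ext b
  simp [and_comm]

lemma sum_fiber (p : Sym2 V → ℝ) (X : (Sym2 V → Bool) → β) :
    ∑ s, (law p).real {b | X b = s} = 1 := by
  have h := sum_fiber_inter p X Set.univ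
  simp only [inter_univ, probReal_univ] at h
  exact h

lemma integral_eq_sum (p : Sym2 V → ℝ) (F : (Sym2 V → Bool) → ℝ) :
    ∫ b, F b ∂(law p) = ∑ b, (law p).real {b} * F b := by
  rw [integral_fintype Integrable.of_finite]
  rfl

lemma integral_fiber (p : Sym2 V → ℝ) (X : (Sym2 V → Bool) → β) (F : β → ℝ) :
    ∫ b, F (X b) ∂(law p) = ∑ s, (law p).real {b | X b = s} * F s := by
  classical
  rw [integral_eq_sum, ← Finset.sum_fiberwise Finset.univ X]
  refine Finset.sum_congr rfl fun s _ => ?_
  rw [law_real_eq_sum, Finset.sum_mul]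
  refine Finset.sum_congr (by ext; simp) fun b hb => ?_
  rw [(Finset.mem_filter.1 hb).2]

/-- Decomposition of an expectation according to the value of `X`. -/
lemma integral_decomp (p : Sym2 V → ℝ) (X : (Sym2 V → Bool) → β)
    (G : β → (Sym2 V → Bool) → ℝ) :
    ∫ b, G (X b) b ∂(law p) = ∑ s, ∫ b, {b | X b = s}.indicator (G s) b ∂(law p) := by
  classical
  rw [← integral_finsetSum _ fun s _ => Integrable.of_finite]
  refine integral_congr_ae (Filter.Eventually.of_forall fun b => ?_)
  simp only [Set.indicator_apply, mem_ofPred_eq]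
  simp

end Fiber

/-- The function `F` depends only on the coordinates in `T`. -/
def FDep (F : (Sym2 V → Bool) → ℝ) (T : Set (Sym2 V)) : Prop :=
  ∀ b b' : Sym2 V → Bool, (∀ e ∈ T, b e = b' e) → F b = F b'

open Classical in
/-- Restriction of a configuration. -/
noncomputable def restr (T : Set (Sym2 V)) (b : Sym2 V → Bool) : Sym2 V → Bool :=
  fun e => if e ∈ T then b e else false

lemma depOn_restr (T : Set (Sym2 V)) (s : Sym2 V → Bool) :
    DepOn {b : Sym2 V → Bool | restr T b = s} T := by
  intro b b' h hb
  simp only [mem_ofPred_eq] at hb ⊢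
  rw [← hb]
  ext e
  by_cases he : e ∈ T
  · simp [restr, he, h e he]
  · simp [restr, he]

lemma integral_indep (p : Sym2 V → ℝ) {A : Set (Sym2 V → Bool)} {F : (Sym2 V → Bool) → ℝ}
    {S T : Set (Sym2 V)} (hA : DepOn A S) (hF : FDep F T) (hST : Disjoint S T) :
    ∫ b, A.indicator F b ∂(law p) = (law p).real A * ∫ b, F b ∂(law p) := by
  classical
  have h1 : ∀ b, F b = F (restr T b) := fun b => hF b _ fun e he => by simp [restr, he]
  have h2 : ∫ b, F b ∂(law p) = ∑ s, (law p).real {b | restr T b = s} * F s := by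
    rw [← integral_fiber p (restr T) F]
    exact integral_congr_ae (Filter.Eventually.of_forall h1)
  have h3 : ∫ b, A.indicator F b ∂(law p) =
      ∑ s, (law p).real ({b | restr T b = s} ∩ A) * F s := by
    have h4 := integral_decomp p (restr T) (fun s b => A.indicator (fun _ => F s) b)
    have h5 : ∫ b, A.indicator F b ∂(law p) =
        ∫ b, A.indicator (fun _ => F (restr T b)) b ∂(law p) := by
      refine integral_congr_ae (Filter.Eventually.of_forall fun b => ?_)
      simp only [Set.indicator_apply]
      rw [← h1]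
    rw [h5, h4]
    refine Finset.sum_congr rfl fun s _ => ?_
    rw [Set.indicator_indicator, integral_indicator (MeasurableSet.of_discrete), setIntegral_const,
      smul_eq_mul]
  rw [h3, h2, Finset.mul_sum]
  refine Finset.sum_congr rfl fun s _ => ?_
  rw [Set.inter_comm, law_inter p MeasurableSet.of_discrete MeasurableSet.of_discrete hA
    (depOn_restr T s) hST]
  ring

lemma FDep.mono {F : (Sym2 V → Bool) → ℝ} {S T : Set (Sym2 V)} (h : FDep F S) (hST : S ⊆ T) :
    FDep F T := fun b b' hb => h b b' fun e he => hb e (hST he)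

/-- Monotonicity of expectations. -/
lemma integral_le (p : Sym2 V → ℝ) {F G : (Sym2 V → Bool) → ℝ} (h : ∀ b, F b ≤ G b) :
    ∫ b, F b ∂(law p) ≤ ∫ b, G b ∂(law p) :=
  integral_mono Integrable.of_finite Integrable.of_finite h

lemma integral_add' (p : Sym2 V → ℝ) (F G : (Sym2 V → Bool) → ℝ) :
    ∫ b, (F b + G b) ∂(law p) = ∫ b, F b ∂(law p) + ∫ b, G b ∂(law p) :=
  integral_add Integrable.of_finite Integrable.of_finite

lemma integral_sub' (p : Sym2 V → ℝ) (F G : (Sym2 V → Bool) → ℝ) :
    ∫ b, (F b - G b) ∂(law p) = ∫ b, F b ∂(law p) - ∫ b, G b ∂(law p) :=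
  integral_sub Integrable.of_finite Integrable.of_finite

lemma integral_sum' {κ : Type*} (p : Sym2 V → ℝ) (s : Finset κ) (F : κ → (Sym2 V → Bool) → ℝ) :
    ∫ b, ∑ k ∈ s, F k b ∂(law p) = ∑ k ∈ s, ∫ b, F k b ∂(law p) :=
  integral_finsetSum _ fun _ _ => Integrable.of_finite

end Pool.Agent.Lib.Pc53cb9
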