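import Mathlib
import Pool.Agent.Lib.H98.ProdIndep
import Pool.Agent.Lib.Pc53cb9.Perc
import Pool.Agent.Lib.Pc53cb9.Law

/-!
The Laplace transform of cluster sizes and its recursion inequalities.
-/

set_option linter.unusedSectionVars false

open MeasureTheory Set
open scoped unitInterval

namespace Pool.Agent.Lib.Pc53cb9

open Pool.Agent.Lib.H98

variable {V : Type*} [Fintype V] [DecidableEq V]

/-- `exp (-h * n)`. -/
noncomputable def ex (h : ℝ) (n : ℕ) : ℝ := Real.exp (-(h * n))

lemma ex_pos (h : ℝ) (n : ℕ) : 0 < ex h n := Real.exp_pos _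

lemma ex_le_one {h : ℝ} (hh : 0 ≤ h) (n : ℕ) : ex h n ≤ 1 :=
  Real.exp_le_one_iff.2 (by have : 0 ≤ h * n := by positivity
                            linarith)

lemma ex_add (h : ℝ) (m n : ℕ) : ex h (m + n) = ex h m * ex h n := by
  unfold ex; rw [← Real.exp_add]; congr 1; push_cast; ring

lemma ex_anti {h : ℝ} (hh : 0 ≤ h) {m n : ℕ} (hmn : m ≤ n) : ex h n ≤ ex h m := by
  refine Real.exp_le_exp.2 ?_
  have : h * m ≤ h * n := by gcongr
  linarith

lemma ex_zero (h : ℝ) : ex h 0 = 1 := by simp [ex]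

/-- `E[exp (-h |Cl U B|)]`. -/
noncomputable def Phi (p : Sym2 V → ℝ) (h : ℝ) (U B : Finset V) : ℝ :=
  ∫ b, ex h (Cl U B b).card ∂(law p)

/-- The connection probability of `a` and `r`. -/
noncomputable def tau (p : Sym2 V → ℝ) (a r : V) : ℝ :=
  (law p).real {b | r ∈ Cl Finset.univ {a} b}

variable {p : Sym2 V → ℝ} {h : ℝ}

lemma tau_nonneg (a r : V) : 0 ≤ tau p a r := measureReal_nonneg

lemma tau_le_one (a r : V) : tau p a r ≤ 1 := measureReal_le_one

lemma tau_self (a : V) : tau p a a = 1 := by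
  unfold tau
  have : {b : Sym2 V → Bool | a ∈ Cl Finset.univ {a} b} = Set.univ :=
    eq_univ_of_forall fun b => Cl_start (Finset.mem_singleton_self _) (Finset.mem_univ _)
  rw [this, probReal_univ]

lemma tau_symm (a r : V) : tau p a r = tau p r a := by
  unfold tau
  congr 1
  ext b
  exact ⟨Cl_symm, Cl_symm⟩

lemma Phi_nonneg (U B : Finset V) : 0 ≤ Phi p h U B :=
  integral_nonneg fun b => (ex_pos _ _).le

lemma Phi_le_one (hh : 0 ≤ h) (U B : Finset V) : Phi p h U B ≤ 1 := by
  have h1 := integral_le p (F := fun b => ex h (Cl U B b).card) (G := fun _ => 1)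
    fun b => ex_le_one hh _
  simpa [Phi] using h1

lemma Phi_anti (hh : 0 ≤ h) {U U' B B' : Finset V} (hU : U ⊆ U') (hB : B ⊆ B') :
    Phi p h U' B' ≤ Phi p h U B :=
  integral_le p fun b => ex_anti hh (Finset.card_le_card (Cl_mono hU hB))

lemma disjoint_edges (U S : Finset V) : Disjoint (touchE S) (inE (U \ S)) := by
  rw [Set.disjoint_left]
  rintro e ⟨v, hv, hvS⟩ h
  exact (Finset.mem_sdiff.1 (h v hv)).2 hvS

lemma fdep_ex (U B : Finset V) : FDep (fun b => ex h (Cl U B b).card) (inE U) := fun b b' hb => by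
  simp only [Cl_congr' B hb]

/-- Exploration identity. -/
lemma Phi_union (U B : Finset V) (a : V) :
    Phi p h U (B ∪ {a}) = ∑ S, (law p).real {b | Cl U B b = S} *
      (ex h S.card * Phi p h (U \ S) {a}) := by
  have h1 : Phi p h U (B ∪ {a}) =
      ∫ b, (fun S b => ex h S.card * ex h (Cl (U \ S) {a} b).card) (Cl U B b) b ∂(law p) := by
    refine integral_congr_ae (Filter.Eventually.of_forall fun b => ?_)
    simp only
    rw [Cl_union, Finset.card_union_of_disjoint (Cl_disjoint _ _ _ _), ex_add]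
  refine h1.trans ((integral_decomp p (fun b => Cl U B b)
    (fun S b => ex h S.card * ex h (Cl (U \ S) {a} b).card)).trans ?_)
  refine Finset.sum_congr rfl fun S _ => ?_
  rw [integral_indep p (S := touchE S) (T := inE (U \ S))
    ((depOn_Cl_eq U B S).mono inter_subset_right)]
  · rw [integral_const_mul]; rfl
  · intro b b' hb
    simp only
    rw [Cl_congr' {a} hb]
  · exact disjoint_edges U S

lemma Phi_eq_sum (U B : Finset V) :
    Phi p h U B = ∑ S, (law p).real {b | Cl U B b = S} * ex h S.card :=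
  integral_fiber p (fun b => Cl U B b) fun S => ex h S.card

lemma Phi_empty (U : Finset V) : Phi p h U ∅ = 1 := by
  unfold Phi
  simp [Cl_empty, ex_zero]

/-- Lower bound for the transform of a union of clusters. -/
lemma pow_le_Phi (hh : 0 ≤ h) {ub : ℝ} (hub1 : ub ≤ 1)
    (hub : ∀ a, 1 - ub ≤ Phi p h Finset.univ {a}) (U B : Finset V) :
    (1 - ub) ^ B.card ≤ Phi p h U B := by
  induction B using Finset.induction_on with
  | empty => simp [Phi_empty]
  | insert a B ha ih =>
    rw [Finset.card_insert_of_notMem ha, pow_succ]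
    have h1 : insert a B = B ∪ {a} := by ext x; simp
    rw [h1, Phi_union]
    calc (1 - ub) ^ B.card * (1 - ub) ≤ Phi p h U B * (1 - ub) :=
          mul_le_mul_of_nonneg_right ih (by linarith)
      _ = ∑ S, (law p).real {b | Cl U B b = S} * (ex h S.card * (1 - ub)) := by
          rw [Phi_eq_sum, Finset.sum_mul]
          exact Finset.sum_congr rfl fun S _ => by ring
      _ ≤ _ := by
          refine Finset.sum_le_sum fun S _ => mul_le_mul_of_nonneg_left
            (mul_le_mul_of_nonneg_left ?_ (ex_pos _ _).le) measureReal_nonneg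
          exact (hub a).trans (Phi_anti hh (Finset.subset_univ _) (Finset.Subset.refl _))

lemma depOn_nbr (x : V) (A : Finset V) : DepOn {b : Sym2 V → Bool | nbr x b = A} (touchE {x}) := by
  intro b b' hb h1
  simp only [mem_ofPred_eq] at h1 ⊢
  rw [← h1]
  ext y
  rw [mem_nbr, mem_nbr, Op, Op, hb _ (mem_touchE.2 (Or.inl (Finset.mem_singleton_self x)))]

lemma disjoint_erase (x : V) : Disjoint (touchE {x}) (inE (Finset.univ.erase x)) := by
  rw [Set.disjoint_left]
  rintro e ⟨v, hv, hvS⟩ h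
  rw [Finset.mem_singleton] at hvS
  exact (Finset.mem_erase.1 (h v hv)).1 hvS

/-- Decomposition according to the neighbours of `x`. -/
lemma Phi_singleton (x : V) :
    Phi p h Finset.univ {x} = ex h 1 * ∑ A, (law p).real {b | nbr x b = A} *
      Phi p h (Finset.univ.erase x) A := by
  have h1 : Phi p h Finset.univ {x} =
      ∫ b, (fun A b => ex h 1 * ex h (Cl (Finset.univ.erase x) A b).card) (nbr x b) b
        ∂(law p) := by
    refine integral_congr_ae (Filter.Eventually.of_forall fun b => ?_)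
    simp only
    rw [Cl_singleton_card (Finset.mem_univ x), ← ex_add, add_comm]
  refine h1.trans ((integral_decomp p (fun b => nbr x b)
    (fun A b => ex h 1 * ex h (Cl (Finset.univ.erase x) A b).card)).trans ?_)
  rw [Finset.mul_sum]
  refine Finset.sum_congr rfl fun A _ => ?_
  rw [integral_indep p (depOn_nbr x A) (T := inE (Finset.univ.erase x)) ?_ (disjoint_erase x)]
  · rw [integral_const_mul]
    unfold Phi
    ring
  · intro b b' hb
    simp only
    rw [Cl_congr' A hb]

/-- Product formula over the edges at `x`. -/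
lemma integral_prod_nbr (hp0 : ∀ e, 0 ≤ p e) (hp1 : ∀ e, p e ≤ 1) (x : V) (c : ℝ) (T : Finset V) :
    ∫ b, ∏ y ∈ T, (if b s(x, y) = true then c else 1) ∂(law p) =
      ∏ y ∈ T, (1 - p s(x, y) * (1 - c)) := by
  induction T using Finset.induction_on with
  | empty => simp
  | insert a T ha ih =>
    rw [Finset.prod_insert ha, ← ih]
    have h1 : ∀ b : Sym2 V → Bool, ∏ y ∈ insert a T, (if b s(x, y) = true then c else 1) =
        ∏ y ∈ T, (if b s(x, y) = true then c else 1) - (1 - c) *
        {b : Sym2 V → Bool | b s(x, a) = true}.indicator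
          (fun b => ∏ y ∈ T, (if b s(x, y) = true then c else 1)) b := by
      intro b
      rw [Finset.prod_insert ha]
      by_cases hb : b s(x, a) = true
      · simp only [hb, if_true, mem_ofPred_eq, Set.indicator_of_mem]
        ring
      · simp [hb]
    simp_rw [h1]
    rw [integral_sub', integral_const_mul, integral_indep p (depOn_open s(x, a) true)
      (T := {e | ∃ y ∈ T, e = s(x, y)}) ?_ ?_, law_open (hp0 _) (hp1 _)]
    · ring
    · intro b b' hb
      exact Finset.prod_congr rfl fun y hy => by rw [hb _ ⟨y, hy, rfl⟩]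
    · rw [Set.disjoint_left]
      rintro e rfl ⟨y, hy, he⟩
      rw [Sym2.congr_right] at he
      exact ha (he ▸ hy)

lemma sum_nbr_pow (hp0 : ∀ e, 0 ≤ p e) (hp1 : ∀ e, p e ≤ 1) (hpd : ∀ x, p s(x, x) = 0) (x : V)
    (c : ℝ) : ∑ A, (law p).real {b | nbr x b = A} * c ^ A.card =
      ∏ y, (1 - p s(x, y) * (1 - c)) := by
  classical
  rw [← integral_fiber p (nbr x) fun A => c ^ A.card]
  have h1 : ∀ b, c ^ (nbr x b).card =
      ∏ y ∈ Finset.univ.erase x, (if b s(x, y) = true then c else 1) := by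
    intro b
    rw [Finset.prod_ite, Finset.prod_const_one, mul_one, Finset.prod_const]
    congr 2
    ext y
    rw [mem_nbr, Finset.mem_filter, Finset.mem_erase, Op]
    constructor
    · rintro ⟨h1, h2⟩
      exact ⟨⟨fun h => h1 h.symm, Finset.mem_univ _⟩, h2⟩
    · rintro ⟨⟨h1, -⟩, h2⟩
      exact ⟨fun h => h1 h.symm, h2⟩
  simp_rw [h1]
  rw [integral_prod_nbr hp0 hp1, ← Finset.mul_prod_erase Finset.univ _ (Finset.mem_univ x), hpd]
  ring

/-- First recursion inequality (upper bound for `u`). -/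
lemma rec_lower (hp0 : ∀ e, 0 ≤ p e) (hp1 : ∀ e, p e ≤ 1) (hpd : ∀ x, p s(x, x) = 0)
    (hh : 0 ≤ h) {ub : ℝ} (hub1 : ub ≤ 1) (hub : ∀ a, 1 - ub ≤ Phi p h Finset.univ {a}) (x : V) :
    Real.exp (-h) * ∏ y, (1 - p s(x, y) * ub) ≤ Phi p h Finset.univ {x} := by
  have h1 := sum_nbr_pow hp0 hp1 hpd x (1 - ub)
  simp only [sub_sub_cancel] at h1
  rw [Phi_singleton, ← h1]
  have h2 : ex h 1 = Real.exp (-h) := by simp [ex]
  rw [h2]
  refine mul_le_mul_of_nonneg_left (Finset.sum_le_sum fun A _ =>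
    mul_le_mul_of_nonneg_left (pow_le_Phi hh hub1 hub _ _) measureReal_nonneg) (Real.exp_pos _).le

/-! ### The reverse inequality -/

lemma one_sub_sum_le_prod {κ : Type*} (s : Finset κ) (f : κ → ℝ) (h0 : ∀ i ∈ s, 0 ≤ f i)
    (h1 : ∀ i ∈ s, f i ≤ 1) : 1 - ∑ i ∈ s, (1 - f i) ≤ ∏ i ∈ s, f i := by
  classical
  induction s using Finset.induction_on with
  | empty => simp
  | insert a s ha ih =>
    rw [Finset.sum_insert ha, Finset.prod_insert ha]
    have h2 := ih (fun i hi => h0 i (Finset.mem_insert_of_mem hi))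
      (fun i hi => h1 i (Finset.mem_insert_of_mem hi))
    have h3 := h0 a (Finset.mem_insert_self _ _)
    have h4 := h1 a (Finset.mem_insert_self _ _)
    have h5 : ∏ i ∈ s, f i ≤ 1 := Finset.prod_le_one
      (fun i hi => h0 i (Finset.mem_insert_of_mem hi))
      (fun i hi => h1 i (Finset.mem_insert_of_mem hi))
    nlinarith

lemma ex_sum {κ : Type*} (s : Finset κ) (n : κ → ℕ) : ex h (∑ i ∈ s, n i) = ∏ i ∈ s, ex h (n i) := by
  classical
  induction s using Finset.induction_on with
  | empty => simp [ex_zero]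
  | insert a s ha ih => rw [Finset.sum_insert ha, Finset.prod_insert ha, ex_add, ih]

/-- Pointwise comparison. -/
lemma ex_Cl_le (hh : 0 ≤ h) (U : Finset V) (a : V) (ha : a ∈ U) (b : Sym2 V → Bool) :
    ex h (Cl U {a} b).card ≤ ex h (Cl Finset.univ {a} b).card +
      ∑ r ∈ Uᶜ, {b : Sym2 V → Bool | ∃ t ∈ Cl U {a} b, b s(t, r) = true}.indicator
        (fun b => 1 - ex h (Cl (Cl U {a} b)ᶜ {r} b).card) b := by
  classical
  set T := Cl U {a} b with hT
  set R' := Finset.univ.filter fun r => r ∉ U ∧ ∃ t ∈ T, b s(t, r) = true with hR'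
  have h1 : (Cl Finset.univ {a} b).card ≤ T.card + ∑ r ∈ R', (Cl Tᶜ {r} b).card := by
    calc (Cl Finset.univ {a} b).card ≤ (T ∪ R'.biUnion fun r => Cl Tᶜ {r} b).card :=
          Finset.card_le_card (Cl_univ_subset U a b ha)
      _ ≤ T.card + (R'.biUnion fun r => Cl Tᶜ {r} b).card := Finset.card_union_le _ _
      _ ≤ _ := Nat.add_le_add_left Finset.card_biUnion_le _
  have h2 : ex h T.card * (1 - ∑ r ∈ R', (1 - ex h (Cl Tᶜ {r} b).card)) ≤
      ex h (Cl Finset.univ {a} b).card := by
    refine le_trans ?_ (ex_anti hh h1)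
    rw [ex_add, ex_sum]
    exact mul_le_mul_of_nonneg_left (one_sub_sum_le_prod _ _ (fun i _ => (ex_pos _ _).le)
      fun i _ => ex_le_one hh _) (ex_pos _ _).le
  have h3 : 0 ≤ ∑ r ∈ R', (1 - ex h (Cl Tᶜ {r} b).card) :=
    Finset.sum_nonneg fun r _ => sub_nonneg.2 (ex_le_one hh _)
  have h4 : ex h T.card ≤ 1 := ex_le_one hh _
  have h5 : ∑ r ∈ Uᶜ, {b : Sym2 V → Bool | ∃ t ∈ Cl U {a} b, b s(t, r) = true}.indicator
        (fun b => 1 - ex h (Cl (Cl U {a} b)ᶜ {r} b).card) b =
      ∑ r ∈ R', (1 - ex h (Cl Tᶜ {r} b).card) := by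
    rw [hR', Finset.sum_filter, ← Finset.sum_subset (Finset.subset_univ Uᶜ)]
    · refine Finset.sum_congr rfl fun r hr => ?_
      rw [Finset.mem_compl] at hr
      simp only [Set.indicator_apply, mem_ofPred_eq, hr, not_false_eq_true, true_and, ← hT]
    · intro r _ hr
      rw [Finset.mem_compl, not_not] at hr
      simp [hr]
  rw [h5]
  nlinarith

/-- Removing vertices changes the transform by a controlled amount. -/
lemma Phi_le_add (hh : 0 ≤ h) {ub : ℝ} (hub : ∀ a, 1 - ub ≤ Phi p h Finset.univ {a})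
    (U : Finset V) (a : V) :
    Phi p h U {a} ≤ Phi p h Finset.univ {a} + ub * ∑ r ∈ Uᶜ, tau p a r := by
  classical
  have hub0 : 0 ≤ ub := by
    have := (hub a).trans (Phi_le_one hh _ _)
    linarith
  by_cases ha : a ∈ U
  · have h1 := integral_le p (ex_Cl_le (h := h) hh U a ha)
    rw [integral_add', integral_sum'] at h1
    refine h1.trans (add_le_add le_rfl ?_)
    rw [Finset.mul_sum]
    refine Finset.sum_le_sum fun r hr => ?_
    rw [Finset.mem_compl] at hr
    have h2 : ∫ b, {b : Sym2 V → Bool | ∃ t ∈ Cl U {a} b, b s(t, r) = true}.indicator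
        (fun b => 1 - ex h (Cl (Cl U {a} b)ᶜ {r} b).card) b ∂(law p) =
        ∫ b, (fun S b => {b : Sym2 V → Bool | ∃ t ∈ S, b s(t, r) = true}.indicator
        (fun b => 1 - ex h (Cl Sᶜ {r} b).card) b) (Cl U {a} b) b ∂(law p) := by
      refine integral_congr_ae (Filter.Eventually.of_forall fun b => ?_)
      simp only [Set.indicator_apply, mem_ofPred_eq]
    refine (h2.trans (integral_decomp p (fun b => Cl U {a} b)
      (fun S b => {b : Sym2 V → Bool | ∃ t ∈ S, b s(t, r) = true}.indicator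
        (fun b => 1 - ex h (Cl Sᶜ {r} b).card) b))).le.trans ?_
    have h3 : ∀ S : Finset V, ∫ b, {b | Cl U {a} b = S}.indicator
        (fun b => {b : Sym2 V → Bool | ∃ t ∈ S, b s(t, r) = true}.indicator
        (fun b => 1 - ex h (Cl Sᶜ {r} b).card) b) b ∂(law p) ≤
        (law p).real ({b | Cl U {a} b = S} ∩ {b | r ∈ Cl Finset.univ {a} b}) * ub := by
      intro S
      have h4 : ({b | Cl U {a} b = S}.indicator
        (fun b => {b : Sym2 V → Bool | ∃ t ∈ S, b s(t, r) = true}.indicator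
        (fun b => 1 - ex h (Cl Sᶜ {r} b).card) b)) =
        ({b | Cl U {a} b = S} ∩ {b : Sym2 V → Bool | ∃ t ∈ S, b s(t, r) = true}).indicator
        (fun b => 1 - ex h (Cl Sᶜ {r} b).card) := by
        rw [← Set.indicator_indicator]
      rw [h4, integral_indep p (S := touchE S) (T := inE Sᶜ)]
      · have h5 : ∫ b, (1 - ex h (Cl Sᶜ {r} b).card) ∂(law p) ≤ ub := by
          rw [integral_sub']
          simp only [integral_const, probReal_univ, smul_eq_mul, one_mul]
          have := (hub r).trans (Phi_anti hh (Finset.subset_univ Sᶜ) (Finset.Subset.refl {r}))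
          unfold Phi at this
          linarith
        have h6 : 0 ≤ ∫ b, (1 - ex h (Cl Sᶜ {r} b).card) ∂(law p) :=
          integral_nonneg fun b => sub_nonneg.2 (ex_le_one hh _)
        refine mul_le_mul (measureReal_mono ?_ (measure_ne_top _ _)) h5 h6 measureReal_nonneg
        rintro b ⟨hb1, t, ht, hb2⟩
        refine ⟨hb1, ?_⟩
        simp only [mem_ofPred_eq] at hb1 ⊢
        rw [← hb1] at ht
        refine Cl_step (Cl_mono (Finset.subset_univ U) (Finset.Subset.refl _) ht) ⟨?_, hb2⟩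
          (Finset.mem_univ _)
        rintro rfl
        exact hr (Cl_subset _ _ _ ht)
      · refine ((depOn_Cl_eq U {a} S).mono inter_subset_right).inter ?_
        rintro b b' hb ⟨t, ht, hb2⟩
        exact ⟨t, ht, by rw [← hb _ (mem_touchE.2 (Or.inl ht))]; exact hb2⟩
      · intro b b' hb
        simp only
        rw [Cl_congr' {r} hb]
      · rw [Set.disjoint_left]
        rintro e ⟨v, hv, hvS⟩ h
        exact (Finset.mem_compl.1 (h v hv)) hvS
    refine (Finset.sum_le_sum fun S _ => h3 S).trans (le_of_eq ?_)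
    rw [← Finset.sum_mul, sum_fiber_inter p (fun b => Cl U {a} b)]
    unfold tau
    ring
  · have h1 : Phi p h U {a} ≤ 1 := Phi_le_one hh _ _
    have h2 : 1 ≤ ∑ r ∈ Uᶜ, tau p a r := by
      rw [← tau_self (p := p) a]
      exact Finset.single_le_sum (f := fun r => tau p a r) (fun r _ => tau_nonneg a r)
        (Finset.mem_compl.2 ha)
    have h3 := hub a
    nlinarith

/-- `∑ r, τ(a,r) τ(c,r)`. -/
noncomputable def tau2 (p : Sym2 V → ℝ) (a c : V) : ℝ := ∑ r, tau p a r * tau p c r

lemma tau2_nonneg (a c : V) : 0 ≤ tau2 p a c :=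
  Finset.sum_nonneg fun r _ => mul_nonneg (tau_nonneg _ _) (tau_nonneg _ _)

lemma prob_mem_Cl_le (U B : Finset V) (r : V) :
    (law p).real {b | r ∈ Cl U B b} ≤ ∑ c ∈ B, tau p c r := by
  have h1 : {b : Sym2 V → Bool | r ∈ Cl U B b} ⊆ ⋃ c ∈ B, {b | r ∈ Cl Finset.univ {c} b} := by
    intro b hb
    obtain ⟨c, hc, hrc⟩ := Finset.mem_biUnion.1 (Cl_subset_biUnion U B b hb)
    exact Set.mem_iUnion₂.2 ⟨c, hc, Cl_mono (Finset.subset_univ _) (Finset.Subset.refl _) hrc⟩
  exact (measureReal_mono h1 (measure_ne_top _ _)).trans (measureReal_biUnion_finset_le _ _)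

/-- One more vertex in the upper bound. -/
lemma Phi_insert_le (hh : 0 ≤ h) {lb ub : ℝ} (hub : ∀ a, 1 - ub ≤ Phi p h Finset.univ {a})
    (hlb : ∀ a, Phi p h Finset.univ {a} ≤ 1 - lb) (U B : Finset V) (a : V) :
    Phi p h U (B ∪ {a}) ≤ (1 - lb) * Phi p h U B +
      ub * (∑ r ∈ Uᶜ, tau p a r + ∑ c ∈ B, tau2 p c a) := by
  have hub0 : 0 ≤ ub := by
    have := (hub a).trans (Phi_le_one hh _ _)
    linarith
  rw [Phi_union]
  have h1 : ∀ S : Finset V, (law p).real {b | Cl U B b = S} *
      (ex h S.card * Phi p h (U \ S) {a}) ≤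
      (law p).real {b | Cl U B b = S} * ex h S.card * (1 - lb) +
      ub * ((law p).real {b | Cl U B b = S} * ∑ r ∈ Uᶜ, tau p a r +
        ∑ r, tau p a r * (law p).real ({b | Cl U B b = S} ∩ {b | r ∈ Cl U B b})) := by
    intro S
    set P := (law p).real {b | Cl U B b = S} with hP
    have hP0 : 0 ≤ P := measureReal_nonneg
    have h2 := Phi_le_add hh hub (U \ S) a
    have h3 : ∑ r ∈ (U \ S)ᶜ, tau p a r ≤ ∑ r ∈ Uᶜ, tau p a r + ∑ r ∈ S, tau p a r := by
      have h4 : (U \ S)ᶜ ⊆ Uᶜ ∪ S := by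
        intro r hr
        rw [Finset.mem_compl, Finset.mem_sdiff, not_and, not_not] at hr
        by_cases hrU : r ∈ U
        · exact Finset.mem_union_right _ (hr hrU)
        · exact Finset.mem_union_left _ (Finset.mem_compl.2 hrU)
      refine (Finset.sum_le_sum_of_subset_of_nonneg h4 fun r _ _ => tau_nonneg a r).trans ?_
      rw [← Finset.sum_union_inter]
      have : 0 ≤ ∑ r ∈ Uᶜ ∩ S, tau p a r := Finset.sum_nonneg fun r _ => tau_nonneg a r
      linarith
    have h5 : ∑ r, tau p a r * (law p).real ({b | Cl U B b = S} ∩ {b | r ∈ Cl U B b}) =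
        P * ∑ r ∈ S, tau p a r := by
      rw [Finset.mul_sum, ← Finset.sum_subset (Finset.subset_univ S)]
      · refine Finset.sum_congr rfl fun r hr => ?_
        have : ({b | Cl U B b = S} ∩ {b | r ∈ Cl U B b}) = {b | Cl U B b = S} := by
          ext b
          simp only [mem_inter_iff, mem_ofPred_eq, and_iff_left_iff_imp]
          intro hb; rw [hb]; exact hr
        rw [this, mul_comm]
      · intro r _ hr
        have : ({b | Cl U B b = S} ∩ {b | r ∈ Cl U B b}) = ∅ := by
          ext b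
          simp only [mem_inter_iff, mem_ofPred_eq, mem_empty_iff_false, iff_false, not_and]
          intro hb; rw [hb]; exact hr
        rw [this, measureReal_empty, mul_zero]
    have h6 : Phi p h (U \ S) {a} ≤ (1 - lb) + ub * (∑ r ∈ Uᶜ, tau p a r + ∑ r ∈ S, tau p a r) := by
      have := mul_le_mul_of_nonneg_left h3 hub0
      have := hlb a
      linarith
    have h7 : ex h S.card * Phi p h (U \ S) {a} ≤ ex h S.card * (1 - lb) +
        ub * (∑ r ∈ Uᶜ, tau p a r + ∑ r ∈ S, tau p a r) := by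
      have h8 := mul_le_mul_of_nonneg_left h6 (ex_pos h S.card).le
      have h9 : 0 ≤ ub * (∑ r ∈ Uᶜ, tau p a r + ∑ r ∈ S, tau p a r) :=
        mul_nonneg hub0 (add_nonneg (Finset.sum_nonneg fun r _ => tau_nonneg a r)
          (Finset.sum_nonneg fun r _ => tau_nonneg a r))
      have h10 := ex_le_one hh S.card
      nlinarith
    rw [h5]
    calc P * (ex h S.card * Phi p h (U \ S) {a}) ≤ P * (ex h S.card * (1 - lb) +
        ub * (∑ r ∈ Uᶜ, tau p a r + ∑ r ∈ S, tau p a r)) := mul_le_mul_of_nonneg_left h7 hP0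
      _ = _ := by ring
  refine (Finset.sum_le_sum fun S _ => h1 S).trans ?_
  rw [Finset.sum_add_distrib, ← Finset.sum_mul, ← Phi_eq_sum, ← Finset.mul_sum,
    Finset.sum_add_distrib, ← Finset.sum_mul, sum_fiber p (fun b => Cl U B b), one_mul,
    Finset.sum_comm]
  have h2 : ∑ r, ∑ S, tau p a r * (law p).real ({b | Cl U B b = S} ∩ {b | r ∈ Cl U B b}) ≤
      ∑ c ∈ B, tau2 p c a := by
    have h2' : ∑ c ∈ B, tau2 p c a = ∑ r, (∑ c ∈ B, tau p c r) * tau p a r := by
      unfold tau2
      rw [Finset.sum_comm]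
      exact Finset.sum_congr rfl fun r _ => by rw [Finset.sum_mul]
    rw [h2']
    refine Finset.sum_le_sum fun r _ => ?_
    rw [← Finset.mul_sum, sum_fiber_inter p (fun b => Cl U B b), mul_comm]
    exact mul_le_mul_of_nonneg_right (prob_mem_Cl_le U B r) (tau_nonneg a r)
  have h3 : ub * (∑ r ∈ Uᶜ, tau p a r + ∑ r, ∑ S, tau p a r *
      (law p).real ({b | Cl U B b = S} ∩ {b | r ∈ Cl U B b})) ≤
      ub * (∑ r ∈ Uᶜ, tau p a r + ∑ c ∈ B, tau2 p c a) :=
    mul_le_mul_of_nonneg_left (by linarith) hub0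
  linarith

/-- Upper bound for the transform of a union of clusters. -/
lemma Phi_le_pow (hh : 0 ≤ h) {lb ub : ℝ} (hub : ∀ a, 1 - ub ≤ Phi p h Finset.univ {a})
    (hlb : ∀ a, Phi p h Finset.univ {a} ≤ 1 - lb) (hlb0 : 0 ≤ lb) (hlb1 : lb ≤ 1)
    (hub0 : 0 ≤ ub) (U B : Finset V) :
    Phi p h U B ≤ (1 - lb) ^ B.card +
      ub * (∑ a ∈ B, ∑ r ∈ Uᶜ, tau p a r +
        ∑ a ∈ B, ∑ c ∈ B, if c ≠ a then tau2 p c a else 0) := by
  induction B using Finset.induction_on with
  | empty => simp [Phi_empty]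
  | insert a B ha ih =>
    have h1 : insert a B = B ∪ {a} := by ext x; simp
    have h2 := Phi_insert_le hh hub hlb U B a
    rw [← h1] at h2
    set W1 := ∑ a ∈ B, ∑ r ∈ Uᶜ, tau p a r with hW1
    set W2 := ∑ a ∈ B, ∑ c ∈ B, if c ≠ a then tau2 p c a else 0 with hW2
    have hW1' : 0 ≤ W1 := Finset.sum_nonneg fun a _ => Finset.sum_nonneg fun r _ => tau_nonneg a r
    have hW2' : 0 ≤ W2 := Finset.sum_nonneg fun a _ => Finset.sum_nonneg fun r _ => by
      split_ifs
      · exact tau2_nonneg _ _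
      · exact le_rfl
    have h3 : W2 + ∑ c ∈ B, tau2 p c a ≤
        ∑ a' ∈ insert a B, ∑ c ∈ insert a B, if c ≠ a' then tau2 p c a' else 0 := by
      rw [Finset.sum_insert ha]
      have h4 : ∑ c ∈ B, tau2 p c a ≤ ∑ c ∈ insert a B, if c ≠ a then tau2 p c a else 0 := by
        rw [Finset.sum_insert ha]
        simp only [ne_eq, not_true_eq_false, if_false, zero_add]
        refine Finset.sum_le_sum fun c hc => ?_
        rw [if_pos]
        rintro rfl
        exact ha hc
      have h5 : W2 ≤ ∑ a' ∈ B, ∑ c ∈ insert a B, if c ≠ a' then tau2 p c a' else 0 := by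
        refine Finset.sum_le_sum fun a' _ => ?_
        refine Finset.sum_le_sum_of_subset_of_nonneg (Finset.subset_insert _ _) fun c _ _ => ?_
        split_ifs
        · exact tau2_nonneg _ _
        · exact le_rfl
      linarith
    rw [Finset.card_insert_of_notMem ha, pow_succ, Finset.sum_insert ha]
    have h4 : (1 - lb) * Phi p h U B ≤ (1 - lb) * ((1 - lb) ^ B.card + ub * (W1 + W2)) :=
      mul_le_mul_of_nonneg_left ih (by linarith)
    have h5 : (1 - lb) * (ub * (W1 + W2)) ≤ ub * (W1 + W2) :=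
      mul_le_of_le_one_left (mul_nonneg hub0 (by linarith)) (by linarith)
    have h6 : ub * (W2 + ∑ c ∈ B, tau2 p c a) ≤
        ub * ∑ a' ∈ insert a B, ∑ c ∈ insert a B, (if c ≠ a' then tau2 p c a' else 0) :=
      mul_le_mul_of_nonneg_left h3 hub0
    have h7 : (1 - lb) * ((1 - lb) ^ B.card + ub * (W1 + W2)) =
        (1 - lb) ^ B.card * (1 - lb) + (1 - lb) * (ub * (W1 + W2)) := by ring
    nlinarith

/-- The error term in the second recursion inequality. -/
noncomputable def err (p : Sym2 V → ℝ) (x : V) : ℝ :=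
  ∑ a, p s(x, a) * tau p a x +
    ∑ a, ∑ c, if c ≠ a then p s(x, a) * p s(x, c) * tau2 p c a else 0

lemma prob_nbr_le (hp0 : ∀ e, 0 ≤ p e) (hp1 : ∀ e, p e ≤ 1) (x a : V) :
    (law p).real {b | a ∈ nbr x b} ≤ p s(x, a) := by
  rw [← law_open (hp0 s(x, a)) (hp1 _)]
  exact measureReal_mono (fun b hb => (mem_nbr.1 hb).2) (measure_ne_top _ _)

lemma prob_nbr2_le (hp0 : ∀ e, 0 ≤ p e) (hp1 : ∀ e, p e ≤ 1) (x a c : V) (hac : c ≠ a) :
    (law p).real ({b | a ∈ nbr x b} ∩ {b | c ∈ nbr x b}) ≤ p s(x, a) * p s(x, c) := by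
  have h1 : (law p).real ({b | b s(x, a) = true} ∩ {b | b s(x, c) = true}) =
      p s(x, a) * p s(x, c) := by
    rw [law_inter p MeasurableSet.of_discrete MeasurableSet.of_discrete
      (depOn_open _ _) (depOn_open _ _) ?_, law_open (hp0 _) (hp1 _), law_open (hp0 _) (hp1 _)]
    rw [Set.disjoint_singleton, Ne, Sym2.congr_right]
    exact fun h => hac h.symm
  rw [← h1]
  exact measureReal_mono (fun b hb => ⟨(mem_nbr.1 hb.1).2, (mem_nbr.1 hb.2).2⟩)
    (measure_ne_top _ _)

/-- Second recursion inequality (lower bound for `u`). -/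
lemma rec_upper (hp0 : ∀ e, 0 ≤ p e) (hp1 : ∀ e, p e ≤ 1) (hpd : ∀ x, p s(x, x) = 0)
    (hh : 0 ≤ h) {lb ub : ℝ} (hub : ∀ a, 1 - ub ≤ Phi p h Finset.univ {a})
    (hlb : ∀ a, Phi p h Finset.univ {a} ≤ 1 - lb) (hlb0 : 0 ≤ lb) (hlb1 : lb ≤ 1) (hub0 : 0 ≤ ub)
    (x : V) :
    Phi p h Finset.univ {x} ≤ Real.exp (-h) * ∏ y, (1 - p s(x, y) * lb) + ub * err p x := by
  have h1 := sum_nbr_pow hp0 hp1 hpd x (1 - lb)
  simp only [sub_sub_cancel] at h1
  rw [Phi_singleton, ← h1]
  have h2 : ex h 1 = Real.exp (-h) := by simp [ex]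
  rw [h2]
  have hcompl : (Finset.univ.erase x)ᶜ = {x} := by
    ext r; simp
  have h3 : ∀ A : Finset V, (law p).real {b | nbr x b = A} * Phi p h (Finset.univ.erase x) A ≤
      (law p).real {b | nbr x b = A} * (1 - lb) ^ A.card +
      ub * (∑ a, (law p).real ({b | nbr x b = A} ∩ {b | a ∈ nbr x b}) * tau p a x +
        ∑ a, ∑ c, if c ≠ a then (law p).real ({b | nbr x b = A} ∩
          ({b | a ∈ nbr x b} ∩ {b | c ∈ nbr x b})) * tau2 p c a else 0) := by
    intro A
    set P := (law p).real {b | nbr x b = A} with hP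
    have hP0 : 0 ≤ P := measureReal_nonneg
    have h4 := Phi_le_pow (p := p) hh hub hlb hlb0 hlb1 hub0 (Finset.univ.erase x) A
    simp only [hcompl, Finset.sum_singleton] at h4
    have h5 : ∑ a, (law p).real ({b | nbr x b = A} ∩ {b | a ∈ nbr x b}) * tau p a x =
        P * ∑ a ∈ A, tau p a x := by
      rw [Finset.mul_sum, ← Finset.sum_subset (Finset.subset_univ A)]
      · refine Finset.sum_congr rfl fun a ha => ?_
        have : ({b | nbr x b = A} ∩ {b | a ∈ nbr x b}) = {b : Sym2 V → Bool | nbr x b = A} := by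
          ext b
          simp only [mem_inter_iff, mem_ofPred_eq, and_iff_left_iff_imp]
          intro hb; rw [hb]; exact ha
        rw [this]
      · intro a _ ha
        have : ({b | nbr x b = A} ∩ {b | a ∈ nbr x b}) = (∅ : Set (Sym2 V → Bool)) := by
          ext b
          simp only [mem_inter_iff, mem_ofPred_eq, mem_empty_iff_false, iff_false, not_and]
          intro hb; rw [hb]; exact ha
        rw [this, measureReal_empty, zero_mul]
    have h6 : ∑ a, ∑ c, (if c ≠ a then (law p).real ({b | nbr x b = A} ∩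
          ({b | a ∈ nbr x b} ∩ {b | c ∈ nbr x b})) * tau2 p c a else 0) =
        P * ∑ a ∈ A, ∑ c ∈ A, if c ≠ a then tau2 p c a else 0 := by
      rw [Finset.mul_sum, ← Finset.sum_subset (Finset.subset_univ A)]
      · refine Finset.sum_congr rfl fun a ha => ?_
        rw [Finset.mul_sum, ← Finset.sum_subset (Finset.subset_univ A)]
        · refine Finset.sum_congr rfl fun c hc => ?_
          have : ({b | nbr x b = A} ∩ ({b | a ∈ nbr x b} ∩ {b | c ∈ nbr x b})) =
              {b : Sym2 V → Bool | nbr x b = A} := by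
            ext b
            simp only [mem_inter_iff, mem_ofPred_eq, and_iff_left_iff_imp]
            intro hb; rw [hb]; exact ⟨ha, hc⟩
          rw [this]
          split_ifs
          · rfl
          · simp
        · intro c _ hc
          have : ({b | nbr x b = A} ∩ ({b | a ∈ nbr x b} ∩ {b | c ∈ nbr x b})) =
              (∅ : Set (Sym2 V → Bool)) := by
            ext b
            simp only [mem_inter_iff, mem_ofPred_eq, mem_empty_iff_false, iff_false, not_and]
            intro hb _; rw [hb]; exact hc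
          rw [this, measureReal_empty]
          split_ifs <;> simp
      · intro a _ ha
        refine Finset.sum_eq_zero fun c _ => ?_
        have : ({b | nbr x b = A} ∩ ({b | a ∈ nbr x b} ∩ {b | c ∈ nbr x b})) =
            (∅ : Set (Sym2 V → Bool)) := by
          ext b
          simp only [mem_inter_iff, mem_ofPred_eq, mem_empty_iff_false, iff_false, not_and]
          intro hb h'; rw [hb] at h'; exact absurd h' ha
        rw [this, measureReal_empty]
        split_ifs <;> simp
    rw [h5, h6]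
    calc P * Phi p h (Finset.univ.erase x) A ≤ P * ((1 - lb) ^ A.card +
        ub * (∑ a ∈ A, tau p a x + ∑ a ∈ A, ∑ c ∈ A, if c ≠ a then tau2 p c a else 0)) :=
          mul_le_mul_of_nonneg_left h4 hP0
      _ = _ := by ring
  have h4 := Finset.sum_le_sum fun A (_ : A ∈ (Finset.univ : Finset (Finset V))) => h3 A
  rw [Finset.sum_add_distrib, ← Finset.mul_sum, Finset.sum_add_distrib] at h4
  have h5 : ∑ A, ∑ a, (law p).real ({b | nbr x b = A} ∩ {b | a ∈ nbr x b}) * tau p a x ≤
      ∑ a, p s(x, a) * tau p a x := by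
    rw [Finset.sum_comm]
    refine Finset.sum_le_sum fun a _ => ?_
    rw [← Finset.sum_mul, sum_fiber_inter p (nbr x)]
    exact mul_le_mul_of_nonneg_right (prob_nbr_le hp0 hp1 x a) (tau_nonneg _ _)
  have h6 : ∑ A, ∑ a, ∑ c, (if c ≠ a then (law p).real ({b | nbr x b = A} ∩
          ({b | a ∈ nbr x b} ∩ {b | c ∈ nbr x b})) * tau2 p c a else 0) ≤
      ∑ a, ∑ c, if c ≠ a then p s(x, a) * p s(x, c) * tau2 p c a else 0 := by
    rw [Finset.sum_comm]
    refine Finset.sum_le_sum fun a _ => ?_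
    rw [Finset.sum_comm]
    refine Finset.sum_le_sum fun c _ => ?_
    split_ifs with hca
    · rw [← Finset.sum_mul, sum_fiber_inter p (nbr x)]
      exact mul_le_mul_of_nonneg_right (prob_nbr2_le hp0 hp1 x a c hca) (tau2_nonneg _ _)
    · simp
  have h7 : ub * (∑ A, ∑ a, (law p).real ({b | nbr x b = A} ∩ {b | a ∈ nbr x b}) * tau p a x +
      ∑ A, ∑ a, ∑ c, (if c ≠ a then (law p).real ({b | nbr x b = A} ∩
          ({b | a ∈ nbr x b} ∩ {b | c ∈ nbr x b})) * tau2 p c a else 0)) ≤ ub * err p x :=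
    mul_le_mul_of_nonneg_left (add_le_add h5 h6) hub0
  have h8 : Real.exp (-h) ≤ 1 := Real.exp_le_one_iff.2 (by linarith)
  have h9 : 0 ≤ ub * err p x := by
    refine mul_nonneg hub0 (add_nonneg (Finset.sum_nonneg fun a _ => mul_nonneg (hp0 _)
      (tau_nonneg _ _)) (Finset.sum_nonneg fun a _ => Finset.sum_nonneg fun c _ => ?_))
    split_ifs
    · exact mul_nonneg (mul_nonneg (hp0 _) (hp0 _)) (tau2_nonneg _ _)
    · exact le_rfl
  have h10 := h4.trans (add_le_add le_rfl h7)
  calc Real.exp (-h) * ∑ A, (law p).real {b | nbr x b = A} * Phi p h (Finset.univ.erase x) A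
      ≤ Real.exp (-h) * (∑ A, (law p).real {b | nbr x b = A} * (1 - lb) ^ A.card +
          ub * err p x) := mul_le_mul_of_nonneg_left h10 (Real.exp_pos _).le
    _ ≤ _ := by
        rw [mul_add]
        have := mul_le_of_le_one_left h9 h8
        linarith

end Pool.Agent.Lib.Pc53cb9
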