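import Mathlib
import Pool.Agent.Lib.H98.ProdIndep
import Pool.Agent.Lib.Pc53cb9.Perc
import Pool.Agent.Lib.Pc53cb9.Law
import Pool.Agent.Lib.Pc53cb9.Explore

/-!
Bounds on connection probabilities through powers of the kernel.
-/

set_option linter.unusedSectionVars false

open MeasureTheory Set Filter
open scoped unitInterval Topology

namespace Pool.Agent.Lib.Pc53cb9

open Pool.Agent.Lib.H98

variable {V : Type*} [Fintype V] [DecidableEq V]
variable {p : Sym2 V → ℝ} {h : ℝ}

/-- One step inequality for the connection probabilities. -/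
lemma tau_step (hp0 : ∀ e, 0 ≤ p e) (hp1 : ∀ e, p e ≤ 1) (a r : V) :
    tau p a r ≤ (1 : Matrix V V ℝ) a r + ∑ y, p s(a, y) * tau p y r := by
  by_cases har : a = r
  · subst har
    rw [Matrix.one_apply_eq]
    have : 0 ≤ ∑ y, p s(a, y) * tau p y a :=
      Finset.sum_nonneg fun y _ => mul_nonneg (hp0 _) (tau_nonneg _ _)
    have := tau_le_one (p := p) a a
    linarith
  · rw [Matrix.one_apply_ne har, zero_add]
    have h1 : {b : Sym2 V → Bool | r ∈ Cl Finset.univ {a} b} ⊆ ⋃ y ∈ (Finset.univ : Finset V),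
        ({b | b s(a, y) = true} ∩ {b | r ∈ Cl (Finset.univ.erase a) {y} b}) := by
      intro b hb
      simp only [mem_ofPred_eq] at hb
      rw [Cl_singleton (Finset.mem_univ a)] at hb
      rcases Finset.mem_insert.1 hb with h | h
      · exact absurd h.symm har
      · obtain ⟨y, hy, hry⟩ := Finset.mem_biUnion.1 (Cl_subset_biUnion _ _ b h)
        exact Set.mem_iUnion₂.2 ⟨y, Finset.mem_univ _, (mem_nbr.1 hy).2, hry⟩
    refine (measureReal_mono h1 (measure_ne_top _ _)).trans
      ((measureReal_biUnion_finset_le _ _).trans (Finset.sum_le_sum fun y _ => ?_))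
    rw [law_inter p MeasurableSet.of_discrete MeasurableSet.of_discrete
      (S := touchE {a}) (T := inE (Finset.univ.erase a)) ?_ ?_ (disjoint_erase a),
      law_open (hp0 _) (hp1 _)]
    · refine mul_le_mul_of_nonneg_left (measureReal_mono ?_ (measure_ne_top _ _)) (hp0 _)
      intro b hb
      exact Cl_mono (Finset.subset_univ _) (Finset.Subset.refl _) hb
    · refine (depOn_open s(a, y) true).mono ?_
      rintro e rfl
      exact mem_touchE.2 (Or.inl (Finset.mem_singleton_self a))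
    · exact depOn_Cl _ _ fun S => r ∈ S

/-- The kernel as a matrix. -/
def kmat (p : Sym2 V → ℝ) : Matrix V V ℝ := fun x y => p s(x, y)

lemma kmat_pow_nonneg (hp0 : ∀ e, 0 ≤ p e) (j : ℕ) (x y : V) : 0 ≤ (kmat p ^ j) x y := by
  induction j generalizing x y with
  | zero => rw [pow_zero, Matrix.one_apply]; split_ifs <;> norm_num
  | succ j ih =>
    rw [pow_succ, Matrix.mul_apply]
    exact Finset.sum_nonneg fun z _ => mul_nonneg (ih _ _) (hp0 _)

lemma kmat_transpose (p : Sym2 V → ℝ) : (kmat p).transpose = kmat p := by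
  ext x y
  simp only [Matrix.transpose_apply, kmat]
  rw [Sym2.eq_swap]

lemma kmat_pow_symm (p : Sym2 V → ℝ) (j : ℕ) (x y : V) : (kmat p ^ j) x y = (kmat p ^ j) y x := by
  have h1 : (kmat p ^ j).transpose = kmat p ^ j := by
    rw [Matrix.transpose_pow, kmat_transpose]
  conv_lhs => rw [← h1]
  rfl

lemma kmat_pow_rowsum {mu : ℝ} (hmu : ∀ x, ∑ y, p s(x, y) = mu) (j : ℕ) (x : V) :
    ∑ y, (kmat p ^ j) x y = mu ^ j := by
  induction j generalizing x with
  | zero => simp [Matrix.one_apply]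
  | succ j ih =>
    have h1 : ∀ y, (kmat p ^ (j + 1)) x y = ∑ z, p s(x, z) * (kmat p ^ j) z y := by
      intro y
      rw [pow_succ', Matrix.mul_apply]
      rfl
    simp_rw [h1]
    rw [Finset.sum_comm]
    simp_rw [← Finset.mul_sum, ih]
    rw [← Finset.sum_mul, hmu, pow_succ]
    ring

/-- Truncated Green function bound. -/
lemma tau_le (hp0 : ∀ e, 0 ≤ p e) (hp1 : ∀ e, p e ≤ 1) {mu : ℝ}
    (hmu : ∀ x, ∑ y, p s(x, y) = mu) (m : ℕ) (a r : V) :
    tau p a r ≤ ∑ j ∈ Finset.range m, (kmat p ^ j) a r + mu ^ m := by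
  induction m generalizing a r with
  | zero => simpa using tau_le_one a r
  | succ m ih =>
    refine (tau_step hp0 hp1 a r).trans ?_
    have h1 : ∑ y, p s(a, y) * tau p y r ≤
        ∑ y, p s(a, y) * (∑ j ∈ Finset.range m, (kmat p ^ j) y r + mu ^ m) :=
      Finset.sum_le_sum fun y _ => mul_le_mul_of_nonneg_left (ih y r) (hp0 _)
    have h2 : ∑ y, p s(a, y) * (∑ j ∈ Finset.range m, (kmat p ^ j) y r + mu ^ m) =
        ∑ j ∈ Finset.range m, (kmat p ^ (j + 1)) a r + mu ^ (m + 1) := by
      simp_rw [mul_add, Finset.mul_sum]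
      rw [Finset.sum_add_distrib, Finset.sum_comm, ← Finset.sum_mul, hmu, pow_succ' mu m]
      congr 1
      refine Finset.sum_congr rfl fun j _ => ?_
      rw [pow_succ', Matrix.mul_apply]
      rfl
    rw [Finset.sum_range_succ', pow_zero]
    linarith

/-- The mean cluster size. -/
lemma sum_tau_le (hp0 : ∀ e, 0 ≤ p e) (hp1 : ∀ e, p e ≤ 1) {mu : ℝ} (hmu0 : 0 ≤ mu) (hmu1 : mu < 1)
    (hmu : ∀ x, ∑ y, p s(x, y) = mu) (a : V) : ∑ r, tau p a r ≤ (1 - mu)⁻¹ := by
  have h1 : ∀ m : ℕ, ∑ r, tau p a r ≤ (1 - mu)⁻¹ + Fintype.card V * mu ^ m := by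
    intro m
    calc ∑ r, tau p a r ≤ ∑ r, (∑ j ∈ Finset.range m, (kmat p ^ j) a r + mu ^ m) :=
          Finset.sum_le_sum fun r _ => tau_le hp0 hp1 hmu m a r
      _ = ∑ j ∈ Finset.range m, mu ^ j + Fintype.card V * mu ^ m := by
          rw [Finset.sum_add_distrib, Finset.sum_comm]
          simp_rw [kmat_pow_rowsum hmu]
          simp
      _ ≤ _ := by
          gcongr
          rw [← tsum_geometric_of_lt_one hmu0 hmu1]
          exact (summable_geometric_of_lt_one hmu0 hmu1).sum_le_tsum _ fun j _ => by positivity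
  refine ge_of_tendsto' (x := atTop) (f := fun m : ℕ => (1 - mu)⁻¹ + Fintype.card V * mu ^ m) ?_ h1
  have h2 := (tendsto_pow_atTop_nhds_zero_of_lt_one hmu0 hmu1).const_mul (Fintype.card V : ℝ)
  simpa using h2.const_add (1 - mu)⁻¹

/-- Bound on the error term in terms of return quantities. -/
lemma err_le_aux (hp0 : ∀ e, 0 ≤ p e) (hp1 : ∀ e, p e ≤ 1) {mu : ℝ} (hmu0 : 0 ≤ mu) (hmu1 : mu < 1)
    (hmu : ∀ x, ∑ y, p s(x, y) = mu) (x : V) (m : ℕ) :
    err p x ≤ ∑ j ∈ Finset.range m, (kmat p ^ (j + 1)) x x +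
      ∑ i ∈ Finset.range m, ∑ j ∈ Finset.range m, (kmat p ^ (i + j + 2)) x x +
      (mu ^ m + 2 * (1 - mu)⁻¹ * mu ^ m + Fintype.card V * mu ^ m) := by
  have hgeo : ∑ j ∈ Finset.range m, mu ^ j ≤ (1 - mu)⁻¹ := by
    rw [← tsum_geometric_of_lt_one hmu0 hmu1]
    exact (summable_geometric_of_lt_one hmu0 hmu1).sum_le_tsum _ fun j _ => by positivity
  have hmm : 0 ≤ mu ^ m := by positivity
  have hmm1 : mu ^ m ≤ 1 := pow_le_one₀ hmu0 hmu1.le
  unfold err
  have h1 : ∑ a, p s(x, a) * tau p a x ≤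
      ∑ j ∈ Finset.range m, (kmat p ^ (j + 1)) x x + mu ^ m := by
    calc ∑ a, p s(x, a) * tau p a x ≤
          ∑ a, p s(x, a) * (∑ j ∈ Finset.range m, (kmat p ^ j) a x + mu ^ m) :=
          Finset.sum_le_sum fun a _ => mul_le_mul_of_nonneg_left (tau_le hp0 hp1 hmu m a x) (hp0 _)
      _ = ∑ j ∈ Finset.range m, (kmat p ^ (j + 1)) x x + mu * mu ^ m := by
          simp_rw [mul_add, Finset.mul_sum]
          rw [Finset.sum_add_distrib, Finset.sum_comm, ← Finset.sum_mul, hmu]
          congr 1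
          refine Finset.sum_congr rfl fun j _ => ?_
          rw [pow_succ', Matrix.mul_apply]
          rfl
      _ ≤ _ := by
          have : mu * mu ^ m ≤ 1 * mu ^ m := by gcongr
          linarith
  have h2 : ∀ a c, tau2 p c a ≤ ∑ i ∈ Finset.range m, ∑ j ∈ Finset.range m,
      (kmat p ^ (i + j)) c a + (2 * (1 - mu)⁻¹ * mu ^ m + Fintype.card V * mu ^ m) := by
    intro a c
    unfold tau2
    calc ∑ r, tau p c r * tau p a r ≤
          ∑ r, (∑ i ∈ Finset.range m, (kmat p ^ i) c r + mu ^ m) *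
            (∑ j ∈ Finset.range m, (kmat p ^ j) a r + mu ^ m) :=
          Finset.sum_le_sum fun r _ => mul_le_mul (tau_le hp0 hp1 hmu m c r)
            (tau_le hp0 hp1 hmu m a r) (tau_nonneg _ _) (add_nonneg
              (Finset.sum_nonneg fun i _ => kmat_pow_nonneg hp0 i c r) hmm)
      _ = ∑ r, (∑ i ∈ Finset.range m, ∑ j ∈ Finset.range m, (kmat p ^ i) c r * (kmat p ^ j) r a) +
            (∑ r, (∑ i ∈ Finset.range m, (kmat p ^ i) c r) * mu ^ m +
              ∑ r, (∑ j ∈ Finset.range m, (kmat p ^ j) a r) * mu ^ m +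
                ∑ _r : V, mu ^ m * mu ^ m) := by
          rw [← Finset.sum_add_distrib, ← Finset.sum_add_distrib, ← Finset.sum_add_distrib]
          refine Finset.sum_congr rfl fun r _ => ?_
          rw [add_mul, mul_add, mul_add, Finset.sum_mul_sum]
          simp_rw [kmat_pow_symm p _ a r]
          ring
      _ ≤ _ := by
          have h3 : ∑ r, (∑ i ∈ Finset.range m, ∑ j ∈ Finset.range m,
              (kmat p ^ i) c r * (kmat p ^ j) r a) =
              ∑ i ∈ Finset.range m, ∑ j ∈ Finset.range m, (kmat p ^ (i + j)) c a := by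
            rw [Finset.sum_comm]
            refine Finset.sum_congr rfl fun i _ => ?_
            rw [Finset.sum_comm]
            refine Finset.sum_congr rfl fun j _ => ?_
            rw [pow_add, Matrix.mul_apply]
          have h4 : ∀ d : V, ∑ r, (∑ i ∈ Finset.range m, (kmat p ^ i) d r) * mu ^ m ≤
              (1 - mu)⁻¹ * mu ^ m := by
            intro d
            rw [← Finset.sum_mul, Finset.sum_comm]
            simp_rw [kmat_pow_rowsum hmu]
            gcongr
          have h5 : ∑ _r : V, mu ^ m * mu ^ m ≤ Fintype.card V * mu ^ m := by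
            rw [Finset.sum_const, Finset.card_univ, nsmul_eq_mul]
            have : mu ^ m * mu ^ m ≤ 1 * mu ^ m := by gcongr
            gcongr
            linarith
          rw [h3]
          linarith [h4 c, h4 a]
  set E := 2 * (1 - mu)⁻¹ * mu ^ m + Fintype.card V * mu ^ m with hE
  have hE0 : 0 ≤ E := by
    have : 0 ≤ (1 - mu)⁻¹ := inv_nonneg.2 (by linarith)
    positivity
  have h3 : ∑ a, ∑ c, (if c ≠ a then p s(x, a) * p s(x, c) * tau2 p c a else 0) ≤
      ∑ i ∈ Finset.range m, ∑ j ∈ Finset.range m, (kmat p ^ (i + j + 2)) x x + E := by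
    calc ∑ a, ∑ c, (if c ≠ a then p s(x, a) * p s(x, c) * tau2 p c a else 0) ≤
          ∑ a, ∑ c, p s(x, a) * p s(x, c) * (∑ i ∈ Finset.range m, ∑ j ∈ Finset.range m,
            (kmat p ^ (i + j)) c a + E) := by
          refine Finset.sum_le_sum fun a _ => Finset.sum_le_sum fun c _ => ?_
          split_ifs
          · exact mul_le_mul_of_nonneg_left (h2 a c) (mul_nonneg (hp0 _) (hp0 _))
          · exact mul_nonneg (mul_nonneg (hp0 _) (hp0 _)) (add_nonneg
              (Finset.sum_nonneg fun i _ => Finset.sum_nonneg fun j _ =>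
                kmat_pow_nonneg hp0 _ _ _) hE0)
      _ = ∑ i ∈ Finset.range m, ∑ j ∈ Finset.range m, (kmat p ^ (i + j + 2)) x x +
            mu * mu * E := by
          simp_rw [mul_add, Finset.sum_add_distrib]
          congr 1
          · simp_rw [Finset.mul_sum]
            have h6 : ∀ i j, (kmat p ^ (i + j + 2)) x x =
                ∑ a, ∑ c, p s(x, a) * p s(x, c) * (kmat p ^ (i + j)) c a := by
              intro i j
              rw [pow_add, pow_two, ← mul_assoc, Matrix.mul_apply]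
              have h7 : (kmat p ^ (i + j)) * kmat p = kmat p * (kmat p ^ (i + j)) :=
                (Commute.pow_self (kmat p) (i + j)).eq
              rw [h7]
              refine Finset.sum_congr rfl fun a _ => ?_
              rw [Matrix.mul_apply, Finset.sum_mul]
              refine Finset.sum_congr rfl fun c _ => ?_
              have h8 : kmat p a x = p s(x, a) := by unfold kmat; rw [Sym2.eq_swap]
              rw [h8]
              unfold kmat
              ring
            simp_rw [h6]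
            calc ∑ a, ∑ c, ∑ i ∈ Finset.range m, ∑ j ∈ Finset.range m,
                p s(x, a) * p s(x, c) * (kmat p ^ (i + j)) c a
                = ∑ a, ∑ i ∈ Finset.range m, ∑ c, ∑ j ∈ Finset.range m,
                p s(x, a) * p s(x, c) * (kmat p ^ (i + j)) c a := by
                  refine Finset.sum_congr rfl fun a _ => Finset.sum_comm
              _ = ∑ i ∈ Finset.range m, ∑ a, ∑ c, ∑ j ∈ Finset.range m,
                p s(x, a) * p s(x, c) * (kmat p ^ (i + j)) c a := Finset.sum_comm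
              _ = ∑ i ∈ Finset.range m, ∑ a, ∑ j ∈ Finset.range m, ∑ c,
                p s(x, a) * p s(x, c) * (kmat p ^ (i + j)) c a := by
                  refine Finset.sum_congr rfl fun i _ => Finset.sum_congr rfl fun a _ =>
                    Finset.sum_comm
              _ = _ := by
                  refine Finset.sum_congr rfl fun i _ => Finset.sum_comm
          · have h6 : ∀ a : V, ∑ c, p s(x, a) * p s(x, c) * E = p s(x, a) * (mu * E) := by
              intro a
              rw [← Finset.sum_mul, ← Finset.mul_sum, hmu]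
              ring
            simp_rw [h6]
            rw [← Finset.sum_mul, hmu]
            ring
      _ ≤ _ := by
          have : mu * mu * E ≤ 1 * 1 * E := by gcongr
          linarith
  linarith

/-- Hypotheses on the kernel: `p = mu * q` with `q` stochastic, bounded below off the diagonal and
with small return probability. -/
structure GoodKernel (p : Sym2 V → ℝ) (mu c R : ℝ) : Prop where
  nonneg : ∀ e, 0 ≤ p e
  diag : ∀ x, p s(x, x) = 0
  mu_pos : 0 < mu
  mu_lt : mu < 1
  rowsum : ∀ x, ∑ y, p s(x, y) = mu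
  c_pos : 0 < c
  c_le : c ≤ 1 / 2
  lower : ∀ x y, x ≠ y → mu * c / (Fintype.card V - 1 : ℝ) ≤ p s(x, y)
  sq : ∀ x, ∑ y, p s(x, y) ^ 2 ≤ mu ^ 2 * R
  card : 2 ≤ Fintype.card V

lemma kmat_sq_le {mu c R : ℝ} (H : GoodKernel p mu c R) (x y : V) :
    (kmat p ^ 2) x y ≤ mu ^ 2 * R := by
  rw [pow_two, Matrix.mul_apply]
  have h1 : ∀ z, kmat p x z * kmat p z y ≤ (p s(x, z) ^ 2 + p s(y, z) ^ 2) / 2 := by
    intro z
    unfold kmat
    rw [Sym2.eq_swap (a := z) (b := y)]
    nlinarith [sq_nonneg (p s(x, z) - p s(y, z))]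
  calc ∑ z, kmat p x z * kmat p z y ≤ ∑ z, (p s(x, z) ^ 2 + p s(y, z) ^ 2) / 2 :=
        Finset.sum_le_sum fun z _ => h1 z
    _ = (∑ z, p s(x, z) ^ 2 + ∑ z, p s(y, z) ^ 2) / 2 := by
        rw [← Finset.sum_div, Finset.sum_add_distrib]
    _ ≤ mu ^ 2 * R := by linarith [H.sq x, H.sq y]

/-- Decay of the powers of the kernel. -/
lemma kmat_pow_le {mu c R : ℝ} (H : GoodKernel p mu c R) (hR : 0 ≤ R) (j : ℕ) (x y : V) :
    (kmat p ^ (j + 2)) x y ≤ mu ^ (j + 2) * ((1 - c) ^ j * R + 1 / (Fintype.card V - 1 : ℝ)) := by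
  have hN : (0 : ℝ) < Fintype.card V - 1 := by
    have : (2 : ℝ) ≤ Fintype.card V := by exact_mod_cast H.card
    linarith
  have hmu := H.mu_pos
  induction j generalizing x y with
  | zero =>
    have h1 := kmat_sq_le H x y
    have h2 : 0 ≤ mu ^ (0 + 2) * (1 / (Fintype.card V - 1 : ℝ)) := by positivity
    simp only [zero_add, pow_zero, one_mul] at h2 ⊢
    linarith
  | succ j ih =>
    set B := mu ^ (j + 2) * ((1 - c) ^ j * R + 1 / (Fintype.card V - 1 : ℝ)) with hB
    have hB0 : 0 ≤ B := by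
      have := H.c_le
      have : 0 ≤ 1 - c := by linarith
      positivity
    have h1 : (kmat p ^ (j + 1 + 2)) x y = ∑ z, p s(x, z) * (kmat p ^ (j + 2)) z y := by
      rw [show j + 1 + 2 = (j + 2) + 1 by ring, pow_succ', Matrix.mul_apply]
      rfl
    have h2 : ∀ z, p s(x, z) * (kmat p ^ (j + 2)) z y ≤
        (p s(x, z) - if x = z then 0 else mu * c / (Fintype.card V - 1 : ℝ)) * B +
        (mu * c / (Fintype.card V - 1 : ℝ)) * (kmat p ^ (j + 2)) z y := by
      intro z
      have h3 := ih z y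
      have h4 := kmat_pow_nonneg H.nonneg (j + 2) z y
      have h5 : 0 ≤ mu * c / (Fintype.card V - 1 : ℝ) := by
        have := H.c_pos
        positivity
      split_ifs with hxz
      · subst hxz
        rw [H.diag]
        have := mul_nonneg h5 h4
        linarith
      · have h6 := H.lower x z hxz
        nlinarith [mul_le_mul_of_nonneg_left h3 (sub_nonneg.2 h6)]
    have h3 : ∑ z, (p s(x, z) - if x = z then 0 else mu * c / (Fintype.card V - 1 : ℝ)) =
        mu * (1 - c) := by
      rw [Finset.sum_sub_distrib, H.rowsum]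
      have h4 : ∑ z, (if x = z then 0 else mu * c / (Fintype.card V - 1 : ℝ)) = mu * c := by
        have h5 : ∀ z, (if x = z then 0 else mu * c / (Fintype.card V - 1 : ℝ)) =
            mu * c / (Fintype.card V - 1 : ℝ) - if x = z then
              mu * c / (Fintype.card V - 1 : ℝ) else 0 := by
          intro z; split_ifs <;> simp
        simp_rw [h5]
        rw [Finset.sum_sub_distrib, Finset.sum_ite_eq]
        simp only [Finset.sum_const, Finset.card_univ, nsmul_eq_mul, Finset.mem_univ, if_true]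
        field_simp
      rw [h4]; ring
    have h4 : ∑ z, (kmat p ^ (j + 2)) z y = mu ^ (j + 2) := by
      rw [← kmat_pow_rowsum H.rowsum (j + 2) y]
      exact Finset.sum_congr rfl fun z _ => kmat_pow_symm p _ z y
    rw [h1]
    calc ∑ z, p s(x, z) * (kmat p ^ (j + 2)) z y ≤
          ∑ z, ((p s(x, z) - if x = z then 0 else mu * c / (Fintype.card V - 1 : ℝ)) * B +
          (mu * c / (Fintype.card V - 1 : ℝ)) * (kmat p ^ (j + 2)) z y) :=
          Finset.sum_le_sum fun z _ => h2 z
      _ = mu * (1 - c) * B + (mu * c / (Fintype.card V - 1 : ℝ)) * mu ^ (j + 2) := by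
          rw [Finset.sum_add_distrib, ← Finset.sum_mul, h3, ← Finset.mul_sum, h4]
      _ = mu ^ (j + 1 + 2) * ((1 - c) ^ (j + 1) * R + 1 / (Fintype.card V - 1 : ℝ)) := by
          rw [hB, pow_succ (1 - c) j, show j + 1 + 2 = (j + 2) + 1 by ring, pow_succ mu (j + 2)]
          field_simp
          ring

/-- Final bound on the error term. -/
lemma err_le {mu c R : ℝ} (H : GoodKernel p mu c R) (hp1 : ∀ e, p e ≤ 1) (hR : 0 ≤ R) (x : V) :
    err p x ≤ 2 * R / c ^ 2 + 2 * (1 - mu)⁻¹ ^ 2 / (Fintype.card V - 1 : ℝ) := by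
  have hN : (0 : ℝ) < Fintype.card V - 1 := by
    have : (2 : ℝ) ≤ Fintype.card V := by exact_mod_cast H.card
    linarith
  have hmu := H.mu_pos
  have hmu1 := H.mu_lt
  have hc := H.c_pos
  have hc1 := H.c_le
  have hgeo : ∀ m : ℕ, ∑ j ∈ Finset.range m, mu ^ j ≤ (1 - mu)⁻¹ := by
    intro m
    rw [← tsum_geometric_of_lt_one hmu.le hmu1]
    exact (summable_geometric_of_lt_one hmu.le hmu1).sum_le_tsum _ fun j _ => by positivity
  have hgeoc : ∀ m : ℕ, ∑ j ∈ Finset.range m, (1 - c) ^ j ≤ c⁻¹ := by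
    intro m
    have h1 : (0 : ℝ) ≤ 1 - c := by linarith
    have h2 : 1 - c < 1 := by linarith
    have h3 := tsum_geometric_of_lt_one h1 h2
    rw [sub_sub_cancel] at h3
    rw [← h3]
    exact (summable_geometric_of_lt_one h1 h2).sum_le_tsum _ fun j _ => by positivity
  have hell : 1 ≤ (1 - mu)⁻¹ := by
    rw [one_le_inv₀ (by linarith)]; linarith
  have hcinv : 1 ≤ c⁻¹ := by
    rw [one_le_inv₀ hc]; linarith
  have h1 : ∀ m : ℕ, ∑ j ∈ Finset.range m, (kmat p ^ (j + 1)) x x ≤
      R * c⁻¹ + (1 - mu)⁻¹ / (Fintype.card V - 1 : ℝ) := by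
    intro m
    rcases m with _ | m
    · simp only [Finset.range_zero, Finset.sum_empty]; positivity
    · rw [Finset.sum_range_succ']
      have h2 : (kmat p ^ (0 + 1)) x x = 0 := by
        simp [kmat, H.diag]
      rw [h2, add_zero]
      calc ∑ j ∈ Finset.range m, (kmat p ^ (j + 1 + 1)) x x ≤
            ∑ j ∈ Finset.range m, ((1 - c) ^ j * R + mu ^ j * (1 / (Fintype.card V - 1 : ℝ))) := by
            refine Finset.sum_le_sum fun j _ => (kmat_pow_le H hR j x x).trans ?_
            have h3 : mu ^ (j + 2) ≤ mu ^ j := pow_le_pow_of_le_one hmu.le hmu1.le (by omega)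
            have h4 : mu ^ (j + 2) ≤ 1 := pow_le_one₀ hmu.le hmu1.le
            have h5 : 0 ≤ (1 - c) ^ j * R := mul_nonneg (pow_nonneg (by linarith) _) hR
            have h6 : 0 ≤ 1 / (Fintype.card V - 1 : ℝ) := by positivity
            rw [mul_add]
            exact add_le_add (mul_le_of_le_one_left h5 h4) (mul_le_mul_of_nonneg_right h3 h6)
        _ = (∑ j ∈ Finset.range m, (1 - c) ^ j) * R +
            (∑ j ∈ Finset.range m, mu ^ j) * (1 / (Fintype.card V - 1 : ℝ)) := by
            rw [Finset.sum_add_distrib, Finset.sum_mul, Finset.sum_mul]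
        _ ≤ c⁻¹ * R + (1 - mu)⁻¹ * (1 / (Fintype.card V - 1 : ℝ)) :=
            add_le_add (mul_le_mul_of_nonneg_right (hgeoc m) hR)
              (mul_le_mul_of_nonneg_right (hgeo m) (by positivity))
        _ = _ := by ring
  have h2 : ∀ m : ℕ, ∑ i ∈ Finset.range m, ∑ j ∈ Finset.range m, (kmat p ^ (i + j + 2)) x x ≤
      R * (c⁻¹ * c⁻¹) + ((1 - mu)⁻¹ * (1 - mu)⁻¹) / (Fintype.card V - 1 : ℝ) := by
    intro m
    calc ∑ i ∈ Finset.range m, ∑ j ∈ Finset.range m, (kmat p ^ (i + j + 2)) x x ≤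
          ∑ i ∈ Finset.range m, ∑ j ∈ Finset.range m, ((1 - c) ^ i * (1 - c) ^ j * R +
            mu ^ i * mu ^ j * (1 / (Fintype.card V - 1 : ℝ))) := by
          refine Finset.sum_le_sum fun i _ => Finset.sum_le_sum fun j _ =>
            (kmat_pow_le H hR (i + j) x x).trans ?_
          have h3 : mu ^ (i + j + 2) ≤ mu ^ (i + j) :=
            pow_le_pow_of_le_one hmu.le hmu1.le (by omega)
          have h4 : mu ^ (i + j + 2) ≤ 1 := pow_le_one₀ hmu.le hmu1.le
          have h5 : 0 ≤ (1 - c) ^ (i + j) * R := mul_nonneg (pow_nonneg (by linarith) _) hR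
          have h6 : 0 ≤ 1 / (Fintype.card V - 1 : ℝ) := by positivity
          rw [mul_add, ← pow_add, ← pow_add]
          exact add_le_add (mul_le_of_le_one_left h5 h4) (mul_le_mul_of_nonneg_right h3 h6)
      _ = ((∑ i ∈ Finset.range m, (1 - c) ^ i) * (∑ j ∈ Finset.range m, (1 - c) ^ j)) * R +
          ((∑ i ∈ Finset.range m, mu ^ i) * (∑ j ∈ Finset.range m, mu ^ j)) *
            (1 / (Fintype.card V - 1 : ℝ)) := by
          simp_rw [Finset.sum_add_distrib, ← Finset.sum_mul]
          rw [Finset.sum_mul_sum, Finset.sum_mul_sum]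
      _ ≤ (c⁻¹ * c⁻¹) * R + ((1 - mu)⁻¹ * (1 - mu)⁻¹) * (1 / (Fintype.card V - 1 : ℝ)) := by
          refine add_le_add (mul_le_mul_of_nonneg_right (mul_le_mul (hgeoc m) (hgeoc m)
            (Finset.sum_nonneg fun j _ => pow_nonneg (by linarith) _) (by positivity)) hR)
            (mul_le_mul_of_nonneg_right (mul_le_mul (hgeo m) (hgeo m)
            (Finset.sum_nonneg fun j _ => by positivity) (by positivity)) (by positivity))
      _ = _ := by ring
  have h3 : ∀ m : ℕ, err p x ≤ (2 * R / c ^ 2 +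
      2 * (1 - mu)⁻¹ ^ 2 / (Fintype.card V - 1 : ℝ)) +
      (mu ^ m + 2 * (1 - mu)⁻¹ * mu ^ m + Fintype.card V * mu ^ m) := by
    intro m
    have h4 := err_le_aux H.nonneg hp1 hmu.le hmu1 H.rowsum x m
    have h5 : R * c⁻¹ ≤ R * (c⁻¹ * c⁻¹) := by
      refine mul_le_mul_of_nonneg_left ?_ hR
      nlinarith
    have h6 : (1 - mu)⁻¹ / (Fintype.card V - 1 : ℝ) ≤
        ((1 - mu)⁻¹ * (1 - mu)⁻¹) / (Fintype.card V - 1 : ℝ) := by
      gcongr
      nlinarith
    have h7 : 2 * R / c ^ 2 = 2 * (R * (c⁻¹ * c⁻¹)) := by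
      rw [div_eq_mul_inv, ← inv_pow]; ring
    have h8 : 2 * (1 - mu)⁻¹ ^ 2 / (Fintype.card V - 1 : ℝ) =
        2 * (((1 - mu)⁻¹ * (1 - mu)⁻¹) / (Fintype.card V - 1 : ℝ)) := by ring
    rw [h7, h8]
    linarith [h1 m, h2 m]
  refine ge_of_tendsto' (x := atTop) (f := fun m : ℕ => (2 * R / c ^ 2 +
      2 * (1 - mu)⁻¹ ^ 2 / (Fintype.card V - 1 : ℝ)) +
      (mu ^ m + 2 * (1 - mu)⁻¹ * mu ^ m + Fintype.card V * mu ^ m)) ?_ h3
  have h4 := tendsto_pow_atTop_nhds_zero_of_lt_one hmu.le hmu1
  have h5 := ((h4.add (h4.const_mul (2 * (1 - mu)⁻¹))).add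
    (h4.const_mul (Fintype.card V : ℝ))).const_add (2 * R / c ^ 2 +
      2 * (1 - mu)⁻¹ ^ 2 / (Fintype.card V - 1 : ℝ))
  simpa using h5

end Pool.Agent.Lib.Pc53cb9
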