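import Mathlib
import Pool.Agent.Lib.H98.ProdIndep
import Pool.Agent.Lib.Pc53cb9.Perc
import Pool.Agent.Lib.Pc53cb9.Law
import Pool.Agent.Lib.Pc53cb9.Explore
import Pool.Agent.Lib.Pc53cb9.Kernel

/-!
Upper and lower bounds for the tail of the cluster size, and a second moment estimate.
-/

set_option linter.unusedSectionVars false

open MeasureTheory Set Filter
open scoped unitInterval Topology

namespace Pool.Agent.Lib.Pc53cb9

open Pool.Agent.Lib.H98

variable {V : Type*} [Fintype V] [DecidableEq V]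
variable {p : Sym2 V → ℝ} {h : ℝ}

/-! ## Analytic inequalities -/

lemma one_sub_le_exp {u : ℝ} (hu0 : 0 ≤ u) (hu1 : u ≤ 1) :
    1 - u ≤ Real.exp (-u - u ^ 2 / 2) := by
  rcases hu1.eq_or_lt with rfl | hu1'
  · rw [sub_self]; exact (Real.exp_pos _).le
  · have h1 := Real.hasSum_pow_div_log_of_abs_lt_one (x := u) (by rw [abs_of_nonneg hu0]; exact hu1')
    have h2 := sum_le_hasSum (Finset.range 2) (fun i _ => by positivity) h1
    simp only [Finset.sum_range_succ, Finset.range_zero, Finset.sum_empty, zero_add, pow_one,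
      Nat.cast_zero, Nat.cast_one, div_one] at h2
    have h3 : Real.log (1 - u) ≤ -u - u ^ 2 / 2 := by
      have : (1 : ℝ) + 1 = 2 := by norm_num
      rw [this] at h2
      linarith
    calc 1 - u = Real.exp (Real.log (1 - u)) := (Real.exp_log (by linarith)).symm
      _ ≤ _ := Real.exp_le_exp.2 h3

lemma exp_le_one_sub {t : ℝ} (ht0 : 0 ≤ t) (ht1 : t ≤ 1 / 2) :
    Real.exp (-t - 2 * t ^ 2) ≤ 1 - t := by
  have h1 : 1 + (t + 2 * t ^ 2) ≤ Real.exp (t + 2 * t ^ 2) := by
    have := Real.add_one_le_exp (t + 2 * t ^ 2)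
    linarith
  have h2 : 1 ≤ (1 - t) * (1 + (t + 2 * t ^ 2)) := by nlinarith [sq_nonneg t]
  have h3 : 1 ≤ (1 - t) * Real.exp (t + 2 * t ^ 2) :=
    h2.trans (mul_le_mul_of_nonneg_left h1 (by linarith))
  have h4 : Real.exp (-t - 2 * t ^ 2) * Real.exp (t + 2 * t ^ 2) = 1 := by
    rw [← Real.exp_add]; simp
  have h5 := Real.exp_pos (t + 2 * t ^ 2)
  nlinarith

lemma exp_neg_le_quadratic {t : ℝ} (ht : 0 ≤ t) : Real.exp (-t) ≤ 1 - t + t ^ 2 / 2 := by
  have h1 := Real.quadratic_le_exp_of_nonneg ht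
  have h2 : Real.exp (-t) * Real.exp t = 1 := by rw [← Real.exp_add]; simp
  have h3 : 1 ≤ (1 - t + t ^ 2 / 2) * (1 + t + t ^ 2 / 2) := by nlinarith [sq_nonneg (t ^ 2)]
  have h4 : 0 < 1 - t + t ^ 2 / 2 := by nlinarith [sq_nonneg (t - 1)]
  have h5 := Real.exp_pos t
  have h6 : 1 ≤ (1 - t + t ^ 2 / 2) * Real.exp t := h3.trans (mul_le_mul_of_nonneg_left h1 h4.le)
  nlinarith

/-- Consequence of the first recursion inequality. -/
lemma upper_analytic {κ : Type*} (s : Finset κ) (P : κ → ℝ) {u η : ℝ} (hP0 : ∀ i ∈ s, 0 ≤ P i)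
    (hP1 : ∀ i ∈ s, P i ≤ 1 / 2) (hsum : ∑ i ∈ s, P i ≤ 1 + η) (hsq : ∑ i ∈ s, P i ^ 2 ≤ 1 / 8)
    (hu0 : 0 ≤ u) (hu1 : u ≤ 1)
    (hrec : Real.exp (-h) * ∏ i ∈ s, (1 - P i * u) ≤ 1 - u) : u ^ 2 / 4 ≤ h + η * u := by
  have h1 : Real.exp (∑ i ∈ s, (-(P i * u) - 2 * (P i * u) ^ 2)) ≤ ∏ i ∈ s, (1 - P i * u) := by
    rw [Real.exp_sum]
    refine Finset.prod_le_prod (fun i _ => (Real.exp_pos _).le) fun i hi => ?_
    refine exp_le_one_sub (mul_nonneg (hP0 i hi) hu0) ?_
    have := hP1 i hi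
    have := hP0 i hi
    nlinarith
  have h2 : ∑ i ∈ s, (-(P i * u) - 2 * (P i * u) ^ 2) =
      -(u * ∑ i ∈ s, P i) - 2 * u ^ 2 * ∑ i ∈ s, P i ^ 2 := by
    rw [Finset.mul_sum, Finset.mul_sum, ← Finset.sum_neg_distrib, ← Finset.sum_sub_distrib]
    exact Finset.sum_congr rfl fun i _ => by ring
  have h3 : -(u * (1 + η)) - u ^ 2 / 4 ≤ ∑ i ∈ s, (-(P i * u) - 2 * (P i * u) ^ 2) := by
    rw [h2]
    have h4 := mul_le_mul_of_nonneg_left hsum hu0
    have h5 := mul_le_mul_of_nonneg_left hsq (sq_nonneg u)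
    linarith
  have h4 : Real.exp (-h + (-(u * (1 + η)) - u ^ 2 / 4)) ≤ Real.exp (-u - u ^ 2 / 2) := by
    rw [Real.exp_add]
    calc Real.exp (-h) * Real.exp (-(u * (1 + η)) - u ^ 2 / 4)
        ≤ Real.exp (-h) * ∏ i ∈ s, (1 - P i * u) := by
          refine mul_le_mul_of_nonneg_left ?_ (Real.exp_pos _).le
          exact (Real.exp_le_exp.2 h3).trans h1
      _ ≤ 1 - u := hrec
      _ ≤ _ := one_sub_le_exp hu0 hu1
  have h5 := Real.exp_le_exp.1 h4
  nlinarith

/-- Consequence of the second recursion inequality. -/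
lemma lower_analytic {κ : Type*} (s : Finset κ) (P : κ → ℝ) {u ub ε w : ℝ}
    (hP0 : ∀ i ∈ s, 0 ≤ P i) (hP1 : ∀ i ∈ s, P i ≤ 1) (hsum : ∑ i ∈ s, P i = 1 - w)
    (hw0 : 0 < w) (hw1 : w ≤ 1 / 4) (hu0 : 0 ≤ u) (hu1 : u ≤ 1) (hub : ub ≤ 2 * w)
    (hε0 : 0 ≤ ε) (hε : ε ≤ w / 16)
    (hrec : 1 - u ≤ Real.exp (-(w ^ 2)) * ∏ i ∈ s, (1 - P i * u) + ub * ε) : w / 4 ≤ u := by
  by_contra hcon
  rw [not_le] at hcon
  have h1 : ∏ i ∈ s, (1 - P i * u) ≤ Real.exp (-((1 - w) * u)) := by
    calc ∏ i ∈ s, (1 - P i * u) ≤ ∏ i ∈ s, Real.exp (-(P i * u)) := by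
          refine Finset.prod_le_prod (fun i hi => ?_) fun i _ => ?_
          · have := hP1 i hi
            have := hP0 i hi
            nlinarith
          · have := Real.add_one_le_exp (-(P i * u))
            linarith
      _ = Real.exp (-((1 - w) * u)) := by
          rw [← Real.exp_sum, Finset.sum_neg_distrib, ← Finset.sum_mul, hsum]
  have h2 : 1 - u ≤ Real.exp (-(w ^ 2 + (1 - w) * u)) + ub * ε := by
    refine hrec.trans (add_le_add ?_ le_rfl)
    rw [neg_add, Real.exp_add]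
    exact mul_le_mul_of_nonneg_left h1 (Real.exp_pos _).le
  have h3 : 0 ≤ w ^ 2 + (1 - w) * u := by
    have : 0 ≤ (1 - w) * u := mul_nonneg (by linarith) hu0
    positivity
  have h4 := exp_neg_le_quadratic h3
  have h5 : ub * ε ≤ 2 * w * (w / 16) := by
    calc ub * ε ≤ 2 * w * ε := mul_le_mul_of_nonneg_right hub hε0
      _ ≤ 2 * w * (w / 16) := mul_le_mul_of_nonneg_left hε (by linarith)
  have h6 : w ^ 2 + (1 - w) * u ≤ w / 2 := by
    have : w ^ 2 ≤ w / 4 := by nlinarith
    have : (1 - w) * u ≤ w / 4 := by nlinarith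
    linarith
  have h7 : (w ^ 2 + (1 - w) * u) ^ 2 ≤ (w / 2) ^ 2 := by
    exact pow_le_pow_left₀ h3 h6 2
  nlinarith

/-! ## Tail bounds -/

/-- Upper bound for the Laplace functional. -/
lemma one_sub_Phi_le (hp0 : ∀ e, 0 ≤ p e) (hp2 : ∀ e, p e ≤ 1 / 2) (hpd : ∀ x, p s(x, x) = 0)
    {η : ℝ} (hsum : ∀ x, ∑ y, p s(x, y) ≤ 1 + η) (hsq : ∀ x, ∑ y, p s(x, y) ^ 2 ≤ 1 / 8)
    (hh : 0 ≤ h) [Nonempty V] : ∃ u : ℝ, 0 ≤ u ∧ u ≤ 1 ∧ u ^ 2 / 4 ≤ h + η * u ∧
      ∀ a, 1 - u ≤ Phi p h Finset.univ {a} := by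
  obtain ⟨x, hx⟩ := Finite.exists_min fun a : V => Phi p h Finset.univ {a}
  refine ⟨1 - Phi p h Finset.univ {x}, sub_nonneg.2 (Phi_le_one hh _ _), ?_, ?_, ?_⟩
  · linarith [Phi_nonneg (p := p) (h := h) Finset.univ {x}]
  · refine upper_analytic Finset.univ (fun y => p s(x, y)) (fun y _ => hp0 _) (fun y _ => hp2 _)
      (hsum x) (hsq x) (sub_nonneg.2 (Phi_le_one hh _ _))
      (by linarith [Phi_nonneg (p := p) (h := h) Finset.univ {x}]) ?_
    rw [sub_sub_cancel]
    exact rec_lower hp0 (fun e => (hp2 e).trans (by norm_num)) hpd hh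
      (by linarith [Phi_nonneg (p := p) (h := h) Finset.univ {x}])
      (fun a => by rw [sub_sub_cancel]; exact hx a) x
  · intro a
    rw [sub_sub_cancel]
    exact hx a

/-- Markov type bound for the tail. -/
lemma tail_le (k : ℕ) (hk : 1 ≤ k) (x : V) :
    (law p).real {b | k ≤ (Cl Finset.univ {x} b).card} ≤
      2 * (1 - Phi p (1 / k) Finset.univ {x}) := by
  have hk' : (0 : ℝ) < k := by exact_mod_cast hk
  have h1 : ∀ b : Sym2 V → Bool,
      {b : Sym2 V → Bool | k ≤ (Cl Finset.univ {x} b).card}.indicator (fun _ => (1 : ℝ)) b ≤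
      2 * (1 - ex (1 / k) (Cl Finset.univ {x} b).card) := by
    intro b
    by_cases hb : k ≤ (Cl Finset.univ {x} b).card
    · rw [Set.indicator_of_mem (show b ∈ {b : Sym2 V → Bool | k ≤ (Cl Finset.univ {x} b).card}
        from hb)]
      have h2 : ex (1 / k) (Cl Finset.univ {x} b).card ≤ Real.exp (-1) := by
        unfold ex
        refine Real.exp_le_exp.2 ?_
        have : (1 : ℝ) ≤ 1 / k * (Cl Finset.univ {x} b).card := by
          rw [one_div, ← div_eq_inv_mul, le_div_iff₀ hk', one_mul]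
          exact_mod_cast hb
        linarith
      have h3 : Real.exp (-1) ≤ 1 / 2 := by
        have := exp_neg_le_quadratic (t := 1) (by norm_num)
        norm_num at this
        linarith
      linarith
    · rw [Set.indicator_of_notMem (show b ∉ {b : Sym2 V → Bool |
        k ≤ (Cl Finset.univ {x} b).card} from hb)]
      have := ex_le_one (h := 1 / k) (by positivity) (Cl Finset.univ {x} b).card
      linarith
  have h2 := integral_le p h1
  rw [integral_indicator MeasurableSet.of_discrete, setIntegral_const, smul_eq_mul, mul_one,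
    integral_const_mul, integral_sub'] at h2
  simpa [Phi] using h2

lemma sum_inv_sqrt_le (K : ℕ) : ∑ k ∈ Finset.range K, 1 / Real.sqrt (k + 1) ≤ 2 * Real.sqrt K := by
  induction K with
  | zero => simp
  | succ K ih =>
    rw [Finset.sum_range_succ]
    have h1 : 0 < Real.sqrt ((K : ℝ) + 1) := Real.sqrt_pos.2 (by positivity)
    have h2 : 0 ≤ Real.sqrt (K : ℝ) := Real.sqrt_nonneg _
    have h3 : Real.sqrt ((K : ℝ) + 1) ^ 2 = K + 1 := Real.sq_sqrt (by positivity)
    have h4 : Real.sqrt (K : ℝ) ^ 2 = K := Real.sq_sqrt (by positivity)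
    have h5 : 1 / Real.sqrt ((K : ℝ) + 1) ≤ 2 * Real.sqrt ((K : ℝ) + 1) - 2 * Real.sqrt K := by
      rw [div_le_iff₀ h1]
      nlinarith [sq_nonneg (Real.sqrt ((K : ℝ) + 1) - Real.sqrt K)]
    push_cast
    linarith

/-- Reverse bound: the Laplace functional is controlled by the tail. -/
lemma one_sub_Phi_le_tail (hh : 0 ≤ h) (K : ℕ) (x : V) :
    1 - Phi p h Finset.univ {x} ≤ (law p).real {b | K ≤ (Cl Finset.univ {x} b).card} +
      h * ∑ k ∈ Finset.range K, (law p).real {b | k + 1 ≤ (Cl Finset.univ {x} b).card} := by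
  have h1 : ∀ b : Sym2 V → Bool, 1 - ex h (Cl Finset.univ {x} b).card ≤
      {b : Sym2 V → Bool | K ≤ (Cl Finset.univ {x} b).card}.indicator (fun _ => (1 : ℝ)) b +
      h * ∑ k ∈ Finset.range K,
        {b : Sym2 V → Bool | k + 1 ≤ (Cl Finset.univ {x} b).card}.indicator
          (fun _ => (1 : ℝ)) b := by
    intro b
    set c := (Cl Finset.univ {x} b).card with hc
    have hsum0 : ∀ k ∈ Finset.range K,
        0 ≤ {b : Sym2 V → Bool | k + 1 ≤ (Cl Finset.univ {x} b).card}.indicator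
          (fun _ => (1 : ℝ)) b := fun k _ => Set.indicator_nonneg (fun _ _ => zero_le_one) _
    by_cases hb : K ≤ c
    · rw [Set.indicator_of_mem (show b ∈ {b : Sym2 V → Bool | K ≤ (Cl Finset.univ {x} b).card}
        from hb)]
      have h2 := (ex_pos h c)
      have h3 := mul_nonneg hh (Finset.sum_nonneg hsum0)
      linarith
    · rw [Set.indicator_of_notMem (show b ∉ {b : Sym2 V → Bool |
        K ≤ (Cl Finset.univ {x} b).card} from hb), zero_add]
      have h2 : 1 - ex h c ≤ h * c := by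
        have := Real.add_one_le_exp (-(h * c))
        unfold ex
        linarith
      refine h2.trans (mul_le_mul_of_nonneg_left ?_ hh)
      have h3 : ∑ k ∈ Finset.range c,
          {b : Sym2 V → Bool | k + 1 ≤ (Cl Finset.univ {x} b).card}.indicator
          (fun _ => (1 : ℝ)) b = c := by
        have h4 : ∀ k ∈ Finset.range c,
            {b : Sym2 V → Bool | k + 1 ≤ (Cl Finset.univ {x} b).card}.indicator
            (fun _ => (1 : ℝ)) b = 1 := by
          intro k hk
          rw [Finset.mem_range] at hk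
          rw [Set.indicator_of_mem]
          exact hk
        rw [Finset.sum_congr rfl h4]
        simp
      rw [← h3]
      refine Finset.sum_le_sum_of_subset_of_nonneg ?_ fun k hk _ => hsum0 k hk
      intro k hk
      rw [Finset.mem_range] at hk ⊢
      omega
  have h2 := integral_le p h1
  rw [integral_sub', integral_add', integral_const_mul, integral_sum',
    integral_indicator MeasurableSet.of_discrete, setIntegral_const, smul_eq_mul, mul_one] at h2
  have h5 : ∀ k : ℕ, ∫ b, {b : Sym2 V → Bool | k + 1 ≤ (Cl Finset.univ {x} b).card}.indicator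
      (fun _ => (1 : ℝ)) b ∂(law p) =
      (law p).real {b | k + 1 ≤ (Cl Finset.univ {x} b).card} := by
    intro k
    rw [integral_indicator MeasurableSet.of_discrete, setIntegral_const, smul_eq_mul, mul_one]
  rw [Finset.sum_congr rfl fun k _ => h5 k, integral_const, probReal_univ, one_smul] at h2
  unfold Phi
  linarith

/-- Lower bound for the tail of the cluster size. -/
lemma tail_lower [Nonempty V] {c R w : ℝ} (H : GoodKernel p (1 - w) c R) (hR : 0 ≤ R)
    (hw0 : 0 < w) (hw1 : w ≤ 1 / 4) (hp2 : ∀ e, p e ≤ 1 / 2)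
    (hsq : ∀ x, ∑ y, p s(x, y) ^ 2 ≤ 1 / 8)
    (herr : 2 * R / c ^ 2 + 2 * w⁻¹ ^ 2 / (Fintype.card V - 1 : ℝ) ≤ w / 16)
    (K : ℕ) (hK1 : 1 ≤ K) (hK : 4096 * K * w ^ 2 ≤ 1) (x : V) :
    w / 8 ≤ (law p).real {b | K ≤ (Cl Finset.univ {x} b).card} := by
  have hp1 : ∀ e, p e ≤ 1 := fun e => (hp2 e).trans (by norm_num)
  have hsum : ∀ x, ∑ y, p s(x, y) ≤ 1 + 0 := fun x => by rw [H.rowsum]; linarith
  -- Laplace functional from below
  have hlow : w / 4 ≤ 1 - Phi p (w ^ 2) Finset.univ {x} := by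
    obtain ⟨u, hu0, hu1, hu2, hu3⟩ := one_sub_Phi_le (h := w ^ 2) H.nonneg hp2 H.diag hsum hsq
      (sq_nonneg w)
    have hu4 : u ≤ 2 * w := by nlinarith
    obtain ⟨z, hz⟩ := Finite.exists_max fun a : V => Phi p (w ^ 2) Finset.univ {a}
    have herrx : err p z ≤ w / 16 := by
      refine (err_le H hp1 hR z).trans ?_
      rw [sub_sub_cancel]
      exact herr
    have herr0 : 0 ≤ err p z := by
      refine add_nonneg (Finset.sum_nonneg fun a _ => mul_nonneg (H.nonneg _)
        (tau_nonneg _ _)) (Finset.sum_nonneg fun a _ => Finset.sum_nonneg fun c _ => ?_)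
      split_ifs
      · exact mul_nonneg (mul_nonneg (H.nonneg _) (H.nonneg _)) (tau2_nonneg _ _)
      · exact le_rfl
    have hPz0 := Phi_nonneg (p := p) (h := w ^ 2) Finset.univ {z}
    have hPz1 := Phi_le_one (p := p) (h := w ^ 2) (sq_nonneg w) Finset.univ {z}
    have h1 := rec_upper (p := p) (h := w ^ 2) H.nonneg hp1 H.diag (sq_nonneg w) (ub := u)
      (lb := 1 - Phi p (w ^ 2) Finset.univ {z}) hu3
      (fun a => by rw [sub_sub_cancel]; exact hz a) (by linarith) (by linarith) hu0 z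
    have h2 := lower_analytic Finset.univ (fun y => p s(z, y))
      (u := 1 - Phi p (w ^ 2) Finset.univ {z}) (ub := u) (ε := err p z) (w := w)
      (fun y _ => H.nonneg _) (fun y _ => hp1 _) (H.rowsum z) hw0 hw1 (by linarith) (by linarith)
      hu4 herr0 herrx (by rw [sub_sub_cancel]; exact h1)
    have := hz x
    linarith
  have h1 := one_sub_Phi_le_tail (p := p) (h := w ^ 2) (sq_nonneg w) K x
  have h2 : ∀ k ∈ Finset.range K, (law p).real {b | k + 1 ≤ (Cl Finset.univ {x} b).card} ≤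
      4 * (1 / Real.sqrt (k + 1)) := by
    intro k _
    have hk : (0 : ℝ) < (k + 1 : ℕ) := by positivity
    refine (tail_le (k + 1) (by omega) x).trans ?_
    obtain ⟨u, hu0, hu1, hu2, hu3⟩ := one_sub_Phi_le (h := 1 / ((k + 1 : ℕ) : ℝ)) H.nonneg hp2
      H.diag hsum hsq (by positivity)
    have h3 := hu3 x
    have h4 : u ≤ 2 * (1 / Real.sqrt (k + 1)) := by
      have h5 : 0 < Real.sqrt ((k : ℝ) + 1) := Real.sqrt_pos.2 (by positivity)
      have h6 : (2 * (1 / Real.sqrt ((k : ℝ) + 1))) ^ 2 = 4 * (1 / ((k + 1 : ℕ) : ℝ)) := by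
        rw [mul_pow, div_pow, Real.sq_sqrt (by positivity)]
        push_cast
        ring
      have h7 : u ^ 2 ≤ (2 * (1 / Real.sqrt ((k : ℝ) + 1))) ^ 2 := by
        rw [h6]; linarith
      exact le_of_sq_le_sq h7 (by positivity)
    linarith
  have h3 : ∑ k ∈ Finset.range K, (law p).real {b | k + 1 ≤ (Cl Finset.univ {x} b).card} ≤
      8 * Real.sqrt K := by
    calc _ ≤ ∑ k ∈ Finset.range K, 4 * (1 / Real.sqrt (k + 1)) := Finset.sum_le_sum h2
      _ = 4 * ∑ k ∈ Finset.range K, 1 / Real.sqrt (k + 1) := by rw [Finset.mul_sum]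
      _ ≤ 4 * (2 * Real.sqrt K) := by
          refine mul_le_mul_of_nonneg_left (sum_inv_sqrt_le K) (by norm_num)
      _ = _ := by ring
  have h4 : w ^ 2 * (8 * Real.sqrt K) ≤ w / 8 := by
    have h5 : Real.sqrt K * w ≤ 1 / 64 := by
      refine le_of_sq_le_sq ?_ (by norm_num)
      rw [mul_pow, Real.sq_sqrt (by positivity)]
      norm_num
      linarith
    have h6 : w ^ 2 * (8 * Real.sqrt K) = 8 * w * (Real.sqrt K * w) := by ring
    rw [h6]
    nlinarith
  have h5 := mul_le_mul_of_nonneg_left h3 (sq_nonneg w)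
  linarith

/-! ## Second moment -/

lemma Cl_eq_compl {x y : V} {b : Sym2 V → Bool} (h : y ∉ Cl Finset.univ {x} b) :
    Cl Finset.univ {y} b = Cl (Cl Finset.univ {x} b)ᶜ {y} b := by
  refine Finset.Subset.antisymm ?_ (Cl_mono (Finset.subset_univ _) (Finset.Subset.refl _))
  refine Cl_subset_of (fun c hc _ => ?_) fun a ha z haz _ => ?_
  · rw [Finset.mem_singleton.1 hc]
    exact Cl_start (Finset.mem_singleton_self _) (Finset.mem_compl.2 h)
  · refine Cl_step ha haz (Finset.mem_compl.2 fun hz => ?_)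
    exact (Finset.mem_compl.1 (Cl_subset _ _ _ ha)) (Cl_step hz haz.symm (Finset.mem_univ _))

lemma prob_two_large (K : ℕ) (x y : V) :
    (law p).real ({b | K ≤ (Cl Finset.univ {x} b).card} ∩ {b | K ≤ (Cl Finset.univ {y} b).card}) ≤
      tau p x y + (law p).real {b | K ≤ (Cl Finset.univ {x} b).card} *
        (law p).real {b | K ≤ (Cl Finset.univ {y} b).card} := by
  set A := {b : Sym2 V → Bool | K ≤ (Cl Finset.univ {x} b).card} with hA
  set B := {b : Sym2 V → Bool | K ≤ (Cl Finset.univ {y} b).card} with hB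
  have h1 : A ∩ B ⊆ {b | y ∈ Cl Finset.univ {x} b} ∪
      (A ∩ (B ∩ {b | y ∉ Cl Finset.univ {x} b})) := by
    rintro b ⟨h1, h2⟩
    by_cases hy : y ∈ Cl Finset.univ {x} b
    · exact Or.inl hy
    · exact Or.inr ⟨h1, h2, hy⟩
  refine ((measureReal_mono h1 (measure_ne_top _ _)).trans (measureReal_union_le _ _)).trans
    (add_le_add le_rfl ?_)
  rw [← sum_fiber_inter p (fun b => Cl Finset.univ {x} b)
    (A ∩ (B ∩ {b | y ∉ Cl Finset.univ {x} b})),
    ← sum_fiber_inter p (fun b => Cl Finset.univ {x} b) A, Finset.sum_mul]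
  refine Finset.sum_le_sum fun S _ => ?_
  by_cases hKS : K ≤ S.card
  · have h2 : ({b | Cl Finset.univ {x} b = S} ∩ A : Set (Sym2 V → Bool)) =
        {b | Cl Finset.univ {x} b = S} := by
      ext b
      simp only [hA, mem_inter_iff, mem_ofPred_eq, and_iff_left_iff_imp]
      intro hb; rw [hb]; exact hKS
    rw [h2]
    have h3 : ({b | Cl Finset.univ {x} b = S} ∩ (A ∩ (B ∩ {b | y ∉ Cl Finset.univ {x} b})) :
        Set (Sym2 V → Bool)) ⊆
        {b | Cl Finset.univ {x} b = S} ∩ {b | K ≤ (Cl Sᶜ {y} b).card} := by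
      rintro b ⟨hb1, -, hb2, hb3⟩
      refine ⟨hb1, ?_⟩
      simp only [hB, mem_ofPred_eq] at hb1 hb2 hb3 ⊢
      rwa [Cl_eq_compl hb3, hb1] at hb2
    refine (measureReal_mono h3 (measure_ne_top _ _)).trans ?_
    rw [law_inter p MeasurableSet.of_discrete MeasurableSet.of_discrete
      ((depOn_Cl_eq Finset.univ {x} S).mono inter_subset_right)
      (depOn_Cl Sᶜ {y} fun T => K ≤ T.card) ?_]
    · refine mul_le_mul_of_nonneg_left (measureReal_mono ?_ (measure_ne_top _ _))
        measureReal_nonneg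
      intro b hb
      exact le_trans hb (Finset.card_le_card (Cl_mono (Finset.subset_univ _)
        (Finset.Subset.refl _)))
    · rw [Set.disjoint_left]
      rintro e ⟨v, hv, hvS⟩ h
      exact (Finset.mem_compl.1 (h v hv)) hvS
  · have h2 : ({b | Cl Finset.univ {x} b = S} ∩ (A ∩ (B ∩ {b | y ∉ Cl Finset.univ {x} b})) :
        Set (Sym2 V → Bool)) = ∅ := by
      ext b
      simp only [hA, mem_inter_iff, mem_ofPred_eq, mem_empty_iff_false, iff_false, not_and]
      intro hb hb2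
      rw [hb] at hb2
      exact absurd hb2 hKS
    rw [h2, measureReal_empty]
    exact mul_nonneg measureReal_nonneg measureReal_nonneg

open Classical in
/-- The number of vertices in clusters of size at least `K`. -/
noncomputable def bigCount (K : ℕ) (b : Sym2 V → Bool) : ℕ :=
  (Finset.univ.filter fun x : V => K ≤ (Cl Finset.univ {x} b).card).card

lemma bigCount_eq (K : ℕ) (b : Sym2 V → Bool) : (bigCount K b : ℝ) =
    ∑ x : V, {b : Sym2 V → Bool | K ≤ (Cl Finset.univ {x} b).card}.indicator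
      (fun _ => (1 : ℝ)) b := by
  classical
  unfold bigCount
  rw [Finset.card_filter]
  push_cast
  refine Finset.sum_congr rfl fun x _ => ?_
  rw [Set.indicator_apply]
  rfl

lemma integral_bigCount (K : ℕ) : ∫ b, (bigCount K b : ℝ) ∂(law p) =
    ∑ x : V, (law p).real {b | K ≤ (Cl Finset.univ {x} b).card} := by
  simp_rw [bigCount_eq]
  rw [integral_sum']
  refine Finset.sum_congr rfl fun x _ => ?_
  rw [integral_indicator MeasurableSet.of_discrete, setIntegral_const, smul_eq_mul, mul_one]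

lemma integral_bigCount_sq (K : ℕ) : ∫ b, (bigCount K b : ℝ) ^ 2 ∂(law p) ≤
    ∑ x : V, ∑ y : V, tau p x y + (∫ b, (bigCount K b : ℝ) ∂(law p)) ^ 2 := by
  have h1 : ∀ b : Sym2 V → Bool, (bigCount K b : ℝ) ^ 2 = ∑ x : V, ∑ y : V,
      ({b : Sym2 V → Bool | K ≤ (Cl Finset.univ {x} b).card} ∩
        {b | K ≤ (Cl Finset.univ {y} b).card}).indicator (fun _ => (1 : ℝ)) b := by
    intro b
    rw [bigCount_eq, pow_two, Finset.sum_mul_sum]
    refine Finset.sum_congr rfl fun x _ => Finset.sum_congr rfl fun y _ => ?_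
    rw [Set.indicator_apply, Set.indicator_apply, Set.indicator_apply]
    by_cases hx : b ∈ {b : Sym2 V → Bool | K ≤ (Cl Finset.univ {x} b).card} <;>
    by_cases hy : b ∈ {b : Sym2 V → Bool | K ≤ (Cl Finset.univ {y} b).card} <;>
    simp [hx, hy]
  simp_rw [h1]
  rw [integral_sum', integral_bigCount, pow_two, Finset.sum_mul_sum, ← Finset.sum_add_distrib]
  refine Finset.sum_le_sum fun x _ => ?_
  rw [integral_sum', ← Finset.sum_add_distrib]
  refine Finset.sum_le_sum fun y _ => ?_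
  rw [integral_indicator MeasurableSet.of_discrete, setIntegral_const, smul_eq_mul, mul_one]
  exact prob_two_large K x y

/-- Second moment estimate: with high probability many vertices lie in large clusters. -/
lemma prob_bigCount_small [Nonempty V] {c R w : ℝ} (H : GoodKernel p (1 - w) c R) (hR : 0 ≤ R)
    (hw0 : 0 < w) (hw1 : w ≤ 1 / 4) (hp2 : ∀ e, p e ≤ 1 / 2)
    (hsq : ∀ x, ∑ y, p s(x, y) ^ 2 ≤ 1 / 8)
    (herr : 2 * R / c ^ 2 + 2 * w⁻¹ ^ 2 / (Fintype.card V - 1 : ℝ) ≤ w / 16)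
    (K : ℕ) (hK1 : 1 ≤ K) (hK : 4096 * K * w ^ 2 ≤ 1) :
    (law p).real {b | (bigCount K b : ℝ) < Fintype.card V * w / 16} ≤
      256 / (Fintype.card V * w ^ 3) := by
  have hp1 : ∀ e, p e ≤ 1 := fun e => (hp2 e).trans (by norm_num)
  have hN : (0 : ℝ) < Fintype.card V := by exact_mod_cast Fintype.card_pos
  set N : ℝ := ((Fintype.card V : ℕ) : ℝ) with hNdef
  set M := ∫ b, (bigCount K b : ℝ) ∂(law p) with hM
  have hM1 : N * (w / 8) ≤ M := by
    rw [hM, integral_bigCount]
    calc N * (w / 8) = ∑ _x : V, w / 8 := by simp [hNdef]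
      _ ≤ _ := Finset.sum_le_sum fun x _ => tail_lower H hR hw0 hw1 hp2 hsq herr K hK1 hK x
  have hvar : ∫ b, ((bigCount K b : ℝ) - M) ^ 2 ∂(law p) ≤ N * w⁻¹ := by
    have h1 : ∀ b : Sym2 V → Bool, ((bigCount K b : ℝ) - M) ^ 2 =
        (bigCount K b : ℝ) ^ 2 - 2 * M * (bigCount K b : ℝ) + M ^ 2 := fun b => by ring
    simp_rw [h1]
    rw [integral_add', integral_sub', integral_const_mul, integral_const, probReal_univ, one_smul,
      ← hM]
    have h2 := integral_bigCount_sq (p := p) K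
    rw [← hM] at h2
    have h3 : ∑ x : V, ∑ y : V, tau p x y ≤ N * w⁻¹ := by
      calc ∑ x : V, ∑ y : V, tau p x y ≤ ∑ _x : V, w⁻¹ := by
            refine Finset.sum_le_sum fun x _ => ?_
            have := sum_tau_le H.nonneg hp1 H.mu_pos.le H.mu_lt H.rowsum x
            rwa [sub_sub_cancel] at this
        _ = N * w⁻¹ := by simp [hNdef]
    nlinarith
  have hcheb : (law p).real {b | (bigCount K b : ℝ) < N * w / 16} * (N * w / 16) ^ 2 ≤
      ∫ b, ((bigCount K b : ℝ) - M) ^ 2 ∂(law p) := by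
    have h1 : ∀ b : Sym2 V → Bool, {b : Sym2 V → Bool | (bigCount K b : ℝ) < N * w / 16}.indicator
        (fun _ => (N * w / 16) ^ 2) b ≤ ((bigCount K b : ℝ) - M) ^ 2 := by
      intro b
      by_cases hb : (bigCount K b : ℝ) < N * w / 16
      · rw [Set.indicator_of_mem (show b ∈ {b : Sym2 V → Bool | (bigCount K b : ℝ) < N * w / 16}
          from hb)]
        have h2 : N * w / 16 ≤ M - bigCount K b := by
          have : N * (w / 8) = 2 * (N * w / 16) := by ring
          linarith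
        have h3 : 0 ≤ N * w / 16 := by positivity
        nlinarith
      · rw [Set.indicator_of_notMem (show b ∉ {b : Sym2 V → Bool |
          (bigCount K b : ℝ) < N * w / 16} from hb)]
        positivity
    have h2 := integral_le p h1
    rwa [integral_indicator MeasurableSet.of_discrete, setIntegral_const, smul_eq_mul] at h2
  have h3 := hcheb.trans hvar
  have h4 : (0 : ℝ) < (N * w / 16) ^ 2 := by positivity
  rw [← le_div_iff₀ h4] at h3
  refine h3.trans (le_of_eq ?_)
  field_simp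
  norm_num

end Pool.Agent.Lib.Pc53cb9
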