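import Mathlib
import Pool.Agent.Lib.Pc53cb9.Law

/-!
Large clusters contain triangles, when every vertex has a bounded-size local neighbourhood with
triangles of probability bounded below.
-/

set_option linter.unusedSectionVars false

open MeasureTheory Set
open scoped unitInterval

namespace Pool.Agent.Lib.Pc53cb9

open Pool.Agent.Lib.H98

variable {V : Type*} [Fintype V] [DecidableEq V]

/-- A family of pairwise disjoint vertex triples indexed by the vertices in `X`. -/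
structure TriFam (X : Finset V) (a₁ a₂ : V → V) : Prop where
  ne1 : ∀ x ∈ X, x ≠ a₁ x
  ne2 : ∀ x ∈ X, x ≠ a₂ x
  ne3 : ∀ x ∈ X, a₁ x ≠ a₂ x
  disj : ∀ x ∈ X, ∀ y ∈ X, x ≠ y → Disjoint ({x, a₁ x, a₂ x} : Finset V) {y, a₁ y, a₂ y}

/-- The triangle event at `x`. -/
def TT (a₁ a₂ : V → V) (x : V) : Set (Sym2 V → Bool) :=
  {b | b s(x, a₁ x) = true} ∩ ({b | b s(x, a₂ x) = true} ∩ {b | b s(a₁ x, a₂ x) = true})

/-- No triangle event holds at a vertex of `Y`. -/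
def NF (a₁ a₂ : V → V) (Y : Finset V) : Set (Sym2 V → Bool) := {b | ∀ x ∈ Y, b ∉ TT a₁ a₂ x}

/-- The set `D` contains no triangle of open edges. -/
def NoTri (D : Finset V) (b : Sym2 V → Bool) : Prop :=
  ¬ ∃ x ∈ D, ∃ y ∈ D, ∃ z ∈ D, Op b x y ∧ Op b y z ∧ Op b x z

variable {a₁ a₂ : V → V} {X : Finset V}

lemma depOn_TT (x : V) : DepOn (TT a₁ a₂ x) (inE {x, a₁ x, a₂ x}) := by
  have h1 : s(x, a₁ x) ∈ inE ({x, a₁ x, a₂ x} : Finset V) := by rw [mem_inE]; simp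
  have h2 : s(x, a₂ x) ∈ inE ({x, a₁ x, a₂ x} : Finset V) := by rw [mem_inE]; simp
  have h3 : s(a₁ x, a₂ x) ∈ inE ({x, a₁ x, a₂ x} : Finset V) := by rw [mem_inE]; simp
  exact ((depOn_open _ true).mono (Set.singleton_subset_iff.2 h1)).inter
    (((depOn_open _ true).mono (Set.singleton_subset_iff.2 h2)).inter
      ((depOn_open _ true).mono (Set.singleton_subset_iff.2 h3)))

lemma depOn_NF (Y : Finset V) :
    DepOn (NF a₁ a₂ Y) {e | ∃ x ∈ Y, e ∈ inE ({x, a₁ x, a₂ x} : Finset V)} := by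
  intro b b' h hb x hx hxb'
  refine hb x hx ?_
  exact depOn_TT x b' b (fun e he => (h e ⟨x, hx, he⟩).symm) hxb'

lemma exists_mem_sym2 (e : Sym2 V) : ∃ v, v ∈ e := by
  induction e with
  | h x y => exact ⟨x, Sym2.mem_mk_left x y⟩

lemma disjoint_inE {A B : Finset V} (h : Disjoint A B) : Disjoint (inE A) (inE B) := by
  rw [Set.disjoint_left]
  intro e hA hB
  obtain ⟨v, hv⟩ := exists_mem_sym2 e
  exact (Finset.disjoint_left.1 h) (hA v hv) (hB v hv)

lemma disjoint_touchE_inE {A B : Finset V} (h : Disjoint A B) : Disjoint (touchE A) (inE B) := by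
  rw [Set.disjoint_left]
  rintro e ⟨v, hv, hvA⟩ hB
  exact (Finset.disjoint_left.1 h) hvA (hB v hv)

variable {p : Sym2 V → ℝ} {t : ℝ}

omit [Fintype V] [DecidableEq V] in
lemma law_open3 {e₁ e₂ e₃ : Sym2 V} [Finite V] (h12 : e₁ ≠ e₂) (h13 : e₁ ≠ e₃) (h23 : e₂ ≠ e₃)
    (hp0 : ∀ e, 0 ≤ p e) (hp1 : ∀ e, p e ≤ 1) :
    (law p).real ({b | b e₁ = true} ∩ ({b | b e₂ = true} ∩ {b | b e₃ = true})) =
      p e₁ * (p e₂ * p e₃) := by
  have := Fintype.ofFinite V
  rw [law_inter p MeasurableSet.of_discrete MeasurableSet.of_discrete (depOn_open _ true)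
      (T := {e₂, e₃}) (((depOn_open _ true).mono (by simp)).inter
        ((depOn_open _ true).mono (by simp))) (by
        rw [Set.disjoint_left]
        intro e he he'
        rw [Set.mem_singleton_iff] at he
        subst he
        rcases he' with h | h
        · exact h12 h
        · exact h13 h),
    law_inter p MeasurableSet.of_discrete MeasurableSet.of_discrete (depOn_open _ true)
      (depOn_open _ true) (Set.disjoint_singleton.2 h23), law_open (hp0 _) (hp1 _),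
    law_open (hp0 _) (hp1 _), law_open (hp0 _) (hp1 _)]

lemma TT_lower (hX : TriFam X a₁ a₂) (ht : 0 ≤ t) (hp0 : ∀ e, 0 ≤ p e) (hp1 : ∀ e, p e ≤ 1)
    (h1 : ∀ x ∈ X, t ≤ p s(x, a₁ x)) (h2 : ∀ x ∈ X, t ≤ p s(x, a₂ x))
    (h3 : ∀ x ∈ X, t ≤ p s(a₁ x, a₂ x)) (x : V) (hx : x ∈ X) :
    t ^ 3 ≤ (law p).real (TT a₁ a₂ x) := by
  have hn1 := hX.ne1 x hx
  have hn2 := hX.ne2 x hx
  have hn3 := hX.ne3 x hx
  unfold TT
  rw [law_open3 (by simp only [ne_eq, Sym2.eq_iff]; tauto)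
    (by simp only [ne_eq, Sym2.eq_iff]; tauto) (by simp only [ne_eq, Sym2.eq_iff]; tauto) hp0 hp1]
  have e1 := h1 x hx
  have e2 := h2 x hx
  have e3 := h3 x hx
  calc t ^ 3 = t * (t * t) := by ring
    _ ≤ _ := mul_le_mul e1 (mul_le_mul e2 e3 ht (hp0 _)) (by positivity) (hp0 _)

lemma TT_upper (hp0 : ∀ e, 0 ≤ p e) (hp2 : ∀ e, p e ≤ 1 / 2) (x : V) :
    (law p).real (TT a₁ a₂ x) ≤ 1 / 2 := by
  refine (measureReal_mono Set.inter_subset_left (measure_ne_top _ _)).trans ?_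
  rw [law_open (hp0 _) ((hp2 _).trans (by norm_num))]
  exact hp2 _

lemma NF_union (Y Z : Finset V) : NF a₁ a₂ (Y ∪ Z) = NF a₁ a₂ Y ∩ NF a₁ a₂ Z := by
  ext b
  simp only [NF, Finset.mem_union, mem_ofPred_eq, mem_inter_iff]
  exact ⟨fun h => ⟨fun x hx => h x (Or.inl hx), fun x hx => h x (Or.inr hx)⟩,
    fun h x hx => hx.elim (h.1 x) (h.2 x)⟩

lemma disj_dep (hX : TriFam X a₁ a₂) {Y Z : Finset V} (hY : Y ⊆ X) (hZ : Z ⊆ X)
    (hYZ : Disjoint Y Z) :
    Disjoint {e : Sym2 V | ∃ x ∈ Y, e ∈ inE ({x, a₁ x, a₂ x} : Finset V)}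
      {e : Sym2 V | ∃ x ∈ Z, e ∈ inE ({x, a₁ x, a₂ x} : Finset V)} := by
  rw [Set.disjoint_left]
  rintro e ⟨x, hx, hex⟩ ⟨y, hy, hey⟩
  have hxy : x ≠ y := fun h => (Finset.disjoint_left.1 hYZ) hx (h ▸ hy)
  exact (Set.disjoint_left.1 (disjoint_inE (hX.disj x (hY hx) y (hZ hy) hxy))) hex hey

lemma NF_inter (hX : TriFam X a₁ a₂) {Y Z : Finset V} (hY : Y ⊆ X) (hZ : Z ⊆ X)
    (hYZ : Disjoint Y Z) :
    (law p).real (NF a₁ a₂ (Y ∪ Z)) = (law p).real (NF a₁ a₂ Y) * (law p).real (NF a₁ a₂ Z) := by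
  rw [NF_union]
  exact law_inter p MeasurableSet.of_discrete MeasurableSet.of_discrete (depOn_NF Y) (depOn_NF Z)
    (disj_dep hX hY hZ hYZ)

lemma NF_bounds (hX : TriFam X a₁ a₂) (ht : 0 ≤ t) (hp0 : ∀ e, 0 ≤ p e) (hp2 : ∀ e, p e ≤ 1 / 2)
    (h1 : ∀ x ∈ X, t ≤ p s(x, a₁ x)) (h2 : ∀ x ∈ X, t ≤ p s(x, a₂ x))
    (h3 : ∀ x ∈ X, t ≤ p s(a₁ x, a₂ x)) (Y : Finset V) (hY : Y ⊆ X) :
    0 < (law p).real (NF a₁ a₂ Y) ∧ (law p).real (NF a₁ a₂ Y) ≤ (1 - t ^ 3) ^ Y.card := by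
  induction Y using Finset.induction_on with
  | empty =>
    have : (NF a₁ a₂ (∅ : Finset V)) = Set.univ := by ext b; simp [NF]
    rw [this]; simp
  | insert x Y hx ih =>
    have hxX : x ∈ X := hY (Finset.mem_insert_self _ _)
    have hYX : Y ⊆ X := (Finset.subset_insert _ _).trans hY
    obtain ⟨ih1, ih2⟩ := ih hYX
    rw [Finset.insert_eq, NF_inter hX (Finset.singleton_subset_iff.2 hxX) hYX
      (Finset.disjoint_singleton_left.2 hx), ← Finset.insert_eq, Finset.card_insert_of_notMem hx]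
    have h4 : (NF a₁ a₂ {x}) = (TT a₁ a₂ x)ᶜ := by ext b; simp [NF]
    have h5 : (law p).real (NF a₁ a₂ {x}) = 1 - (law p).real (TT a₁ a₂ x) := by
      rw [h4, probReal_compl_eq_one_sub MeasurableSet.of_discrete]
    have h6 := TT_lower hX ht hp0 (fun e => (hp2 e).trans (by norm_num)) h1 h2 h3 x hxX
    have h7 := TT_upper (a₁ := a₁) (a₂ := a₂) hp0 hp2 x
    rw [h5]
    constructor
    · exact mul_pos (by linarith) ih1
    · rw [pow_succ']
      exact mul_le_mul (by linarith) ih2 ih1.le (by linarith)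

/-- The vertices of `X` whose triple meets `D`. -/
def SS (X : Finset V) (a₁ a₂ : V → V) (D : Finset V) : Finset V :=
  X.filter fun x => ¬ Disjoint D {x, a₁ x, a₂ x}

lemma noTri_subset (hX : TriFam X a₁ a₂) (D : Finset V) (v : V) :
    ({b | Cl Finset.univ {v} b = D} ∩ {b | NoTri (Cl Finset.univ {v} b) b} : Set (Sym2 V → Bool)) ⊆
      {b | Cl Finset.univ {v} b = D} ∩ NF a₁ a₂ (SS X a₁ a₂ D) := by
  rintro b ⟨h1, h2⟩
  refine ⟨h1, ?_⟩
  intro x hx hT
  rw [SS, Finset.mem_filter] at hx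
  obtain ⟨hxX, hx⟩ := hx
  simp only [mem_ofPred_eq] at h1 h2
  obtain ⟨ht1, ht2, ht3⟩ := hT
  simp only [mem_ofPred_eq] at ht1 ht2 ht3
  have o1 : Op b x (a₁ x) := ⟨hX.ne1 x hxX, ht1⟩
  have o2 : Op b x (a₂ x) := ⟨hX.ne2 x hxX, ht2⟩
  have o3 : Op b (a₁ x) (a₂ x) := ⟨hX.ne3 x hxX, ht3⟩
  have hxC : x ∈ Cl Finset.univ {v} b := by
    rw [Finset.not_disjoint_iff] at hx
    obtain ⟨y, hyD, hy⟩ := hx
    rw [← h1] at hyD
    simp only [Finset.mem_insert, Finset.mem_singleton] at hy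
    rcases hy with rfl | rfl | rfl
    · exact hyD
    · exact Cl_step hyD o1.symm (Finset.mem_univ _)
    · exact Cl_step hyD o2.symm (Finset.mem_univ _)
  exact h2 ⟨x, hxC, a₁ x, Cl_step hxC o1 (Finset.mem_univ _), a₂ x,
    Cl_step hxC o2 (Finset.mem_univ _), o1, o3, o2⟩

/-- The cluster of `v` is unlikely to contain many vertices of `X` and no triangle. -/
lemma prob_noTri (hX : TriFam X a₁ a₂) (ht : 0 ≤ t) (ht1 : t ≤ 1) (hp0 : ∀ e, 0 ≤ p e)
    (hp2 : ∀ e, p e ≤ 1 / 2)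
    (h1 : ∀ x ∈ X, t ≤ p s(x, a₁ x)) (h2 : ∀ x ∈ X, t ≤ p s(x, a₂ x))
    (h3 : ∀ x ∈ X, t ≤ p s(a₁ x, a₂ x)) (v : V) (M : ℕ) :
    (law p).real ({b | M ≤ (Cl Finset.univ {v} b ∩ X).card} ∩
      {b | NoTri (Cl Finset.univ {v} b) b}) ≤ (1 - t ^ 3) ^ M := by
  have ht3 : t ^ 3 ≤ 1 := pow_le_one₀ ht ht1
  have ht30 : 0 ≤ t ^ 3 := by positivity
  have hpos := (NF_bounds hX ht hp0 hp2 h1 h2 h3 X le_rfl).1
  refine le_of_mul_le_mul_right ?_ hpos
  set E : Set (Sym2 V → Bool) := {b | M ≤ (Cl Finset.univ {v} b ∩ X).card} ∩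
      {b | NoTri (Cl Finset.univ {v} b) b} with hE
  rw [← sum_fiber_inter p (fun b => Cl Finset.univ {v} b) E]
  have hfib := sum_fiber_inter p (fun b => Cl Finset.univ {v} b) (NF a₁ a₂ X)
  conv_rhs => rw [← hfib]
  rw [Finset.sum_mul, Finset.mul_sum]
  refine Finset.sum_le_sum fun D _ => ?_
  by_cases hM : M ≤ (D ∩ X).card
  · have hsub : SS X a₁ a₂ D ⊆ X := Finset.filter_subset _ _
    have hXeq : SS X a₁ a₂ D ∪ (X \ SS X a₁ a₂ D) = X := Finset.union_sdiff_of_subset hsub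
    have hdisj : Disjoint (SS X a₁ a₂ D) (X \ SS X a₁ a₂ D) := Finset.disjoint_sdiff
    have hcard : M ≤ (SS X a₁ a₂ D).card := by
      refine hM.trans (Finset.card_le_card fun x hx => ?_)
      rw [Finset.mem_inter] at hx
      rw [SS, Finset.mem_filter]
      refine ⟨hx.2, ?_⟩
      rw [Finset.not_disjoint_iff]
      exact ⟨x, hx.1, by simp⟩
    have e1 : (law p).real ({b | Cl Finset.univ {v} b = D} ∩ E) ≤
        (law p).real ({b | Cl Finset.univ {v} b = D} ∩ NF a₁ a₂ (SS X a₁ a₂ D)) := by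
      refine measureReal_mono ?_ (measure_ne_top _ _)
      refine Set.Subset.trans ?_ (noTri_subset hX D v)
      rintro b ⟨hb1, hb2⟩
      exact ⟨hb1, hb2.2⟩
    have e2 : (law p).real (NF a₁ a₂ X) = (law p).real (NF a₁ a₂ (SS X a₁ a₂ D)) *
        (law p).real (NF a₁ a₂ (X \ SS X a₁ a₂ D)) := by
      conv_lhs => rw [← hXeq]
      exact NF_inter hX hsub Finset.sdiff_subset hdisj
    have e3 : (law p).real ({b | Cl Finset.univ {v} b = D} ∩ NF a₁ a₂ X) =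
        (law p).real ({b | Cl Finset.univ {v} b = D} ∩ NF a₁ a₂ (SS X a₁ a₂ D)) *
        (law p).real (NF a₁ a₂ (X \ SS X a₁ a₂ D)) := by
      conv_lhs => rw [← hXeq]
      rw [NF_union, ← Set.inter_assoc]
      refine law_inter p MeasurableSet.of_discrete MeasurableSet.of_discrete
        (S := touchE D ∪ {e | ∃ x ∈ SS X a₁ a₂ D, e ∈ inE ({x, a₁ x, a₂ x} : Finset V)})
        (((depOn_Cl_eq Finset.univ {v} D).mono ?_).inter ((depOn_NF _).mono
          Set.subset_union_right)) (depOn_NF _) ?_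
      · exact Set.inter_subset_right.trans Set.subset_union_left
      · rw [Set.disjoint_union_left]
        refine ⟨?_, disj_dep hX hsub Finset.sdiff_subset hdisj⟩
        rw [Set.disjoint_left]
        rintro e he ⟨x, hx, hex⟩
        rw [Finset.mem_sdiff, SS, Finset.mem_filter] at hx
        have hx2 : Disjoint D {x, a₁ x, a₂ x} := by
          by_contra hcon
          exact hx.2 ⟨hx.1, hcon⟩
        exact (Set.disjoint_left.1 (disjoint_touchE_inE hx2)) he hex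
    have e4 := (NF_bounds hX ht hp0 hp2 h1 h2 h3 (SS X a₁ a₂ D) hsub).2
    have e5 : (1 - t ^ 3) ^ (SS X a₁ a₂ D).card ≤ (1 - t ^ 3) ^ M :=
      pow_le_pow_of_le_one (by linarith) (by linarith) hcard
    rw [e2, e3]
    have e6 : 0 ≤ (law p).real ({b | Cl Finset.univ {v} b = D} ∩ NF a₁ a₂ (SS X a₁ a₂ D)) :=
      measureReal_nonneg
    have e7 : 0 ≤ (law p).real (NF a₁ a₂ (X \ SS X a₁ a₂ D)) := measureReal_nonneg
    have e8 : 0 ≤ (law p).real (NF a₁ a₂ (SS X a₁ a₂ D)) := measureReal_nonneg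
    calc _ ≤ (law p).real ({b | Cl Finset.univ {v} b = D} ∩ NF a₁ a₂ (SS X a₁ a₂ D)) *
        ((law p).real (NF a₁ a₂ (SS X a₁ a₂ D)) *
        (law p).real (NF a₁ a₂ (X \ SS X a₁ a₂ D))) :=
          mul_le_mul_of_nonneg_right e1 (mul_nonneg e8 e7)
      _ ≤ (law p).real ({b | Cl Finset.univ {v} b = D} ∩ NF a₁ a₂ (SS X a₁ a₂ D)) *
        ((1 - t ^ 3) ^ M * (law p).real (NF a₁ a₂ (X \ SS X a₁ a₂ D))) :=
          mul_le_mul_of_nonneg_left (mul_le_mul_of_nonneg_right (e4.trans e5) e7) e6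
      _ = _ := by ring
  · have hemp : ({b | Cl Finset.univ {v} b = D} ∩ E : Set (Sym2 V → Bool)) = ∅ := by
      ext b
      simp only [hE, mem_inter_iff, mem_ofPred_eq, mem_empty_iff_false, iff_false, not_and]
      intro hb1 hb2
      rw [hb1] at hb2
      exact absurd hb2 hM
    rw [hemp, measureReal_empty, zero_mul]
    exact mul_nonneg (pow_nonneg (by linarith) _) measureReal_nonneg

/-- Large clusters contain triangles. -/
lemma prob_exists_noTri {J : Type*} [Fintype J] [Nonempty J] {Y : J → Finset V}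
    (hcov : ∀ v, ∃ j, v ∈ Y j)
    (hX : ∀ j, TriFam (Y j) a₁ a₂) (ht : 0 ≤ t) (ht1 : t ≤ 1) (hp0 : ∀ e, 0 ≤ p e)
    (hp2 : ∀ e, p e ≤ 1 / 2)
    (h1 : ∀ x, t ≤ p s(x, a₁ x)) (h2 : ∀ x, t ≤ p s(x, a₂ x))
    (h3 : ∀ x, t ≤ p s(a₁ x, a₂ x)) (K M : ℕ) (hK : Fintype.card J * M ≤ K) :
    (law p).real {b | ∃ v, K ≤ (Cl Finset.univ {v} b).card ∧ NoTri (Cl Finset.univ {v} b) b} ≤
      Fintype.card V * (Fintype.card J * (1 - t ^ 3) ^ M) := by
  have hsub : {b : Sym2 V → Bool | ∃ v, K ≤ (Cl Finset.univ {v} b).card ∧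
      NoTri (Cl Finset.univ {v} b) b} ⊆
      ⋃ v ∈ (Finset.univ : Finset V), ⋃ j ∈ (Finset.univ : Finset J),
        ({b | M ≤ (Cl Finset.univ {v} b ∩ Y j).card} ∩ {b | NoTri (Cl Finset.univ {v} b) b}) := by
    rintro b ⟨v, hv1, hv2⟩
    simp only [Set.mem_iUnion, Finset.mem_univ, exists_prop, true_and]
    refine ⟨v, ?_⟩
    by_contra hcon
    push_neg at hcon
    have h4 : ∀ j, (Cl Finset.univ {v} b ∩ Y j).card < M := by
      intro j
      by_contra h5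
      exact hcon j ⟨not_lt.1 h5, hv2⟩
    have h5 : (Cl Finset.univ {v} b).card ≤ ∑ j : J, (Cl Finset.univ {v} b ∩ Y j).card := by
      refine le_trans (Finset.card_le_card ?_) Finset.card_biUnion_le
      intro x hx
      obtain ⟨j, hj⟩ := hcov x
      exact Finset.mem_biUnion.2 ⟨j, Finset.mem_univ _, Finset.mem_inter.2 ⟨hx, hj⟩⟩
    have h6 : ∑ j : J, (Cl Finset.univ {v} b ∩ Y j).card < ∑ _j : J, M :=
      Finset.sum_lt_sum_of_nonempty Finset.univ_nonempty fun j _ => h4 j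
    simp only [Finset.sum_const, Finset.card_univ, smul_eq_mul] at h6
    omega
  refine (measureReal_mono hsub (measure_ne_top _ _)).trans ?_
  refine (measureReal_biUnion_finset_le _ _).trans ?_
  calc _ ≤ ∑ _v : V, (Fintype.card J * (1 - t ^ 3) ^ M : ℝ) := by
        refine Finset.sum_le_sum fun v _ => ?_
        refine (measureReal_biUnion_finset_le _ _).trans ?_
        calc _ ≤ ∑ _j : J, ((1 - t ^ 3) ^ M : ℝ) := by
              refine Finset.sum_le_sum fun j _ => ?_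
              exact prob_noTri (hX j) ht ht1 hp0 hp2 (fun x _ => h1 x) (fun x _ => h2 x)
                (fun x _ => h3 x) v M
          _ = _ := by simp
    _ = _ := by simp

end Pool.Agent.Lib.Pc53cb9
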