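import Mathlib
import Pool.Agent.Lib.Pc53cb9.Tail
import Pool.Agent.Lib.Pc53cb9.Triangles

/-!
Upper bound for the largest cluster, and the finite-volume combination of all the estimates.
-/

set_option linter.unusedSectionVars false

open MeasureTheory Set
open scoped unitInterval

namespace Pool.Agent.Lib.Pc53cb9

open Pool.Agent.Lib.H98

variable {V : Type*} [Fintype V] [DecidableEq V] {p : Sym2 V → ℝ}

lemma quad_bound {u h η : ℝ} (hu : 0 ≤ u) (hh : 0 ≤ h) (hη : 0 ≤ η) (H : u ^ 2 / 4 ≤ h + η * u) :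
    u ≤ 8 * η + Real.sqrt (8 * h) := by
  have h1 : 0 ≤ Real.sqrt (8 * h) := Real.sqrt_nonneg _
  have h2 : Real.sqrt (8 * h) ^ 2 = 8 * h := Real.sq_sqrt (by positivity)
  by_contra hcon
  push Not at hcon
  have h3 : Real.sqrt (8 * h) < u - 8 * η := by linarith
  have h4 : Real.sqrt (8 * h) ^ 2 ≤ (u - 8 * η) ^ 2 := pow_le_pow_left₀ h1 h3.le 2
  have h5 : 0 < u - 8 * η := lt_of_le_of_lt h1 h3
  nlinarith [mul_pos h5 (lt_of_lt_of_le h5 (by linarith : u - 8 * η ≤ u)), mul_nonneg hη hu]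

/-- Upper bound for the tail of the cluster size. -/
lemma tail_upper [Nonempty V] (hp0 : ∀ e, 0 ≤ p e) (hp2 : ∀ e, p e ≤ 1 / 2)
    (hpd : ∀ x, p s(x, x) = 0) {η : ℝ} (hη : 0 ≤ η) (hsum : ∀ x, ∑ y, p s(x, y) ≤ 1 + η)
    (hsq : ∀ x, ∑ y, p s(x, y) ^ 2 ≤ 1 / 8) (m : ℕ) (hm : 1 ≤ m) (x : V) :
    (law p).real {b | m ≤ (Cl Finset.univ {x} b).card} ≤
      2 * (8 * η + Real.sqrt (8 * (1 / m))) := by
  have hm' : (0 : ℝ) < m := by exact_mod_cast hm
  obtain ⟨u, hu0, hu1, hu2, hu3⟩ := one_sub_Phi_le (h := 1 / m) hp0 hp2 hpd hsum hsq (by positivity)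
  have h1 := quad_bound hu0 (by positivity) hη hu2
  have h2 := tail_le (p := p) m hm x
  have h3 := hu3 x
  linarith

/-- The existence of a large cluster is unlikely. -/
lemma prob_exists_large [Nonempty V] (hp0 : ∀ e, 0 ≤ p e) (hp2 : ∀ e, p e ≤ 1 / 2)
    (hpd : ∀ x, p s(x, x) = 0) {η : ℝ} (hη : 0 ≤ η) (hsum : ∀ x, ∑ y, p s(x, y) ≤ 1 + η)
    (hsq : ∀ x, ∑ y, p s(x, y) ^ 2 ≤ 1 / 8) (m : ℕ) (hm : 1 ≤ m) :
    (law p).real {b | ∃ x, m ≤ (Cl Finset.univ {x} b).card} ≤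
      Fintype.card V / m * (2 * (8 * η + Real.sqrt (8 * (1 / m)))) := by
  have hm' : (0 : ℝ) < m := by exact_mod_cast hm
  have h1 : ∀ b : Sym2 V → Bool,
      {b : Sym2 V → Bool | ∃ x, m ≤ (Cl Finset.univ {x} b).card}.indicator
        (fun _ => (m : ℝ)) b ≤ bigCount m b := by
    intro b
    by_cases hb : ∃ x, m ≤ (Cl Finset.univ {x} b).card
    · rw [Set.indicator_of_mem (show b ∈ {b : Sym2 V → Bool |
        ∃ x, m ≤ (Cl Finset.univ {x} b).card} from hb)]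
      obtain ⟨x, hx⟩ := hb
      refine Nat.cast_le.2 (hx.trans ?_)
      unfold bigCount
      refine Finset.card_le_card fun y hy => ?_
      rw [Finset.mem_filter]
      refine ⟨Finset.mem_univ _, ?_⟩
      rw [Cl_eq_of_mem hy]
      exact hx
    · rw [Set.indicator_of_notMem (show b ∉ {b : Sym2 V → Bool |
        ∃ x, m ≤ (Cl Finset.univ {x} b).card} from hb)]
      positivity
  have h2 := integral_le p h1
  rw [integral_indicator MeasurableSet.of_discrete, setIntegral_const, smul_eq_mul,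
    integral_bigCount] at h2
  have h3 : ∑ x : V, (law p).real {b | m ≤ (Cl Finset.univ {x} b).card} ≤
      Fintype.card V * (2 * (8 * η + Real.sqrt (8 * (1 / m)))) := by
    calc _ ≤ ∑ _x : V, (2 * (8 * η + Real.sqrt (8 * (1 / m)))) :=
          Finset.sum_le_sum fun x _ => tail_upper hp0 hp2 hpd hη hsum hsq m hm x
      _ = _ := by simp
  rw [div_mul_eq_mul_div, le_div_iff₀ hm']
  exact h2.trans h3

open Classical in
/-- The set of clusters of size at least `K`. -/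
noncomputable def bigCl (K : ℕ) (b : Sym2 V → Bool) : Finset (Finset V) :=
  (Finset.univ.image fun x : V => Cl Finset.univ {x} b).filter fun C => K ≤ C.card

lemma mem_bigCl {K : ℕ} {b : Sym2 V → Bool} {C : Finset V} :
    C ∈ bigCl K b ↔ (∃ x, Cl Finset.univ {x} b = C) ∧ K ≤ C.card := by
  simp [bigCl]

lemma bigCount_le_bigCl {K m : ℕ} {b : Sym2 V → Bool}
    (hm : ∀ x, (Cl Finset.univ {x} b).card ≤ m) : bigCount K b ≤ (bigCl K b).card * m := by
  classical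
  have h1 : (Finset.univ.filter fun x : V => K ≤ (Cl Finset.univ {x} b).card) ⊆
      (bigCl K b).biUnion id := by
    intro x hx
    rw [Finset.mem_filter] at hx
    refine Finset.mem_biUnion.2 ⟨Cl Finset.univ {x} b, mem_bigCl.2 ⟨⟨x, rfl⟩, hx.2⟩, ?_⟩
    exact Cl_start (Finset.mem_singleton_self _) (Finset.mem_univ _)
  have h2 : bigCount K b ≤ ((bigCl K b).biUnion id).card := by
    unfold bigCount
    refine Finset.card_le_card ?_
    intro x hx
    exact h1 (by simpa using hx)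
  refine h2.trans (Finset.card_biUnion_le_card_mul _ _ _ fun C hC => ?_)
  obtain ⟨⟨x, rfl⟩, _⟩ := mem_bigCl.1 hC
  exact hm x

lemma bigCount_mono {K : ℕ} {b b' : Sym2 V → Bool} (h : ∀ e, b e = true → b' e = true) :
    bigCount K b ≤ bigCount K b' := by
  classical
  unfold bigCount
  refine Finset.card_le_card fun x hx => ?_
  rw [Finset.mem_filter] at hx ⊢
  refine ⟨hx.1, hx.2.trans (Finset.card_le_card ?_)⟩
  exact Cl_mono_config h

/-- The good event: at least `i` clusters of size at least `K`, and each cluster of size at least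
`K` contains a triangle. -/
def Good (i K : ℕ) (b : Sym2 V → Bool) : Prop :=
  i ≤ (bigCl K b).card ∧ ∀ v, K ≤ (Cl Finset.univ {v} b).card → ¬ NoTri (Cl Finset.univ {v} b) b

variable {a₁ a₂ : V → V}

/-- The finite-volume estimate. -/
theorem prob_not_good [Nonempty V] {p₁ p₂ : Sym2 V → ℝ} {c R w η t : ℝ} {K m M i : ℕ}
    (hle : ∀ e, p₁ e ≤ p₂ e)
    (H : GoodKernel p₁ (1 - w) c R) (hR : 0 ≤ R)
    (hw0 : 0 < w) (hw1 : w ≤ 1 / 4)
    (herr : 2 * R / c ^ 2 + 2 * w⁻¹ ^ 2 / (Fintype.card V - 1 : ℝ) ≤ w / 16)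
    (hK1 : 1 ≤ K) (hK : 4096 * K * w ^ 2 ≤ 1)
    (hp2 : ∀ e, p₂ e ≤ 1 / 2) (hpd : ∀ x, p₂ s(x, x) = 0) (hη : 0 ≤ η)
    (hsum : ∀ x, ∑ y, p₂ s(x, y) ≤ 1 + η)
    (hsq : ∀ x, ∑ y, p₂ s(x, y) ^ 2 ≤ 1 / 8) (hm : 1 ≤ m)
    {J : Type*} [Fintype J] [Nonempty J] {Y : J → Finset V} (hcov : ∀ v, ∃ j, v ∈ Y j)
    (hX : ∀ j, TriFam (Y j) a₁ a₂) (ht : 0 ≤ t) (ht1 : t ≤ 1)
    (h1 : ∀ x, t ≤ p₂ s(x, a₁ x)) (h2 : ∀ x, t ≤ p₂ s(x, a₂ x))
    (h3 : ∀ x, t ≤ p₂ s(a₁ x, a₂ x)) (hM : Fintype.card J * M ≤ K)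
    (hi : i * m ≤ Fintype.card V * w / 16) :
    (labels V).real {ω | ¬ Good i K (conf p₂ ω)} ≤
      256 / (Fintype.card V * w ^ 3) +
      Fintype.card V / m * (2 * (8 * η + Real.sqrt (8 * (1 / m)))) +
      Fintype.card V * (Fintype.card J * (1 - t ^ 3) ^ M) := by
  have hp0 : ∀ e, 0 ≤ p₂ e := fun e => (H.nonneg e).trans (hle e)
  have hp12 : ∀ e, p₁ e ≤ 1 / 2 := fun e => (hle e).trans (hp2 e)
  have hsq1 : ∀ x, ∑ y, p₁ s(x, y) ^ 2 ≤ 1 / 8 := fun x =>
    (Finset.sum_le_sum fun y _ => pow_le_pow_left₀ (H.nonneg _) (hle _) 2).trans (hsq x)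
  have hconf : ∀ ω e, conf p₁ ω e = true → conf p₂ ω e = true := by
    intro ω e h
    simp only [conf, decide_eq_true_eq] at h ⊢
    exact h.trans_le (hle e)
  have hsub : {ω : Sym2 V → I | ¬ Good i K (conf p₂ ω)} ⊆
      (conf p₁ ⁻¹' {b | (bigCount K b : ℝ) < Fintype.card V * w / 16} ∪
      conf p₂ ⁻¹' {b | ∃ x, m ≤ (Cl Finset.univ {x} b).card}) ∪
      conf p₂ ⁻¹' {b | ∃ v, K ≤ (Cl Finset.univ {v} b).card ∧ NoTri (Cl Finset.univ {v} b) b} := by
    intro ω hω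
    by_contra hcon
    simp only [mem_union, mem_preimage, mem_ofPred_eq, not_or, not_lt, not_exists, not_le,
      not_and] at hcon
    obtain ⟨⟨c1, c2⟩, c3⟩ := hcon
    refine hω ⟨?_, c3⟩
    have hm' : (0 : ℝ) < m := by exact_mod_cast hm
    have e1 : (bigCount K (conf p₁ ω) : ℝ) ≤ bigCount K (conf p₂ ω) :=
      Nat.cast_le.2 (bigCount_mono (hconf ω))
    have e2 : (bigCount K (conf p₂ ω) : ℝ) ≤ (bigCl K (conf p₂ ω)).card * m := by
      exact_mod_cast bigCount_le_bigCl fun x => (c2 x).le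
    have e3 : (i : ℝ) * m ≤ (bigCl K (conf p₂ ω)).card * m := by linarith
    exact_mod_cast le_of_mul_le_mul_right e3 hm'
  have hmap : ∀ (p : Sym2 V → ℝ) (A : Set (Sym2 V → Bool)),
      (labels V).real (conf p ⁻¹' A) = (law p).real A := by
    intro p A
    rw [← map_conf p, map_measureReal_apply (measurable_conf p) MeasurableSet.of_discrete]
  refine (measureReal_mono hsub (measure_ne_top _ _)).trans ?_
  refine (measureReal_union_le _ _).trans (add_le_add ((measureReal_union_le _ _).trans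
    (add_le_add ?_ ?_)) ?_)
  · rw [hmap]
    exact prob_bigCount_small H hR hw0 hw1 hp12 hsq1 herr K hK1 hK
  · rw [hmap]
    exact prob_exists_large hp0 hp2 hpd hη hsum hsq m hm
  · rw [hmap]
    exact prob_exists_noTri hcov hX ht ht1 hp0 hp2 h1 h2 h3 K M hM

end Pool.Agent.Lib.Pc53cb9
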