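import Mathlib
import Pool.Agent.Lib.Pc53cb9.Triangles

/-!
The hierarchical structure on `Fin n → T`.
-/

set_option linter.unusedSectionVars false

open Finset

namespace Pool.Agent.Lib.Pc53cb9

variable {T : Type*} [Fintype T] [DecidableEq T] {n : ℕ}

/-- The largest index (counted from one) at which `x` and `y` differ, and `0` if `x = y`. -/
def lev (x y : Fin n → T) : ℕ := (univ.filter fun j => x j ≠ y j).sup fun j => (j : ℕ) + 1

lemma lev_le_iff {x y : Fin n → T} {k : ℕ} : lev x y ≤ k ↔ ∀ j, x j ≠ y j → (j : ℕ) + 1 ≤ k := by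
  simp [lev, Finset.sup_le_iff]

lemma lev_comm (x y : Fin n → T) : lev x y = lev y x := by
  unfold lev
  simp_rw [ne_comm]

lemma lev_eq_zero {x y : Fin n → T} : lev x y = 0 ↔ x = y := by
  rw [← Nat.le_zero, lev_le_iff]
  constructor
  · intro h
    funext j
    by_contra hj
    have := h j hj
    omega
  · rintro rfl j hj
    exact absurd rfl hj

lemma lev_self (x : Fin n → T) : lev x x = 0 := lev_eq_zero.2 rfl

lemma lev_le (x y : Fin n → T) : lev x y ≤ n := lev_le_iff.2 fun j _ => j.2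

lemma lev_snoc (x y : Fin n → T) (a c : T) :
    lev (Fin.snoc x a : Fin (n + 1) → T) (Fin.snoc y c) = if a = c then lev x y else n + 1 := by
  split_ifs with h
  · subst h
    apply le_antisymm
    · rw [lev_le_iff]
      intro j hj
      induction j using Fin.lastCases with
      | last => simp at hj
      | cast j =>
        simp only [Fin.snoc_castSucc] at hj
        simpa using (lev_le_iff.1 (le_refl (lev x y))) j hj
    · rw [lev_le_iff]
      intro j hj
      have := (lev_le_iff.1 (le_refl (lev (Fin.snoc x a : Fin (n + 1) → T) (Fin.snoc y a))))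
        j.castSucc (by simpa using hj)
      simpa using this
  · apply le_antisymm (lev_le _ _)
    have := (lev_le_iff.1 (le_refl (lev (Fin.snoc x a : Fin (n + 1) → T) (Fin.snoc y c))))
      (Fin.last n) (by simpa using h)
    simpa using this

lemma sum_lev (F : ℕ → ℝ) (x : Fin n → T) :
    ∑ y, F (lev x y) = F 0 + ∑ k ∈ range n,
      ((Fintype.card T : ℝ) - 1) * (Fintype.card T : ℝ) ^ k * F (k + 1) := by
  induction n with
  | zero => simp [lev]
  | succ n ih =>
    rw [Finset.sum_range_succ]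
    obtain ⟨x', a, rfl⟩ : ∃ (x' : Fin n → T) (a : T), x = Fin.snoc x' a :=
      ⟨Fin.init x, x (Fin.last n), (Fin.snoc_init_self x).symm⟩
    rw [← (Fin.snocEquiv fun _ : Fin (n + 1) => T).sum_comp]
    rw [Fintype.sum_prod_type]
    have h1 : ∀ (c : T) (y : Fin n → T), F (lev (Fin.snoc x' a : Fin (n + 1) → T)
        ((Fin.snocEquiv fun _ : Fin (n + 1) => T) (c, y))) =
        if a = c then F (lev x' y) else F (n + 1) := by
      intro c y
      have : (Fin.snocEquiv fun _ : Fin (n + 1) => T) (c, y) = Fin.snoc y c := rfl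
      rw [this, lev_snoc]
      split_ifs <;> rfl
    simp_rw [h1]
    have h2 : ∀ c : T, ∑ y : Fin n → T, (if a = c then F (lev x' y) else F (n + 1)) =
        if a = c then ∑ y, F (lev x' y) else (Fintype.card T : ℝ) ^ n * F (n + 1) := by
      intro c
      split_ifs
      · rfl
      · simp
    simp_rw [h2]
    rw [Finset.sum_ite, Finset.sum_const, Finset.sum_const]
    have h3 : (univ.filter fun c => a = c).card = 1 := by
      rw [Finset.card_eq_one]
      exact ⟨a, by ext c; simp [eq_comm]⟩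
    have h4 : ((univ.filter fun c => ¬ a = c).card : ℝ) = (Fintype.card T : ℝ) - 1 := by
      have h5 := Finset.card_filter_add_card_filter_not (s := (univ : Finset T)) (fun c => a = c)
      rw [h3, Finset.card_univ] at h5
      have : ((1 + (univ.filter fun c => ¬ a = c).card : ℕ) : ℝ) = Fintype.card T := by
        exact_mod_cast h5
      push_cast at this
      linarith
    rw [h3, nsmul_eq_mul, nsmul_eq_mul, h4, ih x']
    push_cast
    ring

/-! ## Local triangles -/

/-- Replace the first two coordinates. -/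
def setc (u : Fin 2 → T) (x : Fin n → T) : Fin n → T :=
  fun j => if h : (j : ℕ) < 2 then u ⟨j, h⟩ else x j

/-- The first two coordinates. -/
def getc (hn : 2 ≤ n) (x : Fin n → T) : Fin 2 → T := fun j => x ⟨j, by omega⟩

lemma getc_setc (hn : 2 ≤ n) (u : Fin 2 → T) (x : Fin n → T) : getc hn (setc u x) = u := by
  funext j
  unfold getc setc
  exact dif_pos j.2

lemma setc_of_le (u : Fin 2 → T) (x : Fin n → T) {j : Fin n} (hj : 2 ≤ (j : ℕ)) :
    setc u x j = x j := by
  simp [setc, not_lt.2 hj]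

lemma ext_getc (hn : 2 ≤ n) {x y : Fin n → T} (h : getc hn x = getc hn y)
    (h' : ∀ j : Fin n, 2 ≤ (j : ℕ) → x j = y j) : x = y := by
  funext j
  by_cases hj : 2 ≤ (j : ℕ)
  · exact h' j hj
  · exact congrFun h ⟨j, by omega⟩

/-- A choice of two further points of `T²`. -/
lemma exists_phi (hT : 2 ≤ Fintype.card T) : ∃ φ₁ φ₂ : (Fin 2 → T) → (Fin 2 → T),
    ∀ u, u ≠ φ₁ u ∧ u ≠ φ₂ u ∧ φ₁ u ≠ φ₂ u := by
  have h : ∀ u : Fin 2 → T, ∃ v w : Fin 2 → T, u ≠ v ∧ u ≠ w ∧ v ≠ w := by
    intro u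
    have h1 : 1 < ((univ : Finset (Fin 2 → T)).erase u).card := by
      rw [Finset.card_erase_of_mem (mem_univ _), Finset.card_univ, Fintype.card_fun,
        Fintype.card_fin]
      have : 2 ^ 2 ≤ Fintype.card T ^ 2 := Nat.pow_le_pow_left hT 2
      omega
    obtain ⟨v, hv, w, hw, hvw⟩ := Finset.one_lt_card.1 h1
    exact ⟨v, w, (Finset.ne_of_mem_erase hv).symm, (Finset.ne_of_mem_erase hw).symm, hvw⟩
  choose φ₁ φ₂ h using h
  exact ⟨φ₁, φ₂, h⟩

lemma exists_triFam (hn : 2 ≤ n) (hT : 2 ≤ Fintype.card T) :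
    ∃ (a₁ a₂ : (Fin n → T) → (Fin n → T)) (Y : (Fin 2 → T) → Finset (Fin n → T)),
      (∀ v, ∃ j, v ∈ Y j) ∧ (∀ j, TriFam (Y j) a₁ a₂) ∧
      ∀ x, (1 ≤ lev x (a₁ x) ∧ lev x (a₁ x) ≤ 2) ∧ (1 ≤ lev x (a₂ x) ∧ lev x (a₂ x) ≤ 2) ∧
        (1 ≤ lev (a₁ x) (a₂ x) ∧ lev (a₁ x) (a₂ x) ≤ 2) := by
  obtain ⟨φ₁, φ₂, hφ⟩ := exists_phi hT
  set a₁ : (Fin n → T) → (Fin n → T) := fun x => setc (φ₁ (getc hn x)) x with ha₁
  set a₂ : (Fin n → T) → (Fin n → T) := fun x => setc (φ₂ (getc hn x)) x with ha₂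
  have g1 : ∀ x, getc hn (a₁ x) = φ₁ (getc hn x) := fun x => getc_setc hn _ _
  have g2 : ∀ x, getc hn (a₂ x) = φ₂ (getc hn x) := fun x => getc_setc hn _ _
  have t1 : ∀ x, ∀ j : Fin n, 2 ≤ (j : ℕ) → a₁ x j = x j := fun x j hj => setc_of_le _ _ hj
  have t2 : ∀ x, ∀ j : Fin n, 2 ≤ (j : ℕ) → a₂ x j = x j := fun x j hj => setc_of_le _ _ hj
  have n1 : ∀ x, x ≠ a₁ x := fun x h => (hφ (getc hn x)).1 (by rw [← g1 x, ← h])
  have n2 : ∀ x, x ≠ a₂ x := fun x h => (hφ (getc hn x)).2.1 (by rw [← g2 x, ← h])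
  have n3 : ∀ x, a₁ x ≠ a₂ x := fun x h => (hφ (getc hn x)).2.2 (by rw [← g1 x, ← g2 x, ← h])
  have hlev : ∀ x y : Fin n → T, x ≠ y → (∀ j : Fin n, 2 ≤ (j : ℕ) → x j = y j) →
      1 ≤ lev x y ∧ lev x y ≤ 2 := by
    intro x y hxy h
    constructor
    · by_contra hcon
      exact hxy (lev_eq_zero.1 (by omega))
    · rw [lev_le_iff]
      intro j hj
      by_contra hcon
      exact hj (h j (by omega))
  refine ⟨a₁, a₂, fun u => univ.filter fun x => getc hn x = u, ?_, ?_, ?_⟩
  · intro v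
    exact ⟨getc hn v, by simp⟩
  · intro u
    refine ⟨fun x _ => n1 x, fun x _ => n2 x, fun x _ => n3 x, ?_⟩
    intro x hx y hy hxy
    rw [Finset.mem_filter] at hx hy
    rw [Finset.disjoint_left]
    intro z hz1 hz2
    have e1 : ∀ j : Fin n, 2 ≤ (j : ℕ) → z j = x j := by
      simp only [Finset.mem_insert, Finset.mem_singleton] at hz1
      rcases hz1 with rfl | rfl | rfl
      · exact fun _ _ => rfl
      · exact t1 x
      · exact t2 x
    have e2 : ∀ j : Fin n, 2 ≤ (j : ℕ) → z j = y j := by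
      simp only [Finset.mem_insert, Finset.mem_singleton] at hz2
      rcases hz2 with rfl | rfl | rfl
      · exact fun _ _ => rfl
      · exact t1 y
      · exact t2 y
    exact hxy (ext_getc hn (hx.2.trans hy.2.symm) fun j hj => (e1 j hj).symm.trans (e2 j hj))
  · intro x
    exact ⟨hlev _ _ (n1 x) fun j hj => (t1 x j hj).symm,
      hlev _ _ (n2 x) fun j hj => (t2 x j hj).symm,
      hlev _ _ (n3 x) fun j hj => (t1 x j hj).trans (t2 x j hj).symm⟩

/-! ## Kernels that are functions of the level -/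

/-- The edge function which is `f k` for pairs at level `k`. -/
def lift (f : ℕ → ℝ) : Sym2 (Fin n → T) → ℝ :=
  Sym2.lift ⟨fun x y => f (lev x y), fun x y => congrArg f (lev_comm x y)⟩

@[simp] lemma lift_mk (f : ℕ → ℝ) (x y : Fin n → T) : lift f s(x, y) = f (lev x y) := rfl

end Pool.Agent.Lib.Pc53cb9
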