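import Mathlib
import Pool.Agent.Lib.Pc53cb9.Hier

/-!
Estimates on the critical parameter and the connection probabilities.
-/

set_option linter.unusedSectionVars false

open Finset

namespace Pool.Agent.Lib.Pc53cb9

/-- `1 - exp (-u) ≥ u / 2` on `[0, 1]`. -/
lemma half_le_one_sub_exp {u : ℝ} (h0 : 0 ≤ u) (h1 : u ≤ 1) : u / 2 ≤ 1 - Real.exp (-u) := by
  have h2 := Real.add_one_le_exp u
  have h3 : Real.exp (-u) * Real.exp u = 1 := by rw [← Real.exp_add]; simp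
  have h4 : 0 < Real.exp (-u) := Real.exp_pos _
  have h5 : Real.exp (-u) * (u + 1) ≤ 1 := by nlinarith
  have h6 : (1 - u / 2) * (u + 1) ≥ 1 := by nlinarith
  nlinarith

lemma one_sub_exp_le (u : ℝ) : 1 - Real.exp (-u) ≤ u := by
  have := Real.add_one_le_exp (-u)
  linarith

lemma exp_le_one_add_two {a : ℝ} (h0 : 0 ≤ a) (h1 : a ≤ 1 / 2) : Real.exp a ≤ 1 + 2 * a := by
  have h2 := Real.add_one_le_exp (-a)
  have h3 : Real.exp (-a) * Real.exp a = 1 := by rw [← Real.exp_add]; simp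
  have h4 : 0 < Real.exp a := Real.exp_pos _
  have h5 : (1 - a) * Real.exp a ≤ 1 := by nlinarith
  have h6 : 1 ≤ (1 - a) * (1 + 2 * a) := by nlinarith
  have h7 : 0 < 1 - a := by linarith
  by_contra hcon
  push Not at hcon
  have := mul_lt_mul_of_pos_left hcon h7
  linarith

/-- The data at a fixed scale `n`. -/
structure ZData (b : ℕ) (β A₁ A₂ : ℝ) (J : ℕ → ℝ) (n : ℕ) (z : ℝ) : Prop where
  hb : 2 ≤ b
  β_pos : 0 < β
  β_lt : β < 1
  r_gt : 1 < b * β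
  sq_lt : b * β ^ 2 < 1
  A_pos : 0 < A₁
  lower : ∀ k, 1 ≤ k → A₁ * β ^ k ≤ J k
  upper : ∀ k, 1 ≤ k → J k ≤ A₂ * β ^ k
  z_pos : 0 < z
  hn : 2 ≤ n
  eq : ∑ k ∈ range n, ((b : ℝ) - 1) * (b : ℝ) ^ k * (1 - Real.exp (-(J (k + 1) / z))) = 1

namespace ZData

variable {b : ℕ} {β A₁ A₂ : ℝ} {J : ℕ → ℝ} {n : ℕ} {z : ℝ}

lemma A_le (H : ZData b β A₁ A₂ J n z) : A₁ ≤ A₂ := by
  have h1 := (H.lower 1 le_rfl).trans (H.upper 1 le_rfl)
  rw [pow_one] at h1
  exact le_of_mul_le_mul_right h1 H.β_pos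

lemma A2_pos (H : ZData b β A₁ A₂ J n z) : 0 < A₂ := H.A_pos.trans_le H.A_le

lemma b2 (H : ZData b β A₁ A₂ J n z) : (2 : ℝ) ≤ b := by exact_mod_cast H.hb

/-- Upper bound on `z`. -/
lemma z_le (H : ZData b β A₁ A₂ J n z) : z ≤ A₂ * (b * β) / (b * β - 1) * (b * β) ^ n := by
  have hb := H.b2
  have hr := H.r_gt
  have hz := H.z_pos
  have h1 : ∀ k ∈ range n, ((b : ℝ) - 1) * (b : ℝ) ^ k * (1 - Real.exp (-(J (k + 1) / z))) ≤
      A₂ * (b * β) / z * (b * β) ^ k := by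
    intro k _
    have e1 : 1 - Real.exp (-(J (k + 1) / z)) ≤ A₂ * β ^ (k + 1) / z :=
      (one_sub_exp_le _).trans (div_le_div_of_nonneg_right (H.upper (k + 1) (by omega)) hz.le)
    have e2 : 0 ≤ A₂ * β ^ (k + 1) / z := by
      have := H.A2_pos; have := H.β_pos; positivity
    calc ((b : ℝ) - 1) * (b : ℝ) ^ k * (1 - Real.exp (-(J (k + 1) / z)))
        ≤ ((b : ℝ) - 1) * (b : ℝ) ^ k * (A₂ * β ^ (k + 1) / z) :=
          mul_le_mul_of_nonneg_left e1 (mul_nonneg (by linarith) (by positivity))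
      _ ≤ (b : ℝ) * (b : ℝ) ^ k * (A₂ * β ^ (k + 1) / z) :=
          mul_le_mul_of_nonneg_right (mul_le_mul_of_nonneg_right (by linarith) (by positivity)) e2
      _ = _ := by rw [mul_pow]; ring
  have h2 := Finset.sum_le_sum h1
  rw [H.eq, ← Finset.mul_sum, geom_sum_eq hr.ne'] at h2
  have h3 : 0 < (b : ℝ) * β - 1 := by linarith
  have h4 : A₂ * (b * β) / z * (((b * β) ^ n - 1) / (b * β - 1)) ≤
      A₂ * (b * β) / z * ((b * β) ^ n / (b * β - 1)) := by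
    refine mul_le_mul_of_nonneg_left (div_le_div_of_nonneg_right (by linarith) h3.le) ?_
    have := H.A2_pos; positivity
  have h5 := h2.trans h4
  have h6 : A₂ * (b * β) / z * ((b * β) ^ n / (b * β - 1)) =
      (A₂ * (b * β) / (b * β - 1) * (b * β) ^ n) / z := by
    field_simp
  rw [h6, le_div_iff₀ hz, one_mul] at h5
  exact h5

lemma q_nonneg (H : ZData b β A₁ A₂ J n z) {k : ℕ} (hk : 1 ≤ k) :
    0 ≤ 1 - Real.exp (-(J k / z)) := by
  have h1 : 0 ≤ J k / z := by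
    have := H.lower k hk
    have h2 : 0 ≤ A₁ * β ^ k := by have := H.A_pos; have := H.β_pos; positivity
    exact div_nonneg (h2.trans this) H.z_pos.le
  have : Real.exp (-(J k / z)) ≤ 1 := by
    rw [Real.exp_le_one_iff]; linarith
  linarith

/-- Lower bound on `z`. -/
lemma le_z (H : ZData b β A₁ A₂ J n z) : A₁ / 4 * (b * β) ^ n ≤ z := by
  have hb := H.b2
  have hz := H.z_pos
  obtain ⟨k, rfl⟩ : ∃ k, n = k + 1 := ⟨n - 1, by have := H.hn; omega⟩
  have h1 : ((b : ℝ) - 1) * (b : ℝ) ^ k * (1 - Real.exp (-(J (k + 1) / z))) ≤ 1 := by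
    have heq := H.eq
    rw [Finset.sum_range_succ] at heq
    have : 0 ≤ ∑ j ∈ range k, ((b : ℝ) - 1) * (b : ℝ) ^ j *
        (1 - Real.exp (-(J (j + 1) / z))) :=
      Finset.sum_nonneg fun j _ => mul_nonneg (mul_nonneg (by linarith)
        (by positivity)) (H.q_nonneg (by omega))
    linarith
  have hbn : (4 : ℝ) ≤ (b : ℝ) ^ (k + 1) := by
    have : (2 : ℝ) ^ 2 ≤ (b : ℝ) ^ (k + 1) :=
      (pow_le_pow_left₀ (by norm_num) hb 2).trans (pow_le_pow_right₀ (by linarith)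
        (by have := H.hn; omega))
    linarith
  set u := J (k + 1) / z with hu
  have hu0 : 0 ≤ u := by
    have := H.lower (k + 1) (by omega)
    have h2 : 0 ≤ A₁ * β ^ (k + 1) := by have := H.A_pos; have := H.β_pos; positivity
    exact div_nonneg (h2.trans this) H.z_pos.le
  have hq0 : 0 ≤ 1 - Real.exp (-u) := H.q_nonneg (by omega)
  have h2 : (b : ℝ) ^ (k + 1) / 2 * (1 - Real.exp (-u)) ≤ 1 := by
    refine le_trans (mul_le_mul_of_nonneg_right ?_ hq0) h1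
    rw [pow_succ]
    have : (0 : ℝ) < (b : ℝ) ^ k := by positivity
    nlinarith
  have h3 : u ≤ 1 := by
    by_contra hcon
    push Not at hcon
    have h4 : 1 - Real.exp (-1) ≤ 1 - Real.exp (-u) := by
      have := Real.exp_le_exp.2 (show -u ≤ -1 by linarith)
      linarith
    have h5 : Real.exp (-1) < 1 / 2 := by
      have h6 : Real.exp (-1) * Real.exp 1 = 1 := by rw [← Real.exp_add]; simp
      have h7 := Real.exp_one_gt_d9
      have h8 : 0 < Real.exp (-1) := Real.exp_pos _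
      nlinarith
    nlinarith
  have h4 := half_le_one_sub_exp hu0 h3
  have h5 : (b : ℝ) ^ (k + 1) / 2 * (u / 2) ≤ 1 :=
    (mul_le_mul_of_nonneg_left h4 (by positivity)).trans h2
  have h6 : A₁ * β ^ (k + 1) / z ≤ u := div_le_div_of_nonneg_right (H.lower _ (by omega)) hz.le
  have h7 : (b : ℝ) ^ (k + 1) / 4 * (A₁ * β ^ (k + 1) / z) ≤ 1 := by
    have := mul_le_mul_of_nonneg_left h6 (show (0 : ℝ) ≤ (b : ℝ) ^ (k + 1) / 4 by positivity)
    linarith
  have h8 : (b : ℝ) ^ (k + 1) / 4 * (A₁ * β ^ (k + 1) / z) = (A₁ / 4 * (b * β) ^ (k + 1)) / z := by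
    rw [mul_pow]; field_simp
  rwa [h8, div_le_iff₀ hz, one_mul] at h7

/-- Upper bound on the connection probabilities. -/
lemma q_le (H : ZData b β A₁ A₂ J n z) {k : ℕ} (hk : 1 ≤ k) :
    1 - Real.exp (-(J k / z)) ≤ 4 * A₂ / A₁ * β ^ k * ((b * β) ^ n)⁻¹ := by
  have hz := H.z_pos
  have hA := H.A_pos
  have hA2 := H.A2_pos
  have hr : (0 : ℝ) < (b * β) ^ n := pow_pos (by linarith [H.r_gt]) _
  have hβ := H.β_pos
  refine (one_sub_exp_le _).trans ?_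
  refine (div_le_div_of_nonneg_right (H.upper k hk) hz.le).trans ?_
  have h1 := H.le_z
  have h2 : A₂ * β ^ k / z ≤ A₂ * β ^ k / (A₁ / 4 * (b * β) ^ n) :=
    div_le_div_of_nonneg_left (by positivity) (by positivity) h1
  refine h2.trans (le_of_eq ?_)
  field_simp

/-- The constant in the lower bounds. -/
noncomputable def c0 (b : ℕ) (β A₁ A₂ : ℝ) : ℝ := A₁ * (b * β - 1) / (A₂ * (b * β))

lemma c0_pos (H : ZData b β A₁ A₂ J n z) : 0 < c0 b β A₁ A₂ := by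
  have := H.A_pos; have := H.A2_pos; have := H.r_gt
  unfold c0
  exact div_pos (mul_pos H.A_pos (by linarith)) (mul_pos H.A2_pos (by linarith))

lemma c0_le (H : ZData b β A₁ A₂ J n z) : c0 b β A₁ A₂ ≤ 1 := by
  have h1 := H.A_pos; have h2 := H.A2_pos; have h3 := H.r_gt
  unfold c0
  rw [div_le_one (mul_pos h2 (by linarith))]
  exact mul_le_mul H.A_le (by linarith) (by linarith) h2.le

lemma q_ge_aux (H : ZData b β A₁ A₂ J n z) {k l : ℕ} (hk : 1 ≤ k) (hkl : k ≤ l) :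
    c0 b β A₁ A₂ / 2 * β ^ l * ((b * β) ^ n)⁻¹ ≤ 1 - Real.exp (-(J k / z)) := by
  have hz := H.z_pos
  have hA := H.A_pos
  have hA2 := H.A2_pos
  have hr1 := H.r_gt
  have hr : (0 : ℝ) < (b * β) ^ n := pow_pos (by linarith [H.r_gt]) _
  have hβ := H.β_pos
  have hc := H.c0_pos
  set u := c0 b β A₁ A₂ * β ^ l * ((b * β) ^ n)⁻¹ with hu
  have hu0 : 0 ≤ u := by positivity
  have hu1 : u ≤ 1 := by
    have e1 : β ^ l ≤ 1 := pow_le_one₀ hβ.le H.β_lt.le
    have e2 : ((b * β) ^ n)⁻¹ ≤ 1 := inv_le_one_of_one_le₀ (one_le_pow₀ hr1.le)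
    calc u ≤ 1 * 1 * 1 := by
          refine mul_le_mul (mul_le_mul H.c0_le e1 (by positivity) (by norm_num)) e2
            (by positivity) (by norm_num)
      _ = 1 := by norm_num
  have h1 : u ≤ J k / z := by
    have e1 : A₁ * β ^ l / (A₂ * (b * β) / (b * β - 1) * (b * β) ^ n) ≤ A₁ * β ^ l / z :=
      div_le_div_of_nonneg_left (by positivity) hz H.z_le
    have e2 : A₁ * β ^ l / (A₂ * (b * β) / (b * β - 1) * (b * β) ^ n) = u := by
      rw [hu, c0]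
      have : (b : ℝ) * β - 1 ≠ 0 := by linarith
      have hb0 : (b : ℝ) ≠ 0 := by have := H.b2; linarith
      field_simp
    rw [← e2]
    refine e1.trans (div_le_div_of_nonneg_right ?_ hz.le)
    refine le_trans ?_ (H.lower k hk)
    exact mul_le_mul_of_nonneg_left (pow_le_pow_of_le_one hβ.le H.β_lt.le hkl) hA.le
  have h2 := half_le_one_sub_exp hu0 hu1
  have h3 : Real.exp (-(J k / z)) ≤ Real.exp (-u) := Real.exp_le_exp.2 (by linarith)
  have h4 : c0 b β A₁ A₂ / 2 * β ^ l * ((b * β) ^ n)⁻¹ = u / 2 := by rw [hu]; ring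
  rw [h4]
  linarith

/-- Lower bound on all the connection probabilities. -/
lemma q_ge (H : ZData b β A₁ A₂ J n z) {k : ℕ} (hk : 1 ≤ k) (hkn : k ≤ n) :
    c0 b β A₁ A₂ / 2 * ((b : ℝ) ^ n)⁻¹ ≤ 1 - Real.exp (-(J k / z)) := by
  refine le_trans (le_of_eq ?_) (H.q_ge_aux hk hkn)
  have := H.β_pos
  have hb0 : (b : ℝ) ≠ 0 := by have := H.b2; linarith
  rw [mul_pow]
  field_simp

/-- Bound on the sum of squares. -/
lemma sum_sq_le (H : ZData b β A₁ A₂ J n z) :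
    ∑ k ∈ range n, ((b : ℝ) - 1) * (b : ℝ) ^ k * (1 - Real.exp (-(J (k + 1) / z))) ^ 2 ≤
      (4 * A₂ / A₁) ^ 2 / (1 - b * β ^ 2) * (((b * β) ^ n)⁻¹) ^ 2 := by
  have hb := H.b2
  have hA := H.A_pos
  have hA2 := H.A2_pos
  have hβ := H.β_pos
  have hr : (0 : ℝ) < (b * β) ^ n := pow_pos (by linarith [H.r_gt]) _
  have h1 : ∀ k ∈ range n, ((b : ℝ) - 1) * (b : ℝ) ^ k *
      (1 - Real.exp (-(J (k + 1) / z))) ^ 2 ≤
      (4 * A₂ / A₁) ^ 2 * (((b * β) ^ n)⁻¹) ^ 2 * (b * β ^ 2) ^ k := by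
    intro k _
    have e1 := H.q_le (k := k + 1) (by omega)
    have e2 := H.q_nonneg (k := k + 1) (by omega)
    have e3 := pow_le_pow_left₀ e2 e1 2
    calc ((b : ℝ) - 1) * (b : ℝ) ^ k * (1 - Real.exp (-(J (k + 1) / z))) ^ 2
        ≤ (b : ℝ) * (b : ℝ) ^ k * (4 * A₂ / A₁ * β ^ (k + 1) * ((b * β) ^ n)⁻¹) ^ 2 :=
          mul_le_mul (mul_le_mul_of_nonneg_right (by linarith) (by positivity)) e3
            (by positivity) (by positivity)
      _ = (4 * A₂ / A₁) ^ 2 * (((b * β) ^ n)⁻¹) ^ 2 * ((b * β ^ 2) ^ k * (b * β ^ 2)) := by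
          rw [show (4 * A₂ / A₁ * β ^ (k + 1) * ((b * β) ^ n)⁻¹) ^ 2 =
            (4 * A₂ / A₁) ^ 2 * (β ^ 2) ^ (k + 1) * (((b * β) ^ n)⁻¹) ^ 2 by ring,
            mul_pow (b : ℝ) (β ^ 2) k, pow_succ (β ^ 2) k]
          ring
      _ ≤ (4 * A₂ / A₁) ^ 2 * (((b * β) ^ n)⁻¹) ^ 2 * ((b * β ^ 2) ^ k * 1) := by
          refine mul_le_mul_of_nonneg_left (mul_le_mul_of_nonneg_left H.sq_lt.le ?_) ?_ <;>
          positivity
      _ = _ := by rw [mul_one]
  refine (Finset.sum_le_sum h1).trans ?_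
  rw [← Finset.mul_sum]
  have h2 : ∑ k ∈ range n, ((b : ℝ) * β ^ 2) ^ k ≤ (1 - b * β ^ 2)⁻¹ := by
    rw [geom_sum_eq (by linarith [H.sq_lt] : (b : ℝ) * β ^ 2 ≠ 1)]
    have h3 : 0 < 1 - (b : ℝ) * β ^ 2 := by linarith [H.sq_lt]
    have h4 : 0 ≤ ((b : ℝ) * β ^ 2) ^ n := by positivity
    rw [← neg_div_neg_eq, neg_sub, neg_sub, ← one_div]
    exact div_le_div_of_nonneg_right (by linarith) h3.le
  calc _ ≤ (4 * A₂ / A₁) ^ 2 * (((b * β) ^ n)⁻¹) ^ 2 * (1 - b * β ^ 2)⁻¹ :=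
        mul_le_mul_of_nonneg_left h2 (by positivity)
    _ = _ := by rw [div_eq_mul_inv]; ring

end ZData

end Pool.Agent.Lib.Pc53cb9
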