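import Mathlib
import Pool.Agent.Lib.Pc53cb9.Zeta
import Pool.Agent.Lib.Pc53cb9.MaxComp

/-!
The finite volume estimate on the hierarchical lattice.
-/

set_option linter.unusedSectionVars false

open MeasureTheory Finset
open scoped unitInterval

namespace Pool.Agent.Lib.Pc53cb9

/-- The connection probabilities of the subcritical comparison percolation. -/
noncomputable def f1 (J : ℕ → ℝ) (z w : ℝ) (k : ℕ) : ℝ :=
  if k = 0 then 0 else (1 - w) * (1 - Real.exp (-(J k / z)))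

/-- The connection probabilities of the critical percolation. -/
noncomputable def f2 (J : ℕ → ℝ) (z s : ℝ) (k : ℕ) : ℝ :=
  if k = 0 then 0 else 1 - Real.exp (-(max (J k / z + s) 0))

lemma f1_succ (J : ℕ → ℝ) (z w : ℝ) (k : ℕ) :
    f1 J z w (k + 1) = (1 - w) * (1 - Real.exp (-(J (k + 1) / z))) := by simp [f1]

lemma f2_succ (J : ℕ → ℝ) (z s : ℝ) (k : ℕ) :
    f2 J z s (k + 1) = 1 - Real.exp (-(max (J (k + 1) / z + s) 0)) := by simp [f2]

lemma exp_max_le (u s : ℝ) : 1 - Real.exp (-(max (u + s) 0)) ≤ 1 - Real.exp (-(max u 0)) + |s| := by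
  have h1 : max (u + s) 0 ≤ max u 0 + |s| := by
    refine max_le ?_ ?_
    · exact add_le_add (le_max_left _ _) (le_abs_self s)
    · exact add_nonneg (le_max_right _ _) (abs_nonneg s)
  have h2 : Real.exp (-(max u 0 + |s|)) ≤ Real.exp (-(max (u + s) 0)) :=
    Real.exp_le_exp.2 (by linarith)
  have h3 : Real.exp (-(max u 0 + |s|)) = Real.exp (-(max u 0)) * Real.exp (-|s|) := by
    rw [← Real.exp_add]; congr 1; ring
  have h4 := Real.add_one_le_exp (-|s|)
  have h5 : 0 < Real.exp (-(max u 0)) := Real.exp_pos _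
  have h6 : Real.exp (-(max u 0)) ≤ 1 := by
    rw [Real.exp_le_one_iff]; linarith [le_max_right u 0]
  have h7 := abs_nonneg s
  nlinarith [mul_le_mul_of_nonneg_left h4 h5.le, mul_le_mul_of_nonneg_right h6 h7]

lemma le_exp_max {u s : ℝ} (hs : |s| ≤ 1 / 2) (hu : 0 ≤ u) :
    1 - Real.exp (-u) - 2 * |s| ≤ 1 - Real.exp (-(max (u + s) 0)) := by
  have h1 : u - |s| ≤ max (u + s) 0 := by
    refine le_trans ?_ (le_max_left _ _)
    linarith [neg_abs_le s]
  have h2 : Real.exp (-(max (u + s) 0)) ≤ Real.exp (-(u - |s|)) := Real.exp_le_exp.2 (by linarith)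
  have h3 : Real.exp (-(u - |s|)) = Real.exp (-u) * Real.exp |s| := by
    rw [← Real.exp_add]; congr 1; ring
  have h4 := exp_le_one_add_two (abs_nonneg s) hs
  have h5 : 0 < Real.exp (-u) := Real.exp_pos _
  have h6 : Real.exp (-u) ≤ 1 := by rw [Real.exp_le_one_iff]; linarith
  have h7 := abs_nonneg s
  nlinarith [mul_le_mul_of_nonneg_left h4 h5.le, mul_le_mul_of_nonneg_right h6 h7]

namespace ZData

variable {b : ℕ} {β A₁ A₂ : ℝ} {J : ℕ → ℝ} {n : ℕ} {z : ℝ}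

lemma J_nonneg (H : ZData b β A₁ A₂ J n z) {k : ℕ} (hk : 1 ≤ k) : 0 ≤ J k / z := by
  have := H.lower k hk
  have h2 : 0 ≤ A₁ * β ^ k := by have := H.A_pos; have := H.β_pos; positivity
  exact div_nonneg (h2.trans this) H.z_pos.le

variable {T : Type*} [Fintype T] [DecidableEq T]

lemma goodKernel (H : ZData b β A₁ A₂ J n z) (hT : Fintype.card T = b) {w : ℝ} (hw0 : 0 < w)
    (hw1 : w < 1) : GoodKernel (lift (n := n) (T := T) (f1 J z w)) (1 - w) (c0 b β A₁ A₂ / 4)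
      ((4 * A₂ / A₁) ^ 2 / (1 - b * β ^ 2) * (((b * β) ^ n)⁻¹) ^ 2) where
  nonneg := by
    intro e
    induction e with
    | h x y =>
      rw [lift_mk, f1]
      split_ifs with h
      · exact le_rfl
      · exact mul_nonneg (by linarith) (H.q_nonneg (by omega))
  diag := by
    intro x
    rw [lift_mk, lev_self]; simp [f1]
  mu_pos := by linarith
  mu_lt := by linarith
  rowsum := by
    intro x
    simp_rw [lift_mk]
    rw [sum_lev, hT]
    have h1 : f1 J z w 0 = 0 := by simp [f1]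
    rw [h1, zero_add]
    have h2 : ∀ k ∈ range n, ((b : ℝ) - 1) * (b : ℝ) ^ k * f1 J z w (k + 1) =
        (1 - w) * (((b : ℝ) - 1) * (b : ℝ) ^ k * (1 - Real.exp (-(J (k + 1) / z)))) := by
      intro k _
      rw [f1_succ]; ring
    rw [Finset.sum_congr rfl h2, ← Finset.mul_sum, H.eq, mul_one]
  c_pos := by have := H.c0_pos; linarith
  c_le := by have := H.c0_le; linarith
  lower := by
    intro x y hxy
    have h1 : 1 ≤ lev x y := by
      by_contra hcon
      exact hxy (lev_eq_zero.1 (by omega))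
    have h2 := H.q_ge h1 (lev_le x y)
    have hcard : (Fintype.card (Fin n → T) : ℝ) = (b : ℝ) ^ n := by
      rw [Fintype.card_fun, hT, Fintype.card_fin]; push_cast; ring
    have hbn : (2 : ℝ) ≤ (b : ℝ) ^ n := by
      have := H.b2
      calc (2 : ℝ) ≤ b := this
        _ = (b : ℝ) ^ 1 := (pow_one _).symm
        _ ≤ (b : ℝ) ^ n := pow_le_pow_right₀ (by linarith) (by have := H.hn; omega)
    rw [lift_mk, f1, if_neg (by omega), hcard, mul_div_assoc]
    refine mul_le_mul_of_nonneg_left (le_trans ?_ h2) (by linarith)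
    have hc := H.c0_pos
    rw [div_le_iff₀ (by linarith)]
    have h3 : (1 : ℝ) / 2 ≤ ((b : ℝ) ^ n)⁻¹ * ((b : ℝ) ^ n - 1) := by
      rw [inv_mul_eq_div, le_div_iff₀ (by linarith)]
      linarith
    nlinarith
  sq := by
    intro x
    have h0 : ∀ y : Fin n → T, lift (f1 J z w) s(x, y) ^ 2 = (fun k => f1 J z w k ^ 2) (lev x y) :=
      fun y => by rw [lift_mk]
    simp_rw [h0]
    rw [sum_lev (fun k => f1 J z w k ^ 2), hT]
    have h1 : f1 J z w 0 = 0 := by simp [f1]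
    simp only [h1]
    have h2 : ∀ k ∈ range n, ((b : ℝ) - 1) * (b : ℝ) ^ k * f1 J z w (k + 1) ^ 2 =
        (1 - w) ^ 2 * (((b : ℝ) - 1) * (b : ℝ) ^ k *
          (1 - Real.exp (-(J (k + 1) / z))) ^ 2) := by
      intro k _
      rw [f1_succ]; ring
    rw [Finset.sum_congr rfl h2, ← Finset.mul_sum]
    have h3 := mul_le_mul_of_nonneg_left H.sum_sq_le (sq_nonneg (1 - w))
    simpa using h3
  card := by
    rw [Fintype.card_fun, hT, Fintype.card_fin]
    calc 2 ≤ b := H.hb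
      _ = b ^ 1 := (pow_one _).symm
      _ ≤ b ^ n := Nat.pow_le_pow_right (by have := H.hb; omega) (by have := H.hn; omega)

lemma f2_nonneg (s : ℝ) (k : ℕ) : 0 ≤ f2 J z s k := by
  unfold f2
  split_ifs
  · exact le_rfl
  · have : Real.exp (-(max (J k / z + s) 0)) ≤ 1 := by
      rw [Real.exp_le_one_iff]; linarith [le_max_right (J k / z + s) 0]
    linarith

lemma f2_le_q (H : ZData b β A₁ A₂ J n z) (s : ℝ) {k : ℕ} (hk : 1 ≤ k) :
    f2 J z s k ≤ 1 - Real.exp (-(J k / z)) + |s| := by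
  rw [f2, if_neg (by omega)]
  have := exp_max_le (J k / z) s
  rwa [max_eq_left (H.J_nonneg hk)] at this

lemma f2_le (H : ZData b β A₁ A₂ J n z) (s : ℝ) (k : ℕ) :
    f2 J z s k ≤ 4 * A₂ / A₁ * ((b * β) ^ n)⁻¹ + |s| := by
  have hA := H.A_pos
  have hA2 := H.A2_pos
  have hr : (0 : ℝ) < (b * β) ^ n := pow_pos (by linarith [H.r_gt]) _
  have hβ := H.β_pos
  rcases Nat.eq_zero_or_pos k with rfl | hk
  · simp only [f2, if_true]; positivity
  · refine (H.f2_le_q s hk).trans (add_le_add ((H.q_le hk).trans ?_) le_rfl)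
    have h1 : β ^ k ≤ 1 := pow_le_one₀ hβ.le H.β_lt.le
    calc 4 * A₂ / A₁ * β ^ k * ((b * β) ^ n)⁻¹ ≤ 4 * A₂ / A₁ * 1 * ((b * β) ^ n)⁻¹ :=
          mul_le_mul_of_nonneg_right (mul_le_mul_of_nonneg_left h1 (by positivity)) (by positivity)
      _ = _ := by rw [mul_one]

lemma f2_ge (H : ZData b β A₁ A₂ J n z) {s : ℝ} (hs : |s| ≤ 1 / 2) {k : ℕ} (hk : 1 ≤ k) :
    1 - Real.exp (-(J k / z)) - 2 * |s| ≤ f2 J z s k := by
  rw [f2, if_neg (by omega)]
  exact le_exp_max hs (H.J_nonneg hk)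

/-- The finite volume estimate. -/
theorem prob_not_good (H : ZData b β A₁ A₂ J n z) (hT : Fintype.card T = b) {w s t : ℝ}
    {K m M i : ℕ} (hw0 : 0 < w) (hw1 : w ≤ 1 / 4)
    (herr : 2 * ((4 * A₂ / A₁) ^ 2 / (1 - b * β ^ 2) * (((b * β) ^ n)⁻¹) ^ 2) /
      (c0 b β A₁ A₂ / 4) ^ 2 + 2 * w⁻¹ ^ 2 / ((b : ℝ) ^ n - 1) ≤ w / 16)
    (hK1 : 1 ≤ K) (hK : 4096 * K * w ^ 2 ≤ 1)
    (hs : |s| ≤ 1 / 2)
    (hp2 : 4 * A₂ / A₁ * ((b * β) ^ n)⁻¹ + |s| ≤ 1 / 2)
    (hsq : (4 * A₂ / A₁ * ((b * β) ^ n)⁻¹ + |s|) * (1 + (b : ℝ) ^ n * |s|) ≤ 1 / 8)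
    (hws : 2 * |s| ≤ w * (c0 b β A₁ A₂ / 2 * ((b : ℝ) ^ n)⁻¹))
    (hm : 1 ≤ m) (ht : 0 ≤ t) (ht1 : t ≤ 1)
    (hts : t + 2 * |s| ≤ c0 b β A₁ A₂ / 2 * β ^ 2 * ((b * β) ^ n)⁻¹)
    (hM : b ^ 2 * M ≤ K)
    (hi : i * m ≤ (b : ℝ) ^ n * w / 16) :
    (labels (Fin n → T)).real {ω | ¬ Good i K (conf (lift (f2 J z s)) ω)} ≤
      256 / ((b : ℝ) ^ n * w ^ 3) +
      (b : ℝ) ^ n / m * (2 * (8 * ((b : ℝ) ^ n * |s|) + Real.sqrt (8 * (1 / m)))) +
      (b : ℝ) ^ n * ((b : ℝ) ^ 2 * (1 - t ^ 3) ^ M) := by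
  have hb2 := H.b2
  have hcard : (Fintype.card (Fin n → T) : ℝ) = (b : ℝ) ^ n := by
    rw [Fintype.card_fun, hT, Fintype.card_fin]; push_cast; ring
  have hTne : Nonempty T := by
    rw [← Fintype.card_pos_iff, hT]; have := H.hb; omega
  have hle : ∀ e : Sym2 (Fin n → T), lift (f1 J z w) e ≤ lift (f2 J z s) e := by
    intro e
    induction e with
    | h x y =>
      rw [lift_mk, lift_mk]
      rcases Nat.eq_zero_or_pos (lev x y) with h | h
      · rw [h]; simp [f1, f2]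
      · refine le_trans ?_ (H.f2_ge hs h)
        rw [f1, if_neg (by omega)]
        have h1 := H.q_ge h (lev_le x y)
        have h2 := mul_le_mul_of_nonneg_left h1 hw0.le
        nlinarith
  obtain ⟨a₁, a₂, Y, hcov, hX, hlev⟩ := exists_triFam (T := T) H.hn (by rw [hT]; exact H.hb)
  have ht' : ∀ x y : Fin n → T, 1 ≤ lev x y ∧ lev x y ≤ 2 → t ≤ lift (f2 J z s) s(x, y) := by
    rintro x y ⟨h1, h2⟩
    rw [lift_mk]
    refine le_trans ?_ (H.f2_ge hs h1)
    have := H.q_ge_aux h1 h2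
    linarith
  have hη : 0 ≤ (b : ℝ) ^ n * |s| := by positivity
  have hsum : ∀ x : Fin n → T, ∑ y, lift (f2 J z s) s(x, y) ≤ 1 + (b : ℝ) ^ n * |s| := by
    intro x
    simp_rw [lift_mk]
    rw [sum_lev, hT]
    have h1 : f2 J z s 0 = 0 := by simp [f2]
    rw [h1, zero_add]
    have h2 : ∀ k ∈ range n, ((b : ℝ) - 1) * (b : ℝ) ^ k * f2 J z s (k + 1) ≤
        ((b : ℝ) - 1) * (b : ℝ) ^ k * (1 - Real.exp (-(J (k + 1) / z))) +
        ((b : ℝ) - 1) * (b : ℝ) ^ k * |s| := by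
      intro k _
      rw [← mul_add]
      exact mul_le_mul_of_nonneg_left (H.f2_le_q s (by omega))
        (mul_nonneg (by linarith) (by positivity))
    refine (Finset.sum_le_sum h2).trans ?_
    rw [Finset.sum_add_distrib, H.eq, ← Finset.sum_mul, ← Finset.mul_sum,
      mul_comm ((b : ℝ) - 1), geom_sum_mul]
    have := abs_nonneg s
    nlinarith
  have hmax : ∀ e : Sym2 (Fin n → T), lift (f2 J z s) e ≤ 4 * A₂ / A₁ * ((b * β) ^ n)⁻¹ + |s| := by
    intro e
    induction e with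
    | h x y => rw [lift_mk]; exact H.f2_le s _
  have hnn : ∀ e : Sym2 (Fin n → T), 0 ≤ lift (f2 J z s) e := by
    intro e
    induction e with
    | h x y => rw [lift_mk]; exact f2_nonneg s _
  have hsq' : ∀ x : Fin n → T, ∑ y, lift (f2 J z s) s(x, y) ^ 2 ≤ 1 / 8 := by
    intro x
    refine le_trans ?_ hsq
    calc ∑ y, lift (f2 J z s) s(x, y) ^ 2
        ≤ ∑ y, (4 * A₂ / A₁ * ((b * β) ^ n)⁻¹ + |s|) * lift (f2 J z s) s(x, y) := by
          refine Finset.sum_le_sum fun y _ => ?_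
          rw [pow_two]
          exact mul_le_mul_of_nonneg_right (hmax _) (hnn _)
      _ = (4 * A₂ / A₁ * ((b * β) ^ n)⁻¹ + |s|) * ∑ y, lift (f2 J z s) s(x, y) := by
          rw [Finset.mul_sum]
      _ ≤ _ := mul_le_mul_of_nonneg_left (hsum x) ((hnn s(x, x)).trans (hmax _))
  have hR : 0 ≤ (4 * A₂ / A₁) ^ 2 / (1 - b * β ^ 2) * (((b * β) ^ n)⁻¹) ^ 2 := by
    have : 0 < 1 - (b : ℝ) * β ^ 2 := by linarith [H.sq_lt]
    positivity
  have hcJ : Fintype.card (Fin 2 → T) = b ^ 2 := by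
    rw [Fintype.card_fun, hT, Fintype.card_fin]
  have key := Pool.Agent.Lib.Pc53cb9.prob_not_good (V := Fin n → T) (K := K) (m := m) (M := M)
    (i := i) (t := t) (η := (b : ℝ) ^ n * |s|) hle
    (H.goodKernel hT hw0 (by linarith)) hR hw0 hw1 (by rw [hcard]; exact herr) hK1 hK
    (fun e => (hmax e).trans hp2) (fun x => by rw [lift_mk, lev_self]; simp [f2]) hη hsum hsq' hm
    hcov hX ht ht1 (fun x => ht' _ _ (hlev x).1) (fun x => ht' _ _ (hlev x).2.1)
    (fun x => ht' _ _ (hlev x).2.2) (by rw [hcJ]; exact hM) (by rw [hcard]; exact hi)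
  rw [hcard, hcJ] at key
  push_cast at key
  exact key

end ZData

end Pool.Agent.Lib.Pc53cb9
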