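import Mathlib
import Pool.Agent.Lib.Pc53cb9.Finite

/-!
Choice of the parameters and asymptotics.
-/

set_option linter.unusedSectionVars false

open MeasureTheory Finset Filter Topology
open scoped unitInterval

namespace Pool.Agent.Lib.Pc53cb9

lemma ev_rpow_le {a ε : ℝ} (ha : a < 0) (C : ℝ) (hε : 0 < ε) :
    ∀ᶠ x : ℝ in atTop, C * x ^ a ≤ ε := by
  have h1 : Tendsto (fun x : ℝ => C * x ^ a) atTop (𝓝 (C * 0)) := by
    have := (tendsto_rpow_neg_atTop (y := -a) (by linarith)).const_mul C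
    simpa using this
  rw [mul_zero] at h1
  exact (h1.eventually (gt_mem_nhds hε)).mono fun x hx => le_of_lt hx

section Aux

variable {x : ℝ} (hx2 : 2 ≤ x)
include hx2

lemma aux_herr {C₂ c δ sg : ℝ} 
    (e2 : 2 * C₂ / c ^ 2 * x ^ (sg - 2 * δ) ≤ 1 / 32) (e3 : 4 * x ^ (3 * sg - 1) ≤ 1 / 32) :
    2 * (C₂ * (x ^ (-δ)) ^ 2) / c ^ 2 + 2 * (x ^ (-sg))⁻¹ ^ 2 / (x - 1) ≤ x ^ (-sg) / 16 := by
  have hx0 : 0 < x := by linarith
  have hpos : ∀ a : ℝ, 0 < x ^ a := fun a => Real.rpow_pos_of_pos hx0 a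
  have t1 : 2 * (C₂ * (x ^ (-δ)) ^ 2) / c ^ 2 = 2 * C₂ / c ^ 2 * x ^ (sg - 2 * δ) *
      x ^ (-sg) := by
    have : (x ^ (-δ)) ^ 2 = x ^ (sg - 2 * δ) * x ^ (-sg) := by
      rw [pow_two, ← Real.rpow_add hx0, ← Real.rpow_add hx0]; ring_nf
    rw [this]; ring
  have t2 : 2 * (x ^ (-sg))⁻¹ ^ 2 / (x - 1) ≤ 4 * x ^ (3 * sg - 1) * x ^ (-sg) := by
    have h1 : (x ^ (-sg))⁻¹ = x ^ sg := by rw [Real.rpow_neg hx0.le, inv_inv]
    have h2 : x ^ (3 * sg - 1) * x ^ (-sg) = (x ^ sg) ^ 2 * x⁻¹ := by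
      rw [pow_two, ← Real.rpow_neg_one x, ← Real.rpow_add hx0, ← Real.rpow_add hx0,
        ← Real.rpow_add hx0]; ring_nf
    rw [h1, mul_assoc, h2, div_le_iff₀ (by linarith)]
    have h3 : 1 / 2 ≤ x⁻¹ * (x - 1) := by
      rw [inv_mul_eq_div, le_div_iff₀ hx0]; linarith
    have h4 : 0 ≤ (x ^ sg) ^ 2 := by positivity
    have h5 := mul_le_mul_of_nonneg_left h3 h4
    calc 2 * (x ^ sg) ^ 2 = 4 * ((x ^ sg) ^ 2 * (1 / 2)) := by ring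
      _ ≤ 4 * ((x ^ sg) ^ 2 * (x⁻¹ * (x - 1))) := by linarith
      _ = _ := by ring
  have t3 := mul_le_mul_of_nonneg_right e2 (hpos (-sg)).le
  have t4 := mul_le_mul_of_nonneg_right e3 (hpos (-sg)).le
  rw [t1]
  linarith

lemma aux_hsq {C₁ lam δ : ℝ} (hC₁ : 0 ≤ C₁)
    (e5 : |lam| * x ^ (-(4 / 3) : ℝ) ≤ 1 / 64) (e6 : C₁ * x ^ (-δ) ≤ 1 / 64)
    (e7 : |lam| * x ^ (-(1 / 3) : ℝ) ≤ 1) :
    (C₁ * x ^ (-δ) + |lam| * x ^ (-(4 / 3) : ℝ)) * (1 + x * (|lam| * x ^ (-(4 / 3) : ℝ)))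
      ≤ 1 / 8 := by
  have hx0 : 0 < x := by linarith
  have hpos : ∀ a : ℝ, 0 < x ^ a := fun a => Real.rpow_pos_of_pos hx0 a
  have hxx : x * x ^ (-(4 / 3) : ℝ) = x ^ (-(1 / 3) : ℝ) := by
    nth_rewrite 1 [← Real.rpow_one x]
    rw [← Real.rpow_add hx0]; norm_num
  rw [← mul_assoc x, mul_comm x |lam|, mul_assoc, hxx]
  have h1 : 0 ≤ C₁ * x ^ (-δ) + |lam| * x ^ (-(4 / 3) : ℝ) := by
    have := hpos (-δ); have := hpos (-(4 / 3)); positivity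
  have h2 : C₁ * x ^ (-δ) + |lam| * x ^ (-(4 / 3) : ℝ) ≤ 1 / 16 := by linarith
  have h3 : 0 ≤ |lam| * x ^ (-(1 / 3) : ℝ) := by have := hpos (-(1 / 3)); positivity
  calc _ ≤ (1 / 16 : ℝ) * (1 + 1) := mul_le_mul h2 (by linarith) (by linarith) (by norm_num)
    _ = 1 / 8 := by norm_num

lemma aux_hws {c lam sg : ℝ} (hc : 0 < c) (e8 : |lam| * x ^ (sg - 1 / 3) ≤ c) :
    2 * (|lam| * x ^ (-(4 / 3) : ℝ)) ≤ x ^ (-sg) * (2 * c * x⁻¹) := by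
  have hx0 : 0 < x := by linarith
  have hpos : ∀ a : ℝ, 0 < x ^ a := fun a => Real.rpow_pos_of_pos hx0 a
  have h1 : x ^ (-(4 / 3) : ℝ) = x ^ (sg - 1 / 3) * (x ^ (-sg) * x⁻¹) := by
    rw [← Real.rpow_neg_one x, ← Real.rpow_add hx0, ← Real.rpow_add hx0]
    congr 1
    ring
  have h2 : 0 ≤ x ^ (-sg) * x⁻¹ := by have := hpos (-sg); positivity
  have h3 := mul_le_mul_of_nonneg_right e8 h2
  rw [h1]
  calc 2 * (|lam| * (x ^ (sg - 1 / 3) * (x ^ (-sg) * x⁻¹)))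
      = 2 * (|lam| * x ^ (sg - 1 / 3) * (x ^ (-sg) * x⁻¹)) := by ring
    _ ≤ 2 * (c * (x ^ (-sg) * x⁻¹)) := by linarith
    _ = _ := by ring

lemma aux_b1 {sg ε : ℝ} (e11 : 256 * x ^ (3 * sg - 1) ≤ ε / 4) :
    256 / (x * (x ^ (-sg)) ^ 3) ≤ ε / 4 := by
  have hx0 : 0 < x := by linarith
  have hpos : ∀ a : ℝ, 0 < x ^ a := fun a => Real.rpow_pos_of_pos hx0 a
  refine le_trans (le_of_eq ?_) e11
  have h1 : x ^ (3 * sg - 1) * (x * (x ^ (-sg)) ^ 3) = 1 := by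
    have : x ^ (3 * sg - 1) * (x * (x ^ (-sg)) ^ 3) =
        x ^ (3 * sg - 1) * (x ^ (1 : ℝ) * (x ^ (-sg) * (x ^ (-sg) * x ^ (-sg)))) := by
      rw [Real.rpow_one]; ring
    rw [this, ← Real.rpow_add hx0, ← Real.rpow_add hx0, ← Real.rpow_add hx0,
      ← Real.rpow_add hx0]
    have h0 : 3 * sg - 1 + (1 + (-sg + (-sg + -sg))) = 0 := by ring
    rw [h0, Real.rpow_zero]
  have h2 : 0 < x * (x ^ (-sg)) ^ 3 := by have := hpos (-sg); positivity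
  rw [div_eq_iff h2.ne', mul_assoc, h1, mul_one]

lemma aux_b2 {g ε lam : ℝ} {m : ℕ} (hmge : x ^ g ≤ m)
    (e12 : 16 * |lam| * x ^ (2 / 3 - g) ≤ ε / 4)
    (e13 : 2 * Real.sqrt 8 * x ^ (1 - 3 * g / 2) ≤ ε / 4) :
    x / m * (2 * (8 * (x * (|lam| * x ^ (-(4 / 3) : ℝ))) +
        Real.sqrt (8 * (1 / m)))) ≤ ε / 2 := by
  have hx0 : 0 < x := by linarith
  have hpos : ∀ a : ℝ, 0 < x ^ a := fun a => Real.rpow_pos_of_pos hx0 a
  have hmpos : (0 : ℝ) < m := lt_of_lt_of_le (hpos g) hmge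
  have hxx : x * x ^ (-(4 / 3) : ℝ) = x ^ (-(1 / 3) : ℝ) := by
    nth_rewrite 1 [← Real.rpow_one x]
    rw [← Real.rpow_add hx0]; norm_num
  have h1 : x / m ≤ x ^ (1 - g) := by
    rw [div_le_iff₀ hmpos]
    calc x = x ^ (1 - g) * x ^ g := by
          rw [← Real.rpow_add hx0]; simp
      _ ≤ _ := mul_le_mul_of_nonneg_left hmge (hpos _).le
  have h2 : Real.sqrt (8 * (1 / m)) ≤ Real.sqrt 8 * x ^ (-(g / 2)) := by
    rw [Real.sqrt_mul (by norm_num)]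
    refine mul_le_mul_of_nonneg_left ?_ (Real.sqrt_nonneg _)
    rw [Real.sqrt_le_left (hpos _).le, pow_two, ← Real.rpow_add hx0, one_div]
    have : (-(g / 2) + -(g / 2)) = -g := by ring
    rw [this, Real.rpow_neg hx0.le]
    exact inv_anti₀ (hpos g) hmge
  have h3 : x * (|lam| * x ^ (-(4 / 3) : ℝ)) = |lam| * x ^ (-(1 / 3) : ℝ) := by
    rw [← hxx]; ring
  rw [h3]
  calc x / m * (2 * (8 * (|lam| * x ^ (-(1 / 3) : ℝ)) + Real.sqrt (8 * (1 / m))))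
      ≤ x ^ (1 - g) * (2 * (8 * (|lam| * x ^ (-(1 / 3) : ℝ)) +
        Real.sqrt 8 * x ^ (-(g / 2)))) := by
        refine mul_le_mul h1 (by linarith) ?_ (hpos _).le
        have := hpos (-(1 / 3))
        have := Real.sqrt_nonneg (8 * (1 / (m : ℝ)))
        positivity
    _ = 16 * |lam| * (x ^ (1 - g) * x ^ (-(1 / 3) : ℝ)) +
        2 * Real.sqrt 8 * (x ^ (1 - g) * x ^ (-(g / 2))) := by ring
    _ = 16 * |lam| * x ^ (2 / 3 - g) + 2 * Real.sqrt 8 * x ^ (1 - 3 * g / 2) := by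
        rw [← Real.rpow_add hx0, ← Real.rpow_add hx0]
        congr 3 <;> ring
    _ ≤ ε / 2 := by linarith

lemma aux_b3 {δ sg ε c' : ℝ} {B K : ℕ} (hδ0 : 0 < δ) (hc' : 0 < c') (hc'1 : c' ≤ 1)
    (hB : 1 ≤ B) (hKge : x ^ (2 * sg) / 4096 - 1 < K)
    (hbig : 8192 * (2 * (B : ℝ) + 1) ≤ x ^ (2 * sg))
    (hx3 : x * ((B : ℝ) * Real.exp (-(c' ^ 3 / (16384 * B) * x ^ (2 * sg - 3 * δ)))) ≤ ε / 4) :
    x * (B * (1 - (c' * x ^ (-δ)) ^ 3) ^ (K / B)) ≤ ε / 4 := by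
  have hx0 : 0 < x := by linarith
  have hpos : ∀ a : ℝ, 0 < x ^ a := fun a => Real.rpow_pos_of_pos hx0 a
  have hB' : (1 : ℝ) ≤ B := by exact_mod_cast hB
  refine le_trans ?_ hx3
  have hB0 : (0 : ℝ) < B := by linarith
  refine mul_le_mul_of_nonneg_left (mul_le_mul_of_nonneg_left ?_ hB0.le) hx0.le
  have h1 : 1 - (c' * x ^ (-δ)) ^ 3 ≤ Real.exp (-(c' * x ^ (-δ)) ^ 3) := by
    have := Real.add_one_le_exp (-(c' * x ^ (-δ)) ^ 3)
    linarith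
  have h0 : 0 ≤ 1 - (c' * x ^ (-δ)) ^ 3 := by
    have h1 : x ^ (-δ) ≤ 1 := Real.rpow_le_one_of_one_le_of_nonpos (by linarith) (by linarith)
    have h2 := hpos (-δ)
    have h3 : c' * x ^ (-δ) ≤ 1 := by nlinarith
    have h4 : (c' * x ^ (-δ)) ^ 3 ≤ 1 := pow_le_one₀ (by positivity) h3
    linarith
  refine (pow_le_pow_left₀ h0 h1 _).trans ?_
  rw [← Real.exp_nat_mul]
  refine Real.exp_le_exp.2 ?_
  have h5 : x ^ (2 * sg) / (16384 * B) ≤ ((K / B : ℕ) : ℝ) := by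
    have h6 : (K : ℝ) < B * (((K / B : ℕ) : ℝ) + 1) := by
      have := Nat.lt_mul_div_succ K (show 0 < B by omega)
      exact_mod_cast this
    have h7 : x ^ (2 * sg) / 4096 - 1 < B * (((K / B : ℕ) : ℝ) + 1) := by linarith
    rw [div_le_iff₀ (by positivity)]
    have h8 : ((K / B : ℕ) : ℝ) * (16384 * B) = 16384 * (B * (((K / B : ℕ) : ℝ) + 1)) - 16384 * B := by
      ring
    rw [h8]
    linarith
  have h8 : (c' * x ^ (-δ)) ^ 3 * (x ^ (2 * sg) / (16384 * B)) =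
      c' ^ 3 / (16384 * B) * x ^ (2 * sg - 3 * δ) := by
    have : (x ^ (-δ)) ^ 3 * x ^ (2 * sg) = x ^ (2 * sg - 3 * δ) := by
      rw [pow_succ, pow_two, ← Real.rpow_add hx0, ← Real.rpow_add hx0, ← Real.rpow_add hx0]
      congr 1
      ring
    rw [← this]; ring
  have h9 : 0 ≤ (c' * x ^ (-δ)) ^ 3 := by have := hpos (-δ); positivity
  have h10 := mul_le_mul_of_nonneg_left h5 h9
  rw [h8] at h10
  linarith

end Aux

/-- All the requirements on the parameters can be met. -/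
theorem parameters {δ : ℝ} (hδ0 : 0 < δ) (hδ1 : δ < 2 / 9) {C₁ C₂ c c' : ℝ} (hC₁ : 0 ≤ C₁)
    (hC₂ : 0 ≤ C₂) (hc : 0 < c) (hc' : 0 < c') (hc'1 : c' ≤ 1) (lam : ℝ) (i : ℕ) {B : ℕ}
    (hB : 1 ≤ B) {ε : ℝ} (hε : 0 < ε) :
    ∀ᶠ x : ℝ in atTop, ∃ (w t : ℝ) (K m M : ℕ),
      0 < w ∧ w ≤ 1 / 4 ∧
      2 * (C₂ * ((x ^ δ)⁻¹) ^ 2) / c ^ 2 + 2 * w⁻¹ ^ 2 / (x - 1) ≤ w / 16 ∧
      1 ≤ K ∧ 4096 * K * w ^ 2 ≤ 1 ∧
      |lam * x ^ (-(4 / 3) : ℝ)| ≤ 1 / 2 ∧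
      C₁ * (x ^ δ)⁻¹ + |lam * x ^ (-(4 / 3) : ℝ)| ≤ 1 / 2 ∧
      (C₁ * (x ^ δ)⁻¹ + |lam * x ^ (-(4 / 3) : ℝ)|) * (1 + x * |lam * x ^ (-(4 / 3) : ℝ)|)
        ≤ 1 / 8 ∧
      2 * |lam * x ^ (-(4 / 3) : ℝ)| ≤ w * (2 * c * x⁻¹) ∧
      1 ≤ m ∧ 0 ≤ t ∧ t ≤ 1 ∧
      t + 2 * |lam * x ^ (-(4 / 3) : ℝ)| ≤ 2 * c' * (x ^ δ)⁻¹ ∧
      B * M ≤ K ∧ i * m ≤ x * w / 16 ∧
      256 / (x * w ^ 3) +
      x / m * (2 * (8 * (x * |lam * x ^ (-(4 / 3) : ℝ)|) + Real.sqrt (8 * (1 / m)))) +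
      x * (B * (1 - t ^ 3) ^ M) ≤ ε := by
  obtain ⟨sg, hsg1, hsg2⟩ : ∃ sg : ℝ, 3 * δ / 2 < sg ∧ sg < min (2 * δ) (1 / 3) :=
    exists_between (lt_min (by linarith) (by linarith))
  have hsg3 : sg < 2 * δ := lt_of_lt_of_le hsg2 (min_le_left _ _)
  have hsg4 : sg < 1 / 3 := lt_of_lt_of_le hsg2 (min_le_right _ _)
  obtain ⟨g, hg1, hg2⟩ : ∃ g : ℝ, 2 / 3 < g ∧ g < 1 - sg := exists_between (by linarith)
  have hsg0 : 0 < sg := by linarith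
  -- the exponential term
  have hexp : Tendsto (fun x : ℝ => x * ((B : ℝ) * Real.exp (-(c' ^ 3 / (16384 * B) *
      x ^ (2 * sg - 3 * δ))))) atTop (𝓝 0) := by
    have hB' : (0 : ℝ) < B := by exact_mod_cast hB
    have e0 : 0 < 2 * sg - 3 * δ := by linarith
    have h1 := tendsto_rpow_mul_exp_neg_mul_atTop_nhds_zero (1 / (2 * sg - 3 * δ))
      (c' ^ 3 / (16384 * B)) (by positivity)
    have h2 := (h1.comp (tendsto_rpow_atTop e0)).const_mul (B : ℝ)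
    rw [mul_zero] at h2
    refine h2.congr' ?_
    filter_upwards [eventually_gt_atTop 0] with x hx
    simp only [Function.comp_apply]
    rw [← Real.rpow_mul hx.le, mul_one_div_cancel e0.ne', Real.rpow_one]
    ring_nf
  have hexp' : ∀ᶠ x : ℝ in atTop, x * ((B : ℝ) * Real.exp (-(c' ^ 3 / (16384 * B) *
      x ^ (2 * sg - 3 * δ)))) ≤ ε / 4 :=
    (hexp.eventually (gt_mem_nhds (show (0 : ℝ) < ε / 4 by positivity))).mono
      fun x hx => le_of_lt hx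
  filter_upwards [eventually_ge_atTop (2 : ℝ), hexp',
    ev_rpow_le (a := -sg) (ε := 1 / 4) (by linarith) 1 (by norm_num),
    ev_rpow_le (a := sg - 2 * δ) (ε := 1 / 32) (by linarith) (2 * C₂ / c ^ 2) (by norm_num),
    ev_rpow_le (a := 3 * sg - 1) (ε := 1 / 32) (by linarith) 4 (by norm_num),
    ev_rpow_le (a := -(2 * sg)) (ε := 1) (by linarith) (8192 * (2 * B + 1)) (by norm_num),
    ev_rpow_le (a := -(4 / 3)) (ε := 1 / 64) (by norm_num) |lam| (by norm_num),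
    ev_rpow_le (a := -δ) (ε := 1 / 64) (by linarith) C₁ (by norm_num),
    ev_rpow_le (a := -(1 / 3)) (ε := 1) (by norm_num) |lam| (by norm_num),
    ev_rpow_le (a := sg - 1 / 3) (ε := c) (by linarith) |lam| hc,
    ev_rpow_le (a := δ - 4 / 3) (ε := c') (by linarith) (2 * |lam|) hc',
    ev_rpow_le (a := g + sg - 1) (ε := 1) (by linarith) (32 * i) (by norm_num),
    ev_rpow_le (a := 3 * sg - 1) (ε := ε / 4) (by linarith) 256 (by positivity),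
    ev_rpow_le (a := 2 / 3 - g) (ε := ε / 4) (by linarith) (16 * |lam|) (by positivity),
    ev_rpow_le (a := 1 - 3 * g / 2) (ε := ε / 4) (by linarith) (2 * Real.sqrt 8)
      (by positivity)] with x hx2 hx3 e1 e2 e3 e4 e5 e6 e7 e8 e9 e10 e11 e12 e13
  have hx0 : 0 < x := by linarith
  have habs : |lam * x ^ (-(4 / 3) : ℝ)| = |lam| * x ^ (-(4 / 3) : ℝ) := by
    rw [abs_mul, abs_of_nonneg (Real.rpow_nonneg hx0.le _)]
  have hδinv : (x ^ δ)⁻¹ = x ^ (-δ) := (Real.rpow_neg hx0.le δ).symm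
  rw [habs, hδinv]
  have hpos : ∀ a : ℝ, 0 < x ^ a := fun a => Real.rpow_pos_of_pos hx0 a
  obtain ⟨K, hK⟩ : ∃ K : ℕ, K = ⌊x ^ (2 * sg) / 4096⌋₊ := ⟨_, rfl⟩
  obtain ⟨m, hm⟩ : ∃ m : ℕ, m = ⌈x ^ g⌉₊ := ⟨_, rfl⟩
  have hKle : (K : ℝ) ≤ x ^ (2 * sg) / 4096 := by
    rw [hK]; exact Nat.floor_le (by have := hpos (2 * sg); positivity)
  have hKge : x ^ (2 * sg) / 4096 - 1 < K := by
    have := Nat.lt_floor_add_one (x ^ (2 * sg) / 4096)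
    rw [← hK] at this
    linarith
  have hbig : 8192 * (2 * (B : ℝ) + 1) ≤ x ^ (2 * sg) := by
    rw [Real.rpow_neg hx0.le, ← div_eq_mul_inv, div_le_iff₀ (hpos _), one_mul] at e4
    exact e4
  have hB' : (1 : ℝ) ≤ B := by exact_mod_cast hB
  have hmge : x ^ g ≤ m := by rw [hm]; exact Nat.le_ceil _
  have hmlt : (m : ℝ) ≤ 2 * x ^ g := by
    have h1 := Nat.ceil_lt_add_one (hpos g).le
    have h2 : 1 ≤ x ^ g := Real.one_le_rpow (by linarith) (by linarith)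
    rw [← hm] at h1
    linarith
  have hmpos : (0 : ℝ) < m := lt_of_lt_of_le (hpos g) hmge
  refine ⟨x ^ (-sg), c' * x ^ (-δ), K, m, K / B, hpos _, by linarith, aux_herr hx2 e2 e3, ?_, ?_,
    by linarith, by linarith, aux_hsq hx2 hC₁ e5 e6 e7, aux_hws hx2 hc e8, ?_, ?_, ?_, ?_,
    Nat.mul_div_le K B, ?_, ?_⟩
  · -- 1 ≤ K
    rw [hK, Nat.one_le_floor_iff, le_div_iff₀ (by norm_num)]
    linarith
  · have hww : x ^ (-sg) * x ^ (-sg) = x ^ (-(2 * sg)) := by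
      rw [← Real.rpow_add hx0]
      congr 1
      ring
    calc 4096 * (K : ℝ) * (x ^ (-sg)) ^ 2 ≤ 4096 * (x ^ (2 * sg) / 4096) * (x ^ (-sg)) ^ 2 :=
          mul_le_mul_of_nonneg_right (by linarith) (by positivity)
      _ = x ^ (2 * sg) * x ^ (-(2 * sg)) := by rw [pow_two, hww]; ring
      _ = 1 := by rw [← Real.rpow_add hx0]; simp
      _ ≤ 1 := le_rfl
  · exact Nat.one_le_iff_ne_zero.2 (by exact_mod_cast hmpos.ne')
  · exact mul_nonneg hc'.le (hpos _).le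
  · have h1 : x ^ (-δ) ≤ 1 := Real.rpow_le_one_of_one_le_of_nonpos (by linarith) (by linarith)
    exact mul_le_one₀ hc'1 (hpos _).le h1
  · have h1 : x ^ (-(4 / 3) : ℝ) = x ^ (δ - 4 / 3) * x ^ (-δ) := by
      rw [← Real.rpow_add hx0]
      congr 1
      ring
    have h3 := mul_le_mul_of_nonneg_right e9 (hpos (-δ)).le
    rw [h1]
    linarith
  · -- hi
    have h1 : (i : ℝ) * m ≤ i * (2 * x ^ g) := mul_le_mul_of_nonneg_left hmlt (by positivity)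
    have h2 : x ^ g = x ^ (g + sg - 1) * (x * x ^ (-sg)) := by
      have : x * x ^ (-sg) = x ^ (1 - sg) := by
        rw [sub_eq_add_neg, Real.rpow_add hx0, Real.rpow_one]
      rw [this, ← Real.rpow_add hx0]
      congr 1
      ring
    have h3 := mul_le_mul_of_nonneg_right e10 (mul_nonneg hx0.le (hpos (-sg)).le)
    rw [h2] at h1
    linarith
  · -- final bound
    have b1 := aux_b1 hx2 e11
    have b2 := aux_b2 hx2 hmge e12 e13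
    have b3 := aux_b3 hx2 hδ0 hc' hc'1 hB hKge hbig hx3
    linarith

end Pool.Agent.Lib.Pc53cb9
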